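import Mathlib
import Pool.Agent.N535.Cheb
import Pool.Agent.N535.Bil

set_option autoImplicit false
set_option linter.all false
open Finset

namespace Pool.Agent.N535

noncomputable section

/-- sum of delta functions -/
def ds (m : ℕ) (idx : ℕ → ℕ) (a : ℕ → ℝ) (n : ℕ) : ℝ := ∑ i ∈ range m, if n = idx i then a i else 0

theorem ds_abs_le (m : ℕ) (idx : ℕ → ℕ) (a : ℕ → ℝ) (n : ℕ) :
    |ds m idx a n| ≤ ∑ i ∈ range m, if n = idx i then |a i| else 0 := by
  unfold ds
  refine (Finset.abs_sum_le_sum_abs _ _).trans (Finset.sum_le_sum fun i _ => ?_)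
  split_ifs <;> simp

theorem ds_sum {N : ℕ} (m : ℕ) (idx : ℕ → ℕ) (a : ℕ → ℝ) (h : ∀ i < m, idx i < N)
    {V : Type} [AddCommGroup V] [Module ℝ V] (v : ℕ → V) :
    ∑ n ∈ range N, ds m idx a n • v n = ∑ i ∈ range m, a i • v (idx i) := by
  unfold ds
  simp only [Finset.sum_smul]
  rw [Finset.sum_comm]
  refine Finset.sum_congr rfl fun i hi => ?_
  rw [Finset.mem_range] at hi
  rw [Finset.sum_eq_single (idx i)]
  · simp
  · intro n _ hn
    simp [hn]
  · intro hn
    exact absurd (Finset.mem_range.2 (h i hi)) hn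

theorem ds_kw {N : ℕ} (m : ℕ) (idx : ℕ → ℕ) (a : ℕ → ℝ) (h : ∀ i < m, idx i < N) {w : ℕ → ℝ}
    (hw : ∀ n, 0 ≤ w n) :
    ∑ n ∈ range N, w n * |ds m idx a n| ≤ ∑ i ∈ range m, w (idx i) * |a i| := by
  calc ∑ n ∈ range N, w n * |ds m idx a n|
      ≤ ∑ n ∈ range N, ds m idx (fun i => |a i|) n • w n := by
        refine Finset.sum_le_sum fun n _ => ?_
        rw [smul_eq_mul, mul_comm]
        exact mul_le_mul_of_nonneg_right (ds_abs_le m idx a n) (hw n)
    _ = _ := by
        rw [ds_sum m idx (fun i => |a i|) h w]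
        exact Finset.sum_congr rfl fun i _ => by rw [smul_eq_mul, mul_comm]

theorem ds_zero (m : ℕ) (idx : ℕ → ℕ) (a : ℕ → ℝ) (n : ℕ) (h : ∀ i < m, n ≠ idx i) :
    ds m idx a n = 0 := by
  unfold ds
  refine Finset.sum_eq_zero fun i hi => ?_
  rw [Finset.mem_range] at hi
  rw [if_neg (h i hi)]

theorem ds_abs_le_card (m : ℕ) (idx : ℕ → ℕ) (a : ℕ → ℝ) (n : ℕ) {B : ℝ} (hB : ∀ i < m, |a i| ≤ B)
    (h0 : 0 ≤ B) : |ds m idx a n| ≤ m * B := by
  refine (ds_abs_le m idx a n).trans ?_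
  calc (∑ i ∈ range m, if n = idx i then |a i| else 0) ≤ ∑ i ∈ range m, B := by
        refine Finset.sum_le_sum fun i hi => ?_
        rw [Finset.mem_range] at hi
        split_ifs
        · exact hB i hi
        · exact h0
    _ = _ := by simp

/-! ### the three kernels -/

/-- kernel of the product -/
def km (J K n : ℕ) : ℝ := ds (min J K) (fun i => dd J K + 1 + 2 * i) (fun _ => 1) n

/-- kernel of the antiderivative of the product of the derivatives -/
def ki (J K n : ℕ) : ℝ :=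
  ds (min J K) (fun i => dd J K + 2 + 2 * i) (fun i => ic J K (dd J K + 2 + 2 * i)) n

/-- kernel of `f (x g + (1-x²) g')` -/
def kg (Q L n : ℕ) : ℝ :=
  if L = 0 then 0 else
    -((L : ℝ) / 2) * ((if n = Q + L then 1 else 0) + (if n + L = Q then 1 else 0)
      - (if n + Q = L then 1 else 0)) + km Q (L + 1) n + km Q (L - 1) n

theorem idx1_lt {J K i : ℕ} (h : i < min J K) : dd J K + 1 + 2 * i < J + K := by
  have := dd_add J K; omega

theorem idx2_le {J K i : ℕ} (h : i < min J K) : dd J K + 2 + 2 * i ≤ J + K := by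
  have := dd_add J K; omega

theorem ic_nonneg {J K i : ℕ} (h : i < min J K) : 0 ≤ ic J K (dd J K + 2 + 2 * i) := by
  unfold ic
  have h1 : (dd J K : ℝ) ≤ ((dd J K + 2 + 2 * i : ℕ) : ℝ) := by
    exact_mod_cast (by omega : dd J K ≤ dd J K + 2 + 2 * i)
  have h2 : ((dd J K + 2 + 2 * i : ℕ) : ℝ) ≤ (J : ℝ) + K := by
    exact_mod_cast idx2_le h
  have h3 : (2 : ℝ) ≤ ((dd J K + 2 + 2 * i : ℕ) : ℝ) := by
    exact_mod_cast (by omega : 2 ≤ dd J K + 2 + 2 * i)
  have h0 : (0:ℝ) ≤ (dd J K : ℝ) := Nat.cast_nonneg _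
  set l : ℝ := ((dd J K + 2 + 2 * i : ℕ) : ℝ)
  apply div_nonneg
  · apply mul_nonneg
    · nlinarith
    · nlinarith
  · nlinarith

theorem ic_le {J K i : ℕ} (h : i < min J K) :
    ic J K (dd J K + 2 + 2 * i) ≤ 2 / 3 * ((min J K : ℕ) : ℝ) ^ 2 := by
  unfold ic
  have h1 : (dd J K : ℝ) ≤ ((dd J K + 2 + 2 * i : ℕ) : ℝ) := by
    exact_mod_cast (by omega : dd J K ≤ dd J K + 2 + 2 * i)
  have h2 : ((dd J K + 2 + 2 * i : ℕ) : ℝ) ≤ (J : ℝ) + K := by
    exact_mod_cast idx2_le h
  have h3 : (2 : ℝ) ≤ ((dd J K + 2 + 2 * i : ℕ) : ℝ) := by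
    exact_mod_cast (by omega : 2 ≤ dd J K + 2 + 2 * i)
  have h0 : (0:ℝ) ≤ (dd J K : ℝ) := Nat.cast_nonneg _
  have hm : 2 * ((min J K : ℕ) : ℝ) = ((J : ℝ) + K) - (dd J K : ℝ) := by
    have := dd_add J K
    have h' : (dd J K : ℝ) + 2 * ((min J K : ℕ) : ℝ) = (J : ℝ) + K := by exact_mod_cast this
    linarith
  set l : ℝ := ((dd J K + 2 + 2 * i : ℕ) : ℝ)
  set D : ℝ := (dd J K : ℝ)
  set S : ℝ := (J : ℝ) + K
  have hm2 : ((min J K : ℕ) : ℝ) ^ 2 = (S - D) ^ 2 / 4 := by
    have : ((min J K : ℕ) : ℝ) = (S - D) / 2 := by linarith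
    rw [this]; ring
  rw [hm2, div_le_iff₀ (by nlinarith)]
  -- (l²-D²)(S²-l²) ≤ (S-D)² l²  and  l² ≤ (4/3)(l²-1)
  have k1 : (l ^ 2 - D ^ 2) * (S ^ 2 - l ^ 2) ≤ (S - D) ^ 2 * l ^ 2 := by
    nlinarith [sq_nonneg (l ^ 2 - S * D)]
  have k2 : l ^ 2 ≤ 4 / 3 * (l ^ 2 - 1) := by nlinarith
  have k3 : (S - D) ^ 2 * l ^ 2 ≤ (S - D) ^ 2 * (4 / 3 * (l ^ 2 - 1)) :=
    mul_le_mul_of_nonneg_left k2 (sq_nonneg _)
  nlinarith

theorem km_supp {J K n : ℕ} (h : J + K ≤ n) : km J K n = 0 :=
  ds_zero _ _ _ _ fun i hi => by have := idx1_lt hi; omega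

theorem ki_supp {J K n : ℕ} (h : J + K < n) : ki J K n = 0 :=
  ds_zero _ _ _ _ fun i hi => by have := idx2_le hi; omega

theorem kg_supp {Q L n : ℕ} (h : Q + L < n) : kg Q L n = 0 := by
  unfold kg
  split_ifs with h0 h1 h2 h3 <;> first | rfl | (exfalso; omega) | skip
  rw [km_supp (by omega), km_supp (by omega)]
  simp

theorem abs_km_le (J K n : ℕ) : |km J K n| ≤ (J : ℝ) + K + 1 := by
  have h := ds_abs_le_card (min J K) (fun i => dd J K + 1 + 2 * i) (fun _ => (1:ℝ)) n (B := 1)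
    (fun i _ => by simp) zero_le_one
  refine h.trans ?_
  have : ((min J K : ℕ) : ℝ) ≤ J := by exact_mod_cast min_le_left _ _
  have hK : (0:ℝ) ≤ K := Nat.cast_nonneg _
  simp only [mul_one]
  push_cast at this ⊢
  linarith

theorem PK_km : PK km :=
  ⟨1, 1, zero_le_one, fun J K n => by simpa using abs_km_le J K n, fun J K n h => km_supp h.le⟩

theorem PK_ki : PK ki := by
  refine ⟨1, 3, zero_le_one, fun J K n => ?_, fun J K n h => ki_supp h⟩
  have h := ds_abs_le_card (min J K) (fun i => dd J K + 2 + 2 * i)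
    (fun i => ic J K (dd J K + 2 + 2 * i)) n (B := 2 / 3 * ((min J K : ℕ) : ℝ) ^ 2)
    (fun i hi => by rw [abs_of_nonneg (ic_nonneg hi)]; exact ic_le hi) (by positivity)
  refine h.trans ?_
  have h1 : ((min J K : ℕ) : ℝ) ≤ (J : ℝ) + K + 1 := by
    have : ((min J K : ℕ) : ℝ) ≤ J := by exact_mod_cast min_le_left _ _
    have hK : (0:ℝ) ≤ K := Nat.cast_nonneg _
    linarith
  have h0 : (0:ℝ) ≤ ((min J K : ℕ) : ℝ) := Nat.cast_nonneg _
  calc ((min J K : ℕ) : ℝ) * (2 / 3 * ((min J K : ℕ) : ℝ) ^ 2)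
      = 2 / 3 * ((min J K : ℕ) : ℝ) ^ 3 := by ring
    _ ≤ 1 * ((J : ℝ) + K + 1) ^ 3 := by
        apply mul_le_mul (by norm_num) _ (by positivity) (by positivity)
        exact pow_le_pow_left₀ h0 h1 3

theorem PK_kg : PK kg := by
  refine ⟨4, 1, by norm_num, fun Q L n => ?_, fun J K n h => kg_supp h⟩
  have hQ : (0:ℝ) ≤ Q := Nat.cast_nonneg _
  have hL : (0:ℝ) ≤ L := Nat.cast_nonneg _
  unfold kg
  split_ifs with h0
  · simp; positivity
  all_goals
    have h1 := abs_km_le Q (L + 1) n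
    have h2 := abs_km_le Q (L - 1) n
    have h3 : ((L - 1 : ℕ) : ℝ) ≤ L := by exact_mod_cast Nat.sub_le L 1
    have h4 := abs_le.1 h1
    have h5 := abs_le.1 h2
    push_cast at h4
    rw [abs_le, pow_one]
    constructor <;> nlinarith

/-! ### polynomial identities -/

open Polynomial in
theorem km_poly (J K : ℕ) : ∑ n ∈ range (J + K + 1), km J K n • sp n = sp J * sp K := by
  unfold km
  rw [ds_sum _ _ _ (fun i hi => by have := idx1_lt hi; omega), sp_mul]
  simp

open Polynomial in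
theorem ki_poly (J K : ℕ) : ∑ n ∈ range (J + K + 1), ki J K n • sp n = IP J K := by
  unfold ki IP
  rw [ds_sum _ _ _ (fun i hi => by have := idx2_le hi; omega)]
  refine Finset.sum_congr rfl fun i _ => ?_
  rw [smul_eq_C_mul]

open Polynomial in
theorem kg_poly (Q L : ℕ) : ∑ n ∈ range (Q + L + 1), kg Q L n • sp n = sp Q * GP L := by
  by_cases h0 : L = 0
  · subst h0
    have : GP ((0 : ℕ) : ℤ) = 0 := by
      unfold GP
      simp [sp_zero]
    rw [this, mul_zero]
    refine Finset.sum_eq_zero fun n _ => ?_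
    simp [kg]
  · have hL : 1 ≤ L := Nat.one_le_iff_ne_zero.2 h0
    have e1 : ∑ n ∈ range (Q + L + 1), km Q (L + 1) n • sp n = sp Q * sp (L + 1) := by
      have h := km_poly Q (L + 1)
      rw [show Q + (L + 1) + 1 = (Q + L + 1) + 1 by ring, Finset.sum_range_succ,
        km_supp (by omega), zero_smul, add_zero] at h
      rw [h]; push_cast; rfl
    have e2 : ∑ n ∈ range (Q + L + 1), km Q (L - 1) n • sp n = sp Q * sp (L - 1) := by
      have h := km_poly Q (L - 1)
      rw [show Q + L + 1 = (Q + (L - 1) + 1) + 1 by omega, Finset.sum_range_succ,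
        km_supp (by omega), zero_smul, add_zero, h]
      congr 1
      push_cast [Nat.cast_sub hL]; rfl
    have e3 : ∑ n ∈ range (Q + L + 1), (if n = Q + L then (1:ℝ) else 0) • sp n = sp (Q + L) := by
      rw [Finset.sum_eq_single (Q + L)]
      · simp
      · intro n _ hn; simp [hn]
      · intro h; exact absurd (Finset.mem_range.2 (by omega)) h
    have e4 : ∑ n ∈ range (Q + L + 1), ((if n + L = Q then (1:ℝ) else 0)
        - (if n + Q = L then 1 else 0)) • sp n = sp (Q - L) := by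
      simp only [sub_smul]
      rw [Finset.sum_sub_distrib]
      rcases le_total L Q with h | h
      · have a1 : ∑ n ∈ range (Q + L + 1), (if n + L = Q then (1:ℝ) else 0) • sp n = sp (Q - L) := by
          rw [Finset.sum_eq_single (Q - L)]
          · rw [if_pos (by omega), one_smul]; push_cast [Nat.cast_sub h]; rfl
          · intro n _ hn; rw [if_neg (by omega), zero_smul]
          · intro h; exact absurd (Finset.mem_range.2 (by omega)) h
        have a2 : ∑ n ∈ range (Q + L + 1), (if n + Q = L then (1:ℝ) else 0) • sp n = 0 := by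
          refine Finset.sum_eq_zero fun n _ => ?_
          split_ifs with hh
          · have : n = 0 := by omega
            subst this
            simp [sp_zero]
          · simp
        rw [a1, a2, sub_zero]
      · have a1 : ∑ n ∈ range (Q + L + 1), (if n + L = Q then (1:ℝ) else 0) • sp n = 0 := by
          refine Finset.sum_eq_zero fun n _ => ?_
          split_ifs with hh
          · have : n = 0 := by omega
            subst this
            simp [sp_zero]
          · simp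
        have a2 : ∑ n ∈ range (Q + L + 1), (if n + Q = L then (1:ℝ) else 0) • sp n = sp (L - Q) := by
          rw [Finset.sum_eq_single (L - Q)]
          · rw [if_pos (by omega), one_smul]; push_cast [Nat.cast_sub h]; rfl
          · intro n _ hn; rw [if_neg (by omega), zero_smul]
          · intro h; exact absurd (Finset.mem_range.2 (by omega)) h
        rw [a1, a2, zero_sub, ← sp_neg]
        congr 1
        ring
    have e5 : ∑ n ∈ range (Q + L + 1), kg Q L n • sp n =
        (-((L : ℝ) / 2)) • (sp (Q + L) + sp (Q - L)) + sp Q * sp (L + 1) + sp Q * sp (L - 1) := by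
      rw [← e1, ← e2, ← e3, ← e4, ← Finset.sum_add_distrib, Finset.smul_sum,
        ← Finset.sum_add_distrib, ← Finset.sum_add_distrib]
      refine Finset.sum_congr rfl fun n _ => ?_
      unfold kg
      rw [if_neg h0, ← add_smul, smul_smul, ← add_smul, ← add_smul]
      congr 1
      ring
    rw [e5]
    have h6 := two_GP (L : ℤ)
    have h7 := sp_mul_T Q (L : ℤ)
    have h2 : (2 : ℝ[X]) ≠ 0 := two_ne_zero
    apply mul_left_cancel₀ h2
    rw [smul_eq_C_mul]
    have h8 : (2 : ℝ[X]) * C (-((L : ℝ) / 2)) = -(L : ℝ[X]) := by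
      have : (2 : ℝ[X]) = C (2 : ℝ) := by rfl
      rw [this, ← C_mul]
      rw [show (2:ℝ) * (-((L : ℝ) / 2)) = -(L:ℝ) by ring]
      rw [C_neg, C_eq_natCast]
    have h9 : ((L : ℤ) : ℝ[X]) = (L : ℝ[X]) := by simp
    rw [h9] at h6
    linear_combination (sp (Q + L) + sp (Q - L)) * h8 + (L : ℝ[X]) * h7 - sp Q * h6

end

end Pool.Agent.N535
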