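import Mathlib
import Pool.Agent.N535.Ker

set_option autoImplicit false
set_option linter.all false
open Finset
open scoped ENNReal

namespace Pool.Agent.N535

noncomputable section

/-! ### weights -/

def wa (q : ℝ) (n : ℕ) : ℝ := (n : ℝ) * q ^ n
def wa2 (q : ℝ) (n : ℕ) : ℝ := (n : ℝ) ^ 3 * q ^ n
def wb (q M : ℝ) (n : ℕ) : ℝ := ((n : ℝ) + M) * q ^ n
def wb2 (q M : ℝ) (n : ℕ) : ℝ := (n : ℝ) ^ 2 * wb q M n
def lam (n : ℕ) : ℝ := if n = 0 then 0 else (n : ℝ) ^ 2 - 1

theorem lam_nonneg (n : ℕ) : 0 ≤ lam n := by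
  unfold lam
  split_ifs with h
  · exact le_rfl
  · have : (1:ℝ) ≤ n := by exact_mod_cast Nat.one_le_iff_ne_zero.2 h
    nlinarith

theorem lam_le (n : ℕ) : lam n ≤ (n : ℝ) ^ 2 := by
  unfold lam
  split_ifs with h
  · positivity
  · linarith

theorem lam_one : lam 1 = 0 := by simp [lam]

variable {q M : ℝ}

theorem wa_nonneg (hq : 1 ≤ q) (n : ℕ) : 0 ≤ wa q n := by
  have : 0 ≤ q := by linarith
  unfold wa; positivity
theorem wa2_nonneg (hq : 1 ≤ q) (n : ℕ) : 0 ≤ wa2 q n := by
  have : 0 ≤ q := by linarith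
  unfold wa2; positivity
theorem wb_nonneg (hq : 1 ≤ q) (hM : 0 ≤ M) (n : ℕ) : 0 ≤ wb q M n := by
  have : 0 ≤ q := by linarith
  unfold wb; positivity
theorem wb2_nonneg (hq : 1 ≤ q) (hM : 0 ≤ M) (n : ℕ) : 0 ≤ wb2 q M n :=
  mul_nonneg (by positivity) (wb_nonneg hq hM n)
theorem wa_le_wb (hq : 1 ≤ q) (hM : 0 ≤ M) (n : ℕ) : wa q n ≤ wb q M n := by
  have : 0 ≤ q := by linarith
  unfold wa wb
  apply mul_le_mul_of_nonneg_right _ (by positivity)
  linarith
theorem wa2_le_wb2 (hq : 1 ≤ q) (hM : 0 ≤ M) (n : ℕ) : wa2 q n ≤ wb2 q M n := by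
  have h := wa_le_wb hq hM n
  unfold wa2 wb2
  calc (n : ℝ) ^ 3 * q ^ n = (n : ℝ) ^ 2 * wa q n := by unfold wa; ring
    _ ≤ _ := mul_le_mul_of_nonneg_left h (by positivity)

theorem sum_idx (D m : ℕ) (M : ℝ) :
    ∑ i ∈ range m, (((D + 1 + 2 * i : ℕ) : ℝ) + M) = (m : ℝ) * (D + m) + M * m := by
  induction m with
  | zero => simp
  | succ m ih => rw [Finset.sum_range_succ, ih]; push_cast; ring

theorem m_mul (J K : ℕ) :
    (((min J K : ℕ) : ℝ)) * ((dd J K : ℝ) + ((min J K : ℕ) : ℝ)) = (J : ℝ) * K := by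
  rcases le_total J K with h | h
  · rw [min_eq_left h, dd_eq h, Nat.cast_sub h]; ring
  · rw [min_eq_right h, dd_comm, dd_eq h, Nat.cast_sub h]; ring

theorem kw_km_le (hq : 1 ≤ q) (hM : 0 ≤ M) (J K : ℕ) :
    kw (wb q M) km J K ≤ q ^ (J + K) * ((J : ℝ) * K + M * ((min J K : ℕ) : ℝ)) := by
  have hq0 : 0 ≤ q := by linarith
  unfold kw km
  refine (ds_kw _ _ _ (fun i hi => by have := idx1_lt hi; omega) (wb_nonneg hq hM)).trans ?_
  calc ∑ i ∈ range (min J K), wb q M (dd J K + 1 + 2 * i) * |(1:ℝ)|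
      ≤ ∑ i ∈ range (min J K), q ^ (J + K) * (((dd J K + 1 + 2 * i : ℕ) : ℝ) + M) := by
        refine Finset.sum_le_sum fun i hi => ?_
        rw [Finset.mem_range] at hi
        have h := idx1_lt hi
        unfold wb
        rw [abs_one, mul_one, mul_comm]
        exact mul_le_mul_of_nonneg_right (pow_le_pow_right₀ hq (by omega)) (by positivity)
    _ = _ := by rw [← Finset.mul_sum, sum_idx, m_mul]

theorem min_le_J (J K : ℕ) : ((min J K : ℕ) : ℝ) ≤ J := by exact_mod_cast min_le_left _ _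
theorem min_le_K (J K : ℕ) : ((min J K : ℕ) : ℝ) ≤ K := by exact_mod_cast min_le_right _ _

theorem kw_km_ab (hq : 1 ≤ q) (hM : 0 ≤ M) (J K : ℕ) :
    kw (wb q M) km J K ≤ wa q J * wb q M K := by
  have hq0 : 0 ≤ q := by linarith
  refine (kw_km_le hq hM J K).trans ?_
  unfold wa wb
  have h := min_le_J J K
  calc q ^ (J + K) * ((J : ℝ) * K + M * ((min J K : ℕ) : ℝ))
      ≤ q ^ (J + K) * ((J : ℝ) * K + M * J) := by gcongr
    _ = _ := by rw [pow_add]; ring

theorem kw_km_ba (hq : 1 ≤ q) (hM : 0 ≤ M) (J K : ℕ) :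
    kw (wb q M) km J K ≤ wb q M J * wa q K := by
  have hq0 : 0 ≤ q := by linarith
  refine (kw_km_le hq hM J K).trans ?_
  unfold wa wb
  have h := min_le_K J K
  calc q ^ (J + K) * ((J : ℝ) * K + M * ((min J K : ℕ) : ℝ))
      ≤ q ^ (J + K) * ((J : ℝ) * K + M * K) := by gcongr
    _ = _ := by rw [pow_add]; ring

theorem wb_zero : wb q 0 = wa q := by
  funext n; unfold wb wa; simp

theorem kw_km_aa (hq : 1 ≤ q) (J K : ℕ) : kw (wa q) km J K ≤ wa q J * wa q K := by
  have h := kw_km_ab hq (le_refl (0:ℝ)) J K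
  rwa [wb_zero] at h

theorem kw_km_lam (hq : 1 ≤ q) (hM : 0 ≤ M) (J K : ℕ) :
    kw (fun n => wb q M n * |lam n|) km J K ≤
      2 * (wb q M J * lam J) * wa q K + 2 * wa q J * (wb q M K * lam K) := by
  have hq0 : 0 ≤ q := by linarith
  rcases Nat.eq_zero_or_pos J with h0 | hJ
  · subst h0
    have : kw (fun n => wb q M n * |lam n|) km 0 K = 0 := by
      unfold kw km ds; simp
    rw [this]
    have := wa_nonneg hq K
    have := wb_nonneg hq hM K
    have := lam_nonneg K
    simp [lam, wa]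
  rcases Nat.eq_zero_or_pos K with h0 | hK
  · subst h0
    have : kw (fun n => wb q M n * |lam n|) km J 0 = 0 := by
      unfold kw km ds; simp
    rw [this]
    simp [lam, wa]
  have hJ1 : (1:ℝ) ≤ J := by exact_mod_cast hJ
  have hK1 : (1:ℝ) ≤ K := by exact_mod_cast hK
  have lJ : lam J = (J:ℝ) ^ 2 - 1 := if_neg (by omega)
  have lK : lam K = (K:ℝ) ^ 2 - 1 := if_neg (by omega)
  have h1 : kw (fun n => wb q M n * |lam n|) km J K ≤ (2 * lam J + 2 * lam K) * kw (wb q M) km J K := by
    unfold kw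
    rw [Finset.mul_sum]
    refine Finset.sum_le_sum fun n hn => ?_
    by_cases hn2 : J + K ≤ n
    · rw [km_supp hn2]; simp
    · have h3 : |lam n| ≤ 2 * lam J + 2 * lam K := by
        rw [abs_of_nonneg (lam_nonneg n), lJ, lK]
        rcases Nat.eq_zero_or_pos n with h0 | hn0
        · subst h0
          simp [lam]
          nlinarith
        · have ln : lam n = (n:ℝ) ^ 2 - 1 := if_neg (by omega)
          rw [ln]
          have h4 : (n:ℝ) ≤ (J:ℝ) + K - 1 := by
            have : n + 1 ≤ J + K := by omega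
            have : ((n + 1 : ℕ) : ℝ) ≤ ((J + K : ℕ) : ℝ) := by exact_mod_cast this
            push_cast at this; linarith
          have h5 : (0:ℝ) ≤ n := Nat.cast_nonneg _
          nlinarith [sq_nonneg ((J:ℝ) - K)]
      have h6 := wb_nonneg hq hM n
      calc wb q M n * |lam n| * |km J K n| = |lam n| * (wb q M n * |km J K n|) := by ring
        _ ≤ _ := mul_le_mul_of_nonneg_right h3 (mul_nonneg h6 (abs_nonneg _))
  have e1 := kw_km_ab hq hM J K
  have e2 := kw_km_ba hq hM J K
  have l1 := lam_nonneg J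
  have l2 := lam_nonneg K
  nlinarith [mul_le_mul_of_nonneg_left e2 l1, mul_le_mul_of_nonneg_left e1 l2]

theorem kw_kg_le (hq : 1 ≤ q) (hM : 0 ≤ M) (Q L : ℕ) :
    kw (wb q M) kg Q L ≤ 3 * L * (Q + L + M) * q ^ (Q + L) := by
  have hq0 : 0 ≤ q := by linarith
  rcases Nat.eq_zero_or_pos L with h0 | hL
  · subst h0
    unfold kw kg
    simp
  have hL1 : (1:ℝ) ≤ L := by exact_mod_cast hL
  have hLne : L ≠ 0 := by omega
  have hQ : (0:ℝ) ≤ Q := Nat.cast_nonneg _
  -- termwise bound
  have h1 : ∀ n, |kg Q L n| ≤ (L:ℝ) / 2 * (if n = Q + L then 1 else 0) +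
      (L:ℝ) / 2 * ((if n + L = Q then 1 else 0) + (if n + Q = L ∧ n ≠ 0 then 1 else 0)) + |km Q (L + 1) n| +
        |km Q (L - 1) n| := by
    intro n
    unfold kg
    rw [if_neg hLne]
    refine (abs_add_le _ _).trans (add_le_add_left ((abs_add_le _ _).trans (add_le_add_left ?_ _)) _)
    rw [abs_mul, abs_neg, abs_of_nonneg (by positivity : (0:ℝ) ≤ (L:ℝ) / 2), ← mul_add]
    apply mul_le_mul_of_nonneg_left _ (by positivity)
    split_ifs <;> first | (simp; done) | (norm_num; done) | (exfalso; omega)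
  have h2 : kw (wb q M) kg Q L ≤ (L:ℝ) / 2 * wb q M (Q + L) + (L:ℝ) / 2 * (((Q:ℝ) + L + M) * q ^ (Q + L)) +
      q ^ (Q + L) * ((Q:ℝ) * (L + 1) + M * ((min Q (L + 1) : ℕ) : ℝ)) +
      q ^ (Q + L) * ((Q:ℝ) * (L - 1) + M * ((min Q (L - 1) : ℕ) : ℝ)) := by
    unfold kw
    calc ∑ n ∈ range (Q + L + 1), wb q M n * |kg Q L n|
        ≤ ∑ n ∈ range (Q + L + 1), ((L:ℝ) / 2 * (wb q M n * (if n = Q + L then 1 else 0)) +
          (L:ℝ) / 2 * (wb q M n * ((if n + L = Q then 1 else 0) + (if n + Q = L ∧ n ≠ 0 then 1 else 0))) +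
            wb q M n * |km Q (L + 1) n| + wb q M n * |km Q (L - 1) n|) := by
          refine Finset.sum_le_sum fun n _ => ?_
          have := mul_le_mul_of_nonneg_left (h1 n) (wb_nonneg hq hM n)
          refine this.trans (le_of_eq ?_)
          ring
      _ = (L:ℝ) / 2 * ∑ n ∈ range (Q + L + 1), (wb q M n * (if n = Q + L then 1 else 0)) +
          (L:ℝ) / 2 * ∑ n ∈ range (Q + L + 1), (wb q M n * ((if n + L = Q then 1 else 0) +
            (if n + Q = L ∧ n ≠ 0 then 1 else 0))) +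
          ∑ n ∈ range (Q + L + 1), wb q M n * |km Q (L + 1) n| +
          ∑ n ∈ range (Q + L + 1), wb q M n * |km Q (L - 1) n| := by
          rw [Finset.sum_add_distrib, Finset.sum_add_distrib, Finset.sum_add_distrib,
            ← Finset.mul_sum, ← Finset.mul_sum]
      _ ≤ _ := by
          refine add_le_add (add_le_add (add_le_add ?_ ?_) ?_) ?_
          · apply mul_le_mul_of_nonneg_left _ (by positivity)
            rw [Finset.sum_eq_single (Q + L)]
            · simp
            · intro n _ hn; simp [hn]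
            · intro h; exact absurd (Finset.mem_range.2 (by omega)) h
          · apply mul_le_mul_of_nonneg_left _ (by positivity)
            have hw : ∀ n, n ≤ Q + L → wb q M n ≤ ((Q:ℝ) + L + M) * q ^ (Q + L) := by
              intro n hn
              unfold wb
              have : (n:ℝ) ≤ (Q:ℝ) + L := by exact_mod_cast hn
              apply mul_le_mul (by linarith) (pow_le_pow_right₀ hq hn) (by positivity) (by positivity)
            rcases le_total L Q with h | h
            · rw [Finset.sum_eq_single (Q - L)]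
              · rw [if_pos (by omega), if_neg (by omega)]
                simpa using hw (Q - L) (by omega)
              · intro n _ hn
                rw [if_neg (by omega), if_neg (by omega)]; simp
              · intro h; exact absurd (Finset.mem_range.2 (by omega)) h
            · rcases Nat.lt_or_ge Q L with h' | h'
              · rw [Finset.sum_eq_single (L - Q)]
                · rw [if_neg (by omega), if_pos (by omega)]
                  simpa using hw (L - Q) (by omega)
                · intro n _ hn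
                  rw [if_neg (by omega), if_neg (by omega)]; simp
                · intro h; exact absurd (Finset.mem_range.2 (by omega)) h
              · rw [Finset.sum_eq_single (Q - L)]
                · rw [if_pos (by omega), if_neg (by omega)]
                  simpa using hw (Q - L) (by omega)
                · intro n _ hn
                  rw [if_neg (by omega), if_neg (by omega)]; simp
                · intro h; exact absurd (Finset.mem_range.2 (by omega)) h
          · unfold km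
            refine (ds_kw _ _ _ (fun i hi => by have := idx1_lt hi; omega) (wb_nonneg hq hM)).trans ?_
            have e := m_mul Q (L + 1)
            push_cast at e
            have e2 := sum_idx (dd Q (L + 1)) (min Q (L + 1)) M
            push_cast at e2
            calc ∑ i ∈ range (min Q (L + 1)), wb q M (dd Q (L + 1) + 1 + 2 * i) * |(1:ℝ)|
                ≤ ∑ i ∈ range (min Q (L + 1)), q ^ (Q + L) *
                    (((dd Q (L + 1) + 1 + 2 * i : ℕ) : ℝ) + M) := by
                  refine Finset.sum_le_sum fun i hi => ?_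
                  rw [Finset.mem_range] at hi
                  have h := idx1_lt hi
                  unfold wb
                  rw [abs_one, mul_one, mul_comm]
                  exact mul_le_mul_of_nonneg_right (pow_le_pow_right₀ hq (by omega)) (by positivity)
              _ ≤ _ := by
                  rw [← Finset.mul_sum]
                  apply mul_le_mul_of_nonneg_left _ (by positivity)
                  push_cast
                  rw [e2, e]
          · unfold km
            refine (ds_kw _ _ _ (fun i hi => by have := idx1_lt hi; omega) (wb_nonneg hq hM)).trans ?_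
            have e := m_mul Q (L - 1)
            have eL : ((L - 1 : ℕ) : ℝ) = (L:ℝ) - 1 := by push_cast [Nat.cast_sub hL]; rfl
            rw [eL] at e
            have e2 := sum_idx (dd Q (L - 1)) (min Q (L - 1)) M
            calc ∑ i ∈ range (min Q (L - 1)), wb q M (dd Q (L - 1) + 1 + 2 * i) * |(1:ℝ)|
                ≤ ∑ i ∈ range (min Q (L - 1)), q ^ (Q + L) *
                    (((dd Q (L - 1) + 1 + 2 * i : ℕ) : ℝ) + M) := by
                  refine Finset.sum_le_sum fun i hi => ?_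
                  rw [Finset.mem_range] at hi
                  have h := idx1_lt hi
                  unfold wb
                  rw [abs_one, mul_one, mul_comm]
                  exact mul_le_mul_of_nonneg_right (pow_le_pow_right₀ hq (by omega)) (by positivity)
              _ ≤ _ := by
                  rw [← Finset.mul_sum]
                  apply mul_le_mul_of_nonneg_left _ (by positivity)
                  rw [e2, e]
  have h3 : ((min Q (L + 1) : ℕ) : ℝ) ≤ L + 1 := by
    have := min_le_K Q (L + 1); push_cast at this ⊢; exact this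
  have h4 : ((min Q (L - 1) : ℕ) : ℝ) ≤ L - 1 := by
    have := min_le_K Q (L - 1)
    have eL : ((L - 1 : ℕ) : ℝ) = (L:ℝ) - 1 := by push_cast [Nat.cast_sub hL]; rfl
    rwa [eL] at this
  refine h2.trans ?_
  have hp : 0 ≤ q ^ (Q + L) := by positivity
  unfold wb
  push_cast
  have h5 : M * ((min Q (L + 1) : ℕ) : ℝ) ≤ M * (L + 1) := mul_le_mul_of_nonneg_left h3 hM
  have h6 : M * ((min Q (L - 1) : ℕ) : ℝ) ≤ M * (L - 1) := mul_le_mul_of_nonneg_left h4 hM
  have h7 : (L:ℝ) / 2 * ((Q:ℝ) + L + M) + (L:ℝ) / 2 * ((Q:ℝ) + L + M) +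
      ((Q:ℝ) * (L + 1) + M * ((min Q (L + 1) : ℕ) : ℝ)) + ((Q:ℝ) * (L - 1) + M * ((min Q (L - 1) : ℕ) : ℝ))
      ≤ 3 * L * (Q + L + M) := by nlinarith
  calc _ = ((L:ℝ) / 2 * ((Q:ℝ) + L + M) + (L:ℝ) / 2 * ((Q:ℝ) + L + M) +
      ((Q:ℝ) * (L + 1) + M * ((min Q (L + 1) : ℕ) : ℝ)) +
      ((Q:ℝ) * (L - 1) + M * ((min Q (L - 1) : ℕ) : ℝ))) * q ^ (Q + L) := by push_cast; ring
    _ ≤ _ := mul_le_mul_of_nonneg_right h7 hp

/-- the trilinear kernel bound -/
theorem k4_le (hq : 1 ≤ q) (hM : 0 ≤ M) (J K L : ℕ) :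
    ∑ Q ∈ range (J + K + 1), |ki J K Q| * kw (wb q M) kg Q L ≤
      4 * (wa2 q J * wb q M K * wa q L) + 2 * (wb q M J * wa2 q K * wa q L) +
        2 * (wa q J * wb q M K * (wa q L * lam L)) := by
  have hq0 : 0 ≤ q := by linarith
  have hJ : (0:ℝ) ≤ J := Nat.cast_nonneg _
  have hK : (0:ℝ) ≤ K := Nat.cast_nonneg _
  have hL : (0:ℝ) ≤ L := Nat.cast_nonneg _
  set m : ℝ := ((min J K : ℕ) : ℝ) with hm
  have hm0 : 0 ≤ m := Nat.cast_nonneg _
  have hmJ : m ≤ J := min_le_J J K
  have hmK : m ≤ K := min_le_K J K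
  have h1 : ∑ Q ∈ range (J + K + 1), |ki J K Q| * kw (wb q M) kg Q L ≤
      q ^ (J + K + L) * (2 * L * m ^ 3 * (J + K + L + M)) := by
    calc ∑ Q ∈ range (J + K + 1), |ki J K Q| * kw (wb q M) kg Q L
        ≤ ∑ Q ∈ range (J + K + 1), (3 * L * ((Q:ℝ) + L + M) * q ^ (Q + L)) * |ki J K Q| := by
          refine Finset.sum_le_sum fun Q _ => ?_
          rw [mul_comm]
          exact mul_le_mul_of_nonneg_right (kw_kg_le hq hM Q L) (abs_nonneg _)
      _ ≤ ∑ i ∈ range (min J K), (3 * L * (((dd J K + 2 + 2 * i : ℕ):ℝ) + L + M) *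
            q ^ ((dd J K + 2 + 2 * i) + L)) * |ic J K (dd J K + 2 + 2 * i)| := by
          unfold ki
          exact ds_kw _ _ _ (fun i hi => by have := idx2_le hi; omega)
            (w := fun Q : ℕ => 3 * L * ((Q:ℝ) + L + M) * q ^ (Q + L)) (fun n => by positivity)
      _ ≤ ∑ i ∈ range (min J K), (3 * L * (J + K + L + M) * q ^ (J + K + L)) * (2 / 3 * m ^ 2) := by
          refine Finset.sum_le_sum fun i hi => ?_
          rw [Finset.mem_range] at hi
          have h := idx2_le hi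
          have h' : ((dd J K + 2 + 2 * i : ℕ):ℝ) ≤ (J:ℝ) + K := by exact_mod_cast h
          rw [abs_of_nonneg (ic_nonneg hi)]
          apply mul_le_mul _ (ic_le hi) (ic_nonneg hi) (by positivity)
          apply mul_le_mul _ (pow_le_pow_right₀ hq (by omega)) (by positivity) (by positivity)
          apply mul_le_mul_of_nonneg_left _ (by positivity)
          linarith
      _ = _ := by
          rw [Finset.sum_const, Finset.card_range, nsmul_eq_mul, ← hm]; ring
  refine h1.trans ?_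
  have hp : 0 ≤ q ^ (J + K + L) := by positivity
  have h3 : m ^ 3 * (J + K + M) ≤ (J:ℝ) ^ 3 * (K + M) + (K:ℝ) ^ 3 * (J + M) := by
    have a1 : m ^ 3 ≤ (J:ℝ) ^ 3 := pow_le_pow_left₀ hm0 hmJ 3
    have a2 : m ^ 3 ≤ (K:ℝ) ^ 3 := pow_le_pow_left₀ hm0 hmK 3
    have a3 : 0 ≤ (K:ℝ) ^ 3 * M := by positivity
    nlinarith [mul_le_mul_of_nonneg_right a1 (by positivity : 0 ≤ (K:ℝ) + M),
      mul_le_mul_of_nonneg_right a2 hJ]
  have h4 : m ^ 3 * (L:ℝ) ^ 2 ≤ (J:ℝ) ^ 3 * K * L + J * K * L * lam L := by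
    rcases Nat.eq_zero_or_pos L with h0 | hL0
    · subst h0; simp [lam]
    have hL1 : (1:ℝ) ≤ L := by exact_mod_cast hL0
    have hlam : lam L = (L:ℝ) ^ 2 - 1 := if_neg (by omega)
    rw [hlam]
    by_cases hm1 : m = 0
    · rw [hm1]
      have : 0 ≤ (L:ℝ) ^ 2 - 1 := by nlinarith
      have : 0 ≤ (J:ℝ) * K * L * ((L:ℝ) ^ 2 - 1) := by positivity
      have : 0 ≤ (J:ℝ) ^ 3 * K * L := by positivity
      simp; linarith
    have hm1' : 1 ≤ m := by
      have : min J K ≠ 0 := fun h => hm1 (by rw [hm, h]; simp)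
      have : 1 ≤ min J K := Nat.one_le_iff_ne_zero.2 this
      rw [hm]; exact_mod_cast this
    -- m³ L² ≤ m² L (m² + L² - 1) ≤ ...
    have b1 : m * L ≤ m ^ 2 + ((L:ℝ) ^ 2 - 1) := by nlinarith [sq_nonneg (m - L)]
    have b2 : m ^ 3 * (L:ℝ) ^ 2 = m ^ 2 * L * (m * L) := by ring
    have b3 : m ^ 2 * L * (m * L) ≤ m ^ 2 * L * (m ^ 2 + ((L:ℝ) ^ 2 - 1)) :=
      mul_le_mul_of_nonneg_left b1 (by positivity)
    have b4 : m ^ 2 ≤ (J:ℝ) * K := by nlinarith
    have b5 : m ^ 2 * m ^ 2 ≤ (J:ℝ) ^ 3 * K := by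
      have : m ^ 2 ≤ (J:ℝ) ^ 2 := pow_le_pow_left₀ hm0 hmJ 2
      nlinarith [mul_le_mul b4 this (by positivity) (by positivity)]
    have b6 : 0 ≤ (L:ℝ) ^ 2 - 1 := by nlinarith
    calc m ^ 3 * (L:ℝ) ^ 2 ≤ m ^ 2 * L * (m ^ 2 + ((L:ℝ) ^ 2 - 1)) := by rw [b2]; exact b3
      _ = (m ^ 2 * m ^ 2) * L + m ^ 2 * (L * ((L:ℝ) ^ 2 - 1)) := by ring
      _ ≤ ((J:ℝ) ^ 3 * K) * L + (J * K) * (L * ((L:ℝ) ^ 2 - 1)) := by gcongr
      _ = _ := by ring
  have h5 : 2 * L * m ^ 3 * (J + K + L + M) ≤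
      4 * ((J:ℝ) ^ 3 * (K + M) * L) + 2 * ((J + M) * (K:ℝ) ^ 3 * L) +
        2 * (J * (K + M) * (L * lam L)) := by
    have c1 := mul_le_mul_of_nonneg_left h3 (by positivity : (0:ℝ) ≤ 2 * L)
    have c2 : 2 * L * m ^ 3 * L ≤ 2 * ((J:ℝ) ^ 3 * K * L + J * K * L * lam L) := by nlinarith
    have c3 : 0 ≤ (J:ℝ) ^ 3 * M * L := by positivity
    have c4 : 0 ≤ J * M * L * lam L := by have := lam_nonneg L; positivity
    nlinarith
  calc q ^ (J + K + L) * (2 * L * m ^ 3 * (J + K + L + M))
      ≤ q ^ (J + K + L) * (4 * ((J:ℝ) ^ 3 * (K + M) * L) + 2 * ((J + M) * (K:ℝ) ^ 3 * L) +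
        2 * (J * (K + M) * (L * lam L))) := mul_le_mul_of_nonneg_left h5 hp
    _ = _ := by unfold wa wa2 wb; rw [pow_add, pow_add]; ring

end

end Pool.Agent.N535
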