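import Mathlib
import Pool.Agent.N535.Tim

set_option autoImplicit false
set_option linter.all false
open Finset MeasureTheory Set
open scoped ENNReal

namespace Pool.Agent.N535

open Pool.Agent.H858R2 (CI ev evH abs_ev_le norm_evH_le continuous_ev ev_one ev_zero ev_of ev_add ev_sub
  ev_neg ev_smul ev_mul)
open Pool.Agent.H858R2.Duh83 (dF cont_int cont_dF hasDeriv_dF DL ev_DL)

noncomputable section

theorem ev_of' (f : ℝ → ℝ) (hf : Continuous f) {t : ℝ} (ht : t ∈ Icc (0:ℝ) 1) :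
    ev (CI.of f hf) t = f t := ev_of f hf ht

/-- absolute value -/
def absC (f : CI) : CI := CI.of (fun t => |ev f t|) (continuous_ev f).abs

theorem ev_absC (f : CI) {t : ℝ} (ht : t ∈ Icc (0:ℝ) 1) : ev (absC f) t = |ev f t| := ev_of' _ _ ht

theorem I1_ge (f : CI) {t : ℝ} (h0 : 0 ≤ t) (h1 : t ≤ 1) : ∫ s in (0:ℝ)..t, |ev f s| ≤ I1 f := by
  unfold I1
  apply intervalIntegral.integral_mono_interval le_rfl h0 h1
  · exact Filter.Eventually.of_forall fun s => abs_nonneg _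
  · exact (continuous_ev f).abs.intervalIntegrable _ _

theorem dF_abs (ω : ℝ) (f : CI) {t : ℝ} (ht : t ∈ Icc (0:ℝ) 1) :
    |dF ω f t| ≤ dF ω (absC f) t := by
  unfold dF
  rw [abs_mul, abs_of_pos (Real.exp_pos _)]
  apply mul_le_mul_of_nonneg_left _ (Real.exp_pos _).le
  refine (intervalIntegral.abs_integral_le_integral_abs ht.1).trans ?_
  apply le_of_eq
  apply intervalIntegral.integral_congr
  intro s hs
  rw [uIcc_of_le ht.1] at hs
  simp only
  rw [abs_mul, abs_of_pos (Real.exp_pos _), ev_absC f ⟨hs.1, hs.2.trans ht.2⟩]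

theorem dF_absC_nonneg (ω : ℝ) (f : CI) {t : ℝ} (ht : t ∈ Icc (0:ℝ) 1) : 0 ≤ dF ω (absC f) t :=
  (abs_nonneg _).trans (dF_abs ω f ht)

/-- integrated equation -/
theorem dF_int (ω : ℝ) (f : CI) {t : ℝ} (ht : t ∈ Icc (0:ℝ) 1) :
    dF ω (absC f) t + ω * ∫ s in (0:ℝ)..t, dF ω (absC f) s = ∫ s in (0:ℝ)..t, |ev f s| := by
  have h1 : ∫ s in (0:ℝ)..t, (-ω * dF ω (absC f) s + ev (absC f) s) = dF ω (absC f) t - dF ω (absC f) 0 := by
    apply intervalIntegral.integral_eq_sub_of_hasDerivAt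
    · intro s _
      exact hasDeriv_dF ω (absC f) s
    · exact ((continuous_const.mul (cont_dF ω _)).add (continuous_ev _)).intervalIntegrable _ _
  have h2 : dF ω (absC f) 0 = 0 := by simp [dF]
  have hc1 : Continuous fun s => -ω * dF ω (absC f) s := continuous_const.mul (cont_dF ω _)
  rw [intervalIntegral.integral_add
    (hc1.intervalIntegrable _ _)
    ((continuous_ev _).intervalIntegrable _ _), intervalIntegral.integral_const_mul, h2] at h1
  have h3 : ∫ s in (0:ℝ)..t, ev (absC f) s = ∫ s in (0:ℝ)..t, |ev f s| := by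
    apply intervalIntegral.integral_congr
    intro s hs
    rw [uIcc_of_le ht.1] at hs
    exact ev_absC f ⟨hs.1, hs.2.trans ht.2⟩
  rw [h3] at h1
  linarith

theorem int_dF_nonneg (ω : ℝ) (f : CI) {t : ℝ} (ht : t ∈ Icc (0:ℝ) 1) :
    0 ≤ ∫ s in (0:ℝ)..t, dF ω (absC f) s :=
  intervalIntegral.integral_nonneg ht.1 fun s hs => dF_absC_nonneg ω f ⟨hs.1, hs.2.trans ht.2⟩

theorem DL_norm_le {ω : ℝ} (hω : 0 ≤ ω) (f : CI) : ‖DL ω f‖ ≤ I1 f := by
  refine CI.norm_le (I1_nonneg f) fun t ht => ?_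
  rw [ev_DL ω f t ht]
  refine (dF_abs ω f ht).trans ?_
  have h1 := dF_int ω f ht
  have h2 := int_dF_nonneg ω f ht
  have h3 := I1_ge f ht.1 ht.2
  nlinarith [mul_nonneg hω h2]

theorem DL_I1_le {ω : ℝ} (hω : 0 ≤ ω) (f : CI) : ω * I1 (DL ω f) ≤ I1 f := by
  have h1 : (1:ℝ) ∈ Icc (0:ℝ) 1 := ⟨zero_le_one, le_rfl⟩
  have h2 := dF_int ω f h1
  have h3 := dF_absC_nonneg ω f h1
  have h4 : I1 (DL ω f) ≤ ∫ s in (0:ℝ)..1, dF ω (absC f) s := by
    unfold I1
    apply intervalIntegral.integral_mono_on zero_le_one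
    · exact (continuous_ev _).abs.intervalIntegrable _ _
    · exact (cont_dF ω _).intervalIntegrable _ _
    · intro s hs
      rw [ev_DL ω f s hs]
      exact dF_abs ω f hs
  have h5 : ∫ s in (0:ℝ)..1, |ev f s| = I1 f := rfl
  nlinarith [mul_le_mul_of_nonneg_left h4 hω]

theorem DL_deriv (ω : ℝ) (f : CI) {t : ℝ} (ht : t ∈ Ioo (0:ℝ) 1) :
    HasDerivAt (ev (DL ω f)) (-ω * ev (DL ω f) t + ev f t) t := by
  rw [ev_DL ω f t ⟨ht.1.le, ht.2.le⟩]
  refine (hasDeriv_dF ω f t).congr_of_eventuallyEq ?_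
  filter_upwards [isOpen_Ioo.mem_nhds ht] with τ hτ
  exact ev_DL ω f τ ⟨hτ.1.le, hτ.2.le⟩

theorem DL_zero (ω : ℝ) (f : CI) : ev (DL ω f) 0 = 0 := by
  rw [ev_DL ω f 0 (by simp)]
  simp [dF]

/-- reflection of time -/
def refl (f : CI) : CI := CI.of (fun t => ev f (1 - t)) ((continuous_ev f).comp (by fun_prop))

theorem ev_refl (f : CI) {t : ℝ} (ht : t ∈ Icc (0:ℝ) 1) : ev (refl f) t = ev f (1 - t) := ev_of' _ _ ht

theorem refl_sub (f g : CI) : refl (f - g) = refl f - refl g := by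
  apply CI.ext_ev
  intro t ht
  rw [ev_sub, ev_refl _ ht, ev_refl _ ht, ev_refl _ ht, ev_sub]

theorem I1_refl (f : CI) : I1 (refl f) = I1 f := by
  unfold I1
  have h1 : ∫ s in (0:ℝ)..1, |ev (refl f) s| = ∫ s in (0:ℝ)..1, |ev f (1 - s)| := by
    apply intervalIntegral.integral_congr
    intro s hs
    rw [Set.uIcc_of_le zero_le_one] at hs
    simp only
    rw [ev_refl f hs]
  rw [h1, intervalIntegral.integral_comp_sub_left (fun s => |ev f s|) 1]
  simp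

theorem norm_refl_le (f : CI) : ‖refl f‖ ≤ ‖f‖ := by
  refine CI.norm_le (norm_nonneg _) fun t ht => ?_
  rw [ev_refl f ht]
  exact abs_ev_le _ _

theorem I1_neg (f : CI) : I1 (-f) = I1 f := by unfold I1; simp
theorem I1_smul (c : ℝ) (f : CI) : I1 (c • f) = |c| * I1 f := by
  unfold I1
  simp only [ev_smul, abs_mul]
  rw [intervalIntegral.integral_const_mul]
theorem I1_add_le (f g : CI) : I1 (f + g) ≤ I1 f + I1 g := by
  unfold I1
  rw [← intervalIntegral.integral_add ((continuous_ev f).abs.intervalIntegrable _ _)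
    ((continuous_ev g).abs.intervalIntegrable _ _)]
  apply intervalIntegral.integral_mono_on zero_le_one
  · exact (continuous_ev _).abs.intervalIntegrable _ _
  · exact ((continuous_ev f).abs.add (continuous_ev g).abs).intervalIntegrable _ _
  · intro s _
    rw [ev_add]
    exact abs_add_le _ _

/-- the rate `5 - n²` -/
def mu (n : ℕ) : ℝ := (n : ℝ) ^ 2 - 5

/-- the Duhamel operators: forward for `n ≥ 3`, backward for `n = 1, 2` -/
def Dop (Θ : ℝ) (n : ℕ) (f : CI) : CI :=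
  if n = 0 then 0 else if n < 3 then -(Θ • refl (DL (Θ * -mu n) (refl f))) else Θ • DL (Θ * mu n) f

theorem mu_pos {n : ℕ} (hn : 3 ≤ n) : (4 / 9) * (n:ℝ) ^ 2 ≤ mu n := by
  have : (3:ℝ) ≤ n := by exact_mod_cast hn
  unfold mu
  nlinarith

theorem Dop_sub (Θ : ℝ) (n : ℕ) (f g : CI) : Dop Θ n (f - g) = Dop Θ n f - Dop Θ n g := by
  unfold Dop
  split_ifs
  · simp
  · rw [refl_sub, map_sub, refl_sub, smul_sub]; abel
  · rw [map_sub, smul_sub]

theorem low_cases {n : ℕ} (h0 : n ≠ 0) (h : n < 3) : n = 1 ∨ n = 2 := by omega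

theorem neg_mu_ge {n : ℕ} (h0 : n ≠ 0) (h : n < 3) : (n:ℝ) ^ 2 ≤ 4 * -mu n ∧ 0 < -mu n := by
  rcases low_cases h0 h with rfl | rfl <;> unfold mu <;> norm_num

theorem Dop_norm {Θ : ℝ} (hΘ : 0 ≤ Θ) (n : ℕ) (f : CI) : ‖Dop Θ n f‖ ≤ Θ * I1 f := by
  unfold Dop
  split_ifs with h0 h
  · simp; exact mul_nonneg hΘ (I1_nonneg f)
  · rw [norm_neg, norm_smul, Real.norm_of_nonneg hΘ]
    apply mul_le_mul_of_nonneg_left _ hΘ
    have h2 := (neg_mu_ge h0 h).2
    calc _ ≤ ‖DL (Θ * -mu n) (refl f)‖ := norm_refl_le _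
      _ ≤ I1 (refl f) := DL_norm_le (by positivity) _
      _ = _ := I1_refl f
  · rw [norm_smul, Real.norm_of_nonneg hΘ]
    have := mu_pos (n := n) (by omega)
    have : 0 ≤ mu n := le_trans (by positivity) this
    exact mul_le_mul_of_nonneg_left (DL_norm_le (by positivity) _) hΘ

theorem Dop_I1 {Θ : ℝ} (hΘ : 0 ≤ Θ) (n : ℕ) (f : CI) :
    (n:ℝ) ^ 2 * (Θ * I1 (Dop Θ n f)) ≤ 4 * (Θ * I1 f) := by
  have hI := I1_nonneg f
  unfold Dop
  split_ifs with h0 h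
  · subst h0; simp; positivity
  · obtain ⟨h1, h2⟩ := neg_mu_ge h0 h
    rw [I1_neg, I1_smul, abs_of_nonneg hΘ, I1_refl]
    have h3 := DL_I1_le (ω := Θ * -mu n) (by positivity) (refl f)
    rw [I1_refl] at h3
    have h4 := I1_nonneg (DL (Θ * -mu n) (refl f))
    calc (n:ℝ) ^ 2 * (Θ * (Θ * I1 (DL (Θ * -mu n) (refl f))))
        ≤ (4 * -mu n) * (Θ * (Θ * I1 (DL (Θ * -mu n) (refl f)))) :=
          mul_le_mul_of_nonneg_right h1 (by positivity)
      _ = 4 * (Θ * (Θ * -mu n * I1 (DL (Θ * -mu n) (refl f)))) := by ring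
      _ ≤ _ := by gcongr
  · have h1 := mu_pos (n := n) (by omega)
    have h2 : 0 ≤ mu n := le_trans (by positivity) h1
    rw [I1_smul, abs_of_nonneg hΘ]
    have h3 := DL_I1_le (ω := Θ * mu n) (by positivity) f
    have h4 := I1_nonneg (DL (Θ * mu n) f)
    calc (n:ℝ) ^ 2 * (Θ * (Θ * I1 (DL (Θ * mu n) f)))
        ≤ (4 * mu n) * (Θ * (Θ * I1 (DL (Θ * mu n) f))) :=
          mul_le_mul_of_nonneg_right (by nlinarith) (by positivity)
      _ = 4 * (Θ * (Θ * mu n * I1 (DL (Θ * mu n) f))) := by ring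
      _ ≤ _ := by gcongr

theorem Dop_deriv (Θ : ℝ) {n : ℕ} (hn : n ≠ 0) (f : CI) {t : ℝ} (ht : t ∈ Ioo (0:ℝ) 1) :
    HasDerivAt (ev (Dop Θ n f)) (Θ * (-mu n * ev (Dop Θ n f) t + ev f t)) t := by
  unfold Dop
  rw [if_neg hn]
  split_ifs with h
  · have ht' : 1 - t ∈ Ioo (0:ℝ) 1 := ⟨by linarith [ht.2], by linarith [ht.1]⟩
    have h1 := DL_deriv (Θ * -mu n) (refl f) ht'
    have h2 : HasDerivAt (fun s : ℝ => 1 - s) (-1) t := by
      simpa using (hasDerivAt_id t).const_sub 1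
    have h3 : HasDerivAt (fun s => -(Θ * ev (DL (Θ * -mu n) (refl f)) (1 - s)))
        (-(Θ * ((-(Θ * -mu n) * ev (DL (Θ * -mu n) (refl f)) (1 - t) + ev (refl f) (1 - t)) * (-1)))) t :=
      ((HasDerivAt.comp t h1 h2).const_mul Θ).neg
    have hin : t ∈ Icc (0:ℝ) 1 := ⟨ht.1.le, ht.2.le⟩
    have e1 : ev (refl f) (1 - t) = ev f t := by
      rw [ev_refl f ⟨ht'.1.le, ht'.2.le⟩]
      congr 1; ring
    have e2 : ev (-(Θ • refl (DL (Θ * -mu n) (refl f)))) t =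
        -(Θ * ev (DL (Θ * -mu n) (refl f)) (1 - t)) := by
      rw [ev_neg, ev_smul, ev_refl _ hin]
    rw [e2]
    rw [e1] at h3
    refine (h3.congr_of_eventuallyEq ?_).congr_deriv ?_
    · filter_upwards [isOpen_Ioo.mem_nhds ht] with τ hτ
      rw [ev_neg, ev_smul, ev_refl _ ⟨hτ.1.le, hτ.2.le⟩]
    · ring
  · have h1 := (DL_deriv (Θ * mu n) f ht).const_mul Θ
    refine (h1.congr_of_eventuallyEq ?_).congr_deriv ?_
    · filter_upwards with τ
      rw [ev_smul]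
    · rw [ev_smul]; ring

theorem Dop_zero (Θ : ℝ) {n : ℕ} (hn : 3 ≤ n) (f : CI) : ev (Dop Θ n f) 0 = 0 := by
  unfold Dop
  rw [if_neg (by omega), if_neg (by omega), ev_smul, DL_zero, mul_zero]

/-! ### the linear part -/

/-- `e^{-Θ μ_n s} a_n` for `n ≥ 3` -/
def Lin (Θ : ℝ) (a : ℕ → ℝ) (n : ℕ) : CI :=
  if n < 3 then 0 else CI.of (fun s => Real.exp (-(Θ * mu n) * s) * a n) (by fun_prop)

theorem ev_Lin (Θ : ℝ) (a : ℕ → ℝ) {n : ℕ} (hn : 3 ≤ n) {t : ℝ} (ht : t ∈ Icc (0:ℝ) 1) :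
    ev (Lin Θ a n) t = Real.exp (-(Θ * mu n) * t) * a n := by
  unfold Lin
  rw [if_neg (by omega), ev_of' _ _ ht]

theorem Lin_zero (Θ : ℝ) (a : ℕ → ℝ) {n : ℕ} (hn : 3 ≤ n) : ev (Lin Θ a n) 0 = a n := by
  rw [ev_Lin Θ a hn (by simp)]; simp

theorem Lin_deriv (Θ : ℝ) (a : ℕ → ℝ) (n : ℕ) {t : ℝ} (ht : t ∈ Ioo (0:ℝ) 1) :
    HasDerivAt (ev (Lin Θ a n)) (Θ * (-mu n * ev (Lin Θ a n) t)) t := by
  by_cases hn : 3 ≤ n
  · have h1 : HasDerivAt (fun s : ℝ => Real.exp (-(Θ * mu n) * s) * a n)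
        (Real.exp (-(Θ * mu n) * t) * (-(Θ * mu n)) * a n) t := by
      have := (((hasDerivAt_id t).const_mul (-(Θ * mu n))).exp).mul_const (a n)
      simpa using this
    rw [ev_Lin Θ a hn ⟨ht.1.le, ht.2.le⟩]
    refine (h1.congr_of_eventuallyEq ?_).congr_deriv (by ring)
    filter_upwards [isOpen_Ioo.mem_nhds ht] with τ hτ
    exact ev_Lin Θ a hn ⟨hτ.1.le, hτ.2.le⟩
  · unfold Lin
    rw [if_pos (by omega)]
    have : ev (0 : CI) = fun _ => 0 := by funext s; exact ev_zero s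
    rw [this]
    simpa using hasDerivAt_const t (0:ℝ)

theorem Lin_norm {Θ : ℝ} (hΘ : 0 ≤ Θ) (a : ℕ → ℝ) (n : ℕ) : ‖Lin Θ a n‖ ≤ |a n| := by
  by_cases hn : 3 ≤ n
  · refine CI.norm_le (abs_nonneg _) fun t ht => ?_
    rw [ev_Lin Θ a hn ht, abs_mul, abs_of_pos (Real.exp_pos _)]
    have h1 := mu_pos hn
    have h2 : 0 ≤ mu n := le_trans (by positivity) h1
    have h3 : Real.exp (-(Θ * mu n) * t) ≤ 1 := by
      apply Real.exp_le_one_iff.2
      have : 0 ≤ Θ * mu n * t := mul_nonneg (mul_nonneg hΘ h2) ht.1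
      linarith
    exact mul_le_of_le_one_left (abs_nonneg _) h3
  · unfold Lin
    rw [if_pos (by omega)]
    simp

theorem Lin_I1 {Θ : ℝ} (hΘ : 0 < Θ) (a : ℕ → ℝ) (n : ℕ) :
    (n:ℝ) ^ 2 * (Θ * I1 (Lin Θ a n)) ≤ 3 * |a n| := by
  by_cases hn : 3 ≤ n
  · have h1 := mu_pos hn
    have hn' : (3:ℝ) ≤ n := by exact_mod_cast hn
    have h2 : 0 < mu n := lt_of_lt_of_le (by positivity) h1
    have h3 : I1 (Lin Θ a n) = ∫ s in (0:ℝ)..1, Real.exp (-(Θ * mu n) * s) * |a n| := by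
      unfold I1
      apply intervalIntegral.integral_congr
      intro s hs
      rw [Set.uIcc_of_le zero_le_one] at hs
      simp only
      rw [ev_Lin Θ a hn hs, abs_mul, abs_of_pos (Real.exp_pos _)]
    have h4 : Θ * mu n * I1 (Lin Θ a n) ≤ |a n| := by
      rw [h3, intervalIntegral.integral_mul_const]
      have h5 : (-(Θ * mu n)) ≠ 0 := neg_ne_zero.2 (mul_pos hΘ h2).ne'
      rw [intervalIntegral.integral_comp_mul_left (fun x => Real.exp x) h5, integral_exp]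
      have h6 : 0 < Θ * mu n := mul_pos hΘ h2
      simp only [mul_zero, mul_one, Real.exp_zero, smul_eq_mul]
      have h7 : 0 < Real.exp (-(Θ * mu n)) := Real.exp_pos _
      have h8 : Θ * mu n * ((-(Θ * mu n))⁻¹ * (Real.exp (-(Θ * mu n)) - 1) * |a n|) =
          (1 - Real.exp (-(Θ * mu n))) * |a n| := by
        field_simp
        ring
      rw [h8]
      have := abs_nonneg (a n)
      nlinarith
    have h5 := I1_nonneg (Lin Θ a n)
    have h6 : (n:ℝ) ^ 2 ≤ 3 * mu n := by nlinarith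
    calc (n:ℝ) ^ 2 * (Θ * I1 (Lin Θ a n)) ≤ (3 * mu n) * (Θ * I1 (Lin Θ a n)) :=
          mul_le_mul_of_nonneg_right h6 (by positivity)
      _ = 3 * (Θ * mu n * I1 (Lin Θ a n)) := by ring
      _ ≤ _ := by gcongr
  · unfold Lin
    rw [if_pos (by omega)]
    have : I1 (0 : CI) = 0 := by unfold I1; simp
    rw [this]
    simp

end

end Pool.Agent.N535
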