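import Mathlib
import Pool.Agent.N535.LpE
import Pool.Agent.N535.Fix

set_option autoImplicit false
set_option linter.all false
open Finset Set Filter Topology
open scoped ENNReal ContDiff

namespace Pool.Agent.N535

open Pool.Agent.H858R2 (CI ev evH abs_ev_le norm_evH_le continuous_ev ev_one ev_zero ev_of ev_add ev_sub
  ev_neg ev_smul ev_mul)

noncomputable section

/-- families of functions on `(0,1)` whose curves in the weighted `ℓ¹` spaces are `C^k` -/
def SMC (k : ℕ) (q : ℝ) (f : ℕ → ℝ → ℝ) : Prop :=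
  (∀ s ∈ Ioo (0:ℝ) 1, SS q (fun n => f n s)) ∧
    ∀ r : ℝ, 1 ≤ r → r < q → ContDiffOn ℝ k (fun s => toE r (fun n => f n s)) (Ioo 0 1)

section
variable {k : ℕ} {q : ℝ} {f g h : ℕ → ℝ → ℝ}

theorem SMC.congr (hf : SMC k q f) (h : ∀ s ∈ Ioo (0:ℝ) 1, ∀ n, g n s = f n s) : SMC k q g := by
  have e : ∀ s ∈ Ioo (0:ℝ) 1, (fun n => g n s) = fun n => f n s := fun s hs => funext fun n => h s hs n
  refine ⟨fun s hs => by rw [e s hs]; exact hf.1 s hs, fun r h1 h2 => ?_⟩
  exact (hf.2 r h1 h2).congr fun s hs => by rw [e s hs]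

theorem SMC.add (hf : SMC k q f) (hg : SMC k q g) : SMC k q (fun n s => f n s + g n s) := by
  refine ⟨fun s hs => (hf.1 s hs).add (hg.1 s hs), fun r h1 h2 => ?_⟩
  refine ((hf.2 r h1 h2).add (hg.2 r h1 h2)).congr fun s hs => ?_
  exact toE_add (by linarith) (hf.1 s hs r h1 h2) (hg.1 s hs r h1 h2)

theorem SMC.smul (c : ℝ) (hf : SMC k q f) : SMC k q (fun n s => c • f n s) := by
  refine ⟨fun s hs => (hf.1 s hs).smul c, fun r h1 h2 => ?_⟩
  refine ((hf.2 r h1 h2).const_smul c).congr fun s hs => ?_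
  exact toE_smul (by linarith) (hf.1 s hs r h1 h2) c

theorem SMC.sub (hf : SMC k q f) (hg : SMC k q g) : SMC k q (fun n s => f n s - g n s) :=
  (hf.add (hg.smul (-1))).congr fun s hs n => by simp [sub_eq_add_neg]

theorem SMC.mulp {l : ℕ → ℝ} (hl : ∃ (C : ℝ) (p : ℕ), 0 ≤ C ∧ ∀ n : ℕ, |l n| ≤ C * ((n : ℝ) + 1) ^ p)
    (hf : SMC k q f) : SMC k q (fun n s => l n • f n s) := by
  refine ⟨fun s hs => (hf.1 s hs).mulp hl, fun r h1 h2 => ?_⟩
  obtain ⟨r', hr1, hr2⟩ := exists_between h2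
  obtain ⟨B, hB⟩ := mop_exists hl h1 hr1
  refine (B.contDiff.comp_contDiffOn (hf.2 r' (h1.trans hr1.le) hr2)).congr fun s hs => ?_
  exact (hB _ (hf.1 s hs r' (h1.trans hr1.le) hr2)).symm

theorem SMC.bil {K : ℕ → ℕ → ℕ → ℝ} (hK : PK K) (hf : SMC k q f) (hg : SMC k q g) (hq : 1 < q) :
    SMC k q (fun n s => bil K (fun m => f m s) (fun m => g m s) n) := by
  refine ⟨fun s hs => (hf.1 s hs).bil hq hK (hg.1 s hs), fun r h1 h2 => ?_⟩
  obtain ⟨r', hr1, hr2⟩ := exists_between h2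
  obtain ⟨B, hB⟩ := bop_exists hK h1 hr1
  have h3 : ContDiffOn ℝ k (fun s => B (toE r' (fun n => f n s)) (toE r' (fun n => g n s))) (Ioo 0 1) :=
    (B.contDiff.comp_contDiffOn (hf.2 r' (h1.trans hr1.le) hr2)).clm_apply
      (hg.2 r' (h1.trans hr1.le) hr2)
  refine h3.congr fun s hs => ?_
  exact (hB _ _ (hf.1 s hs r' (h1.trans hr1.le) hr2) (hg.1 s hs r' (h1.trans hr1.le) hr2)).symm

theorem SMC.const {x : ℕ → ℝ} (hx : SS q x) : SMC k q (fun n _ => x n) :=
  ⟨fun _ _ => hx, fun _ _ _ => contDiffOn_const⟩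

theorem SMC.T (hq : 1 < q) (hf : SMC k q f) (hg : SMC k q g) (hh : SMC k q h) :
    SMC k q (fun n s => T (fun m => f m s) (fun m => g m s) (fun m => h m s) n) := by
  unfold N535.T
  have hfg := hf.bil PK_km hg hq
  have hgh := hg.bil PK_km hh hq
  have hlh : SMC k q (fun n s => lmul (fun m => h m s) n) := hh.mulp lam_poly
  have hlgh : SMC k q (fun n s => lmul (N535.bil km (fun m => g m s) (fun m => h m s)) n) :=
    hgh.mulp lam_poly
  exact ((((hfg.bil PK_km hlh hq).smul _).add ((hf.bil PK_km hlgh hq).smul _)).add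
    ((hfg.bil PK_km hh hq).smul _)).sub ((hf.bil PK_ki hg hq).bil PK_kg hh hq)

end

theorem km_zero (J K : ℕ) : km J K 0 = 0 := ds_zero _ _ _ _ fun i _ => by omega

theorem kg_zero (Q L : ℕ) : kg Q L 0 = 0 := by
  unfold kg
  split_ifs <;> first | rfl | (exfalso; omega) | (rw [km_zero, km_zero]; ring)

theorem T_at_zero {R : Type} [NormedCommRing R] [NormedAlgebra ℝ R] (f g h : ℕ → R) : T f g h 0 = 0 := by
  have h1 : ∀ a b : ℕ → R, bil km a b 0 = 0 := fun a b => by unfold bil; simp [km_zero]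
  have h2 : ∀ a b : ℕ → R, bil kg a b 0 = 0 := fun a b => by unfold bil; simp [kg_zero]
  unfold T
  rw [h1, h1, h1, h2]
  simp

theorem mu_poly : ∃ (C : ℝ) (p : ℕ), 0 ≤ C ∧ ∀ n : ℕ, |-mu n| ≤ C * ((n : ℝ) + 1) ^ p := by
  refine ⟨5, 2, by norm_num, fun n => ?_⟩
  unfold mu
  have : (0:ℝ) ≤ n := Nat.cast_nonneg n
  rw [abs_neg, abs_le]
  constructor <;> nlinarith

/-- pointwise form of the nonlinearity -/
def Nr (x : ℕ → ℝ) (n : ℕ) : ℝ := T x x x n + T ee x x n + T x ee x n + T x x ee n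

theorem ev_Nl {q : ℝ} (hq : 1 < q) {c : ℕ → CI} (hc : SS q c) (s : ℝ) (n : ℕ) :
    ev (Nl c n) s = Nr (fun m => ev (c m) s) n := by
  have he : SS q (ee : ℕ → CI) := SS_ee q
  unfold Nl Nr
  rw [ev_add, ev_add, ev_add, ev_T hq hc hc hc, ev_T hq he hc hc, ev_T hq hc he hc, ev_T hq hc hc he,
    ev_ee]

theorem SS_Nl {q : ℝ} (hq : 1 < q) {c : ℕ → CI} (hc : SS q c) : SS q (Nl c) := by
  have he : SS q (ee : ℕ → CI) := SS_ee q
  unfold Nl
  exact (((hc.T hq hc hc).add (he.T hq hc hc)).add (hc.T hq he hc)).add (hc.T hq hc he)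

/-- the integral equation -/
structure IsSolC (Θ q : ℝ) (a : ℕ → ℝ) (c : ℕ → CI) : Prop where
  ss : SS q c
  eq : ∀ n, c n = Lin Θ a n + Dop Θ n (Nl c n)

section
variable {Θ q : ℝ} {a : ℕ → ℝ} {c : ℕ → CI}

theorem IsSolC.c_zero (h : IsSolC Θ q a c) : c 0 = 0 := by
  rw [h.eq 0]
  simp [Lin, Dop]

/-- the right side of the equation -/
def Gr (Θ : ℝ) (x : ℕ → ℝ) (n : ℕ) : ℝ := Θ • (-mu n • x n + Nr x n)

theorem IsSolC.deriv (h : IsSolC Θ q a c) (hq : 1 < q) (n : ℕ) {s : ℝ} (hs : s ∈ Ioo (0:ℝ) 1) :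
    HasDerivAt (ev (c n)) (Gr Θ (fun m => ev (c m) s) n) s := by
  by_cases hn : n = 0
  · subst hn
    have h1 : Gr Θ (fun m => ev (c m) s) 0 = 0 := by
      unfold Gr Nr
      rw [T_at_zero, T_at_zero, T_at_zero, T_at_zero]
      show Θ • (-mu 0 • ev (c 0) s + (0 + 0 + 0 + 0)) = 0
      rw [h.c_zero, ev_zero]
      simp
    rw [h1, h.c_zero]
    have : ev (0 : CI) = fun _ => 0 := by funext s; exact ev_zero s
    rw [this]
    exact hasDerivAt_const s 0
  · have h1 := (Lin_deriv Θ a n hs).add (Dop_deriv Θ hn (Nl c n) hs)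
    have e1 : ev (c n) = ev (Lin Θ a n) + ev (Dop Θ n (Nl c n)) := by
      rw [h.eq n]; rfl
    rw [e1]
    refine h1.congr_deriv ?_
    have e2 : ev (c n) s = ev (Lin Θ a n) s + ev (Dop Θ n (Nl c n)) s := by rw [e1]; rfl
    unfold Gr
    rw [← ev_Nl hq h.ss s n]
    simp only [smul_eq_mul]
    rw [e2]
    ring

theorem IsSolC.ssx (h : IsSolC Θ q a c) (s : ℝ) : SS q (fun n => ev (c n) s) :=
  h.ss.map (evH s) (norm_evH_le s)

theorem IsSolC.curve_deriv (h : IsSolC Θ q a c) (hq : 1 < q) {r : ℝ} (h1 : 1 ≤ r) (h2 : r < q)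
    {s : ℝ} (hs : s ∈ Ioo (0:ℝ) 1) :
    HasDerivAt (fun s => toE r (fun n => ev (c n) s)) (toE r (Gr Θ (fun m => ev (c m) s))) s := by
  have hr : 0 ≤ r := by linarith
  have hsN := SS_Nl hq h.ss
  have hsm : SS q (fun n => -mu n • c n) := h.ss.mulp mu_poly
  set u : ℕ → ℝ := fun n => |Θ| * (r ^ n * ‖-mu n • c n‖ + r ^ n * ‖Nl c n‖) with hu
  have hus : Summable u := ((hsm r h1 h2).add (hsN r h1 h2)).mul_left _
  have hGb : ∀ s ∈ Ioo (0:ℝ) 1, ∀ n, r ^ n * |Gr Θ (fun m => ev (c m) s) n| ≤ u n := by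
    intro s hs n
    have e1 : Gr Θ (fun m => ev (c m) s) n = Θ * (ev (-mu n • c n) s + ev (Nl c n) s) := by
      unfold Gr
      rw [ev_Nl hq h.ss, ev_smul]
      simp [smul_eq_mul]
    rw [e1, abs_mul]
    calc r ^ n * (|Θ| * |ev (-mu n • c n) s + ev (Nl c n) s|)
        ≤ r ^ n * (|Θ| * (‖-mu n • c n‖ + ‖Nl c n‖)) := by
          gcongr
          exact (abs_add_le _ _).trans (add_le_add (abs_ev_le _ _) (abs_ev_le _ _))
      _ = u n := by rw [hu]; ring
  have hG : ∀ s ∈ Ioo (0:ℝ) 1, Summable fun n => r ^ n * ‖Gr Θ (fun m => ev (c m) s) n‖ :=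
    fun s hs => Summable.of_nonneg_of_le (fun n => by positivity) (hGb s hs) hus
  have key := hasDerivAt_tsum_of_isPreconnected (𝕜 := ℝ) (F := E1) (u := u)
    (g := fun n s => (r ^ n * ev (c n) s) • (lp.single 1 n (1:ℝ) : E1))
    (g' := fun n s => (r ^ n * Gr Θ (fun m => ev (c m) s) n) • (lp.single 1 n (1:ℝ) : E1))
    (t := Ioo (0:ℝ) 1) (y₀ := s) hus isOpen_Ioo isPreconnected_Ioo
    (fun n y hy => ((h.deriv hq n hy).const_mul (r ^ n)).smul_const _)
    (fun n y hy => by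
      rw [norm_smul, norm_single_one, mul_one, Real.norm_eq_abs, abs_mul,
        abs_of_nonneg (pow_nonneg hr n)]
      exact hGb y hy n)
    hs (by
      refine Summable.of_norm ?_
      refine ((h.ssx s) r h1 h2).congr fun n => ?_
      rw [norm_smul, norm_single_one, mul_one, norm_mul, Real.norm_of_nonneg (pow_nonneg hr n)])
    hs
  have e1 : (fun s => toE r (fun n => ev (c n) s)) =
      fun s => ∑' n, (r ^ n * ev (c n) s) • (lp.single 1 n (1:ℝ) : E1) :=
    funext fun s => toE_single hr ((h.ssx s) r h1 h2)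
  rw [e1, toE_single hr (hG s hs)]
  exact key

theorem IsSolC.smc (h : IsSolC Θ q a c) (hq : 1 < q) (k : ℕ) : SMC k q (fun n s => ev (c n) s) := by
  induction k with
  | zero =>
    refine ⟨fun s _ => h.ssx s, fun r h1 h2 => ?_⟩
    rw [Nat.cast_zero, contDiffOn_zero]
    exact fun s hs => (h.curve_deriv hq h1 h2 hs).continuousAt.continuousWithinAt
  | succ k ih =>
    refine ⟨fun s _ => h.ssx s, fun r h1 h2 => ?_⟩
    have : ((k + 1 : ℕ) : WithTop ℕ∞) = (k : WithTop ℕ∞) + 1 := by push_cast; rfl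
    rw [this, contDiffOn_succ_iff_deriv_of_isOpen isOpen_Ioo]
    refine ⟨fun s hs => (h.curve_deriv hq h1 h2 hs).differentiableAt.differentiableWithinAt, ?_, ?_⟩
    · intro hω
      exact absurd hω (by simp)
    · have hG : SMC k q (fun n s => Gr Θ (fun m => ev (c m) s) n) := by
        unfold Gr Nr
        have he : SMC k q (fun n _ => (ee : ℕ → ℝ) n) := SMC.const (SS_ee q)
        exact ((ih.mulp mu_poly).add ((((ih.T hq ih ih).add (he.T hq ih ih)).add (ih.T hq he ih)).add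
          (ih.T hq ih he))).smul Θ
      exact (hG.2 r h1 h2).congr fun s hs => (h.curve_deriv hq h1 h2 hs).deriv

end

end

end Pool.Agent.N535
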