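import Mathlib
import Pool.Agent.N535.Eva

set_option autoImplicit false
set_option linter.all false
open Set Filter Topology
open scoped ENNReal ContDiff

namespace Pool.Agent.N535

open Pool.Agent.H858R2 (CI ev evH abs_ev_le norm_evH_le continuous_ev ev_one ev_zero ev_of ev_add ev_sub
  ev_neg ev_smul ev_mul)

noncomputable section

section
variable {Θ q ρ : ℝ} {x : ℕ → ℝ}

theorem SS_Nr (hq : 1 < q) (hx : SS q x) : SS q (Nr x) := by
  have he : SS q (ee : ℕ → ℝ) := SS_ee q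
  unfold Nr
  exact (((hx.T hq hx hx).add (he.T hq hx hx)).add (hx.T hq he hx)).add (hx.T hq hx he)

theorem evk_zero_fun (k : ℕ) (t : ℝ) : evk k (fun _ => 0) t = 0 := by
  unfold evk; simp

/-- value of the nonlinearity -/
theorem ev_Nr (hρ : 1 < ρ) (hq : ρ < q) (hx : SS q x) {t : ℝ} (ht : |t| ≤ bb ρ) :
    evk 0 (Nr x) t =
      (2 * evk 0 x t + evk 0 x t ^ 2) * ((1 - t ^ 2) * evk 2 x t - 3 * t * evk 1 x t)
      - (1 + evk 0 x t) * ((1 - t ^ 2) * evk 1 x t ^ 2)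
      + 6 * evk 0 x t ^ 2 + 2 * evk 0 x t ^ 3
      - evk 0 (bil ki x x) t * (t * (1 + evk 0 x t) + (1 - t ^ 2) * evk 1 x t) := by
  have hq1 : 1 < q := hρ.trans hq
  have he : SS q (ee : ℕ → ℝ) := SS_ee q
  unfold Nr
  rw [evk_add hρ hq (((hx.T hq1 hx hx).add (he.T hq1 hx hx)).add (hx.T hq1 he hx)) (hx.T hq1 hx he) 0 ht,
    evk_add hρ hq ((hx.T hq1 hx hx).add (he.T hq1 hx hx)) (hx.T hq1 he hx) 0 ht,
    evk_add hρ hq (hx.T hq1 hx hx) (he.T hq1 hx hx) 0 ht,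
    ev_T' hρ hq hx hx hx ht, ev_T' hρ hq he hx hx ht, ev_T' hρ hq hx he hx ht, ev_T' hρ hq hx hx he ht,
    bil_ki_ee_left, bil_ki_ee_right, evk_zero_fun, ev_lmul hρ hq hx ht, ev_lmul hρ hq he ht,
    evk_zero_ee, evk_succ_ee 0, evk_succ_ee 1]
  ring

theorem SS_mu (hx : SS q x) : SS q (fun n => -mu n • x n) := hx.mulp mu_poly

theorem evk_mu (hρ : 1 < ρ) (hq : ρ < q) (hx : SS q x) {t : ℝ} (ht : |t| ≤ bb ρ) :
    evk 0 (fun n => -mu n • x n) t =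
      4 * evk 0 x t + ((1 - t ^ 2) * evk 2 x t - 3 * t * evk 1 x t) := by
  have h1 : evk 0 (fun n => -mu n • x n) t = evk 0 (fun n => (4:ℝ) • x n - lmul x n) t := by
    unfold evk
    refine tsum_congr fun n => ?_
    rcases Nat.eq_zero_or_pos n with rfl | hn
    · simp [sv, sp_zero]
    · show -mu n * x n * sv 0 n t = (4 * x n - lam n * x n) * sv 0 n t
      have : -mu n = 4 - lam n := by
        unfold mu lam
        rw [if_neg (by omega)]; ring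
      rw [this]; ring
  rw [h1, evk_sub hρ hq (hx.smul 4) hx.lmul 0 ht, evk_smul, ev_lmul hρ hq hx ht]
  ring

/-- value of the right side -/
theorem ev_Gr (hρ : 1 < ρ) (hq : ρ < q) (hx : SS q x) {t : ℝ} (ht : |t| ≤ bb ρ) (V J : ℝ)
    (hV : V = 1 + evk 0 x t) (hJ : J = evk 0 (bil ki x x) t) :
    evk 0 (Gr Θ x) t =
      Θ * (V ^ 2 * ((1 - t ^ 2) * evk 2 x t - 3 * t * evk 1 x t) - V * ((1 - t ^ 2) * evk 1 x t ^ 2)
        + 2 * V ^ 3 - 2 * V - J * (t * V + (1 - t ^ 2) * evk 1 x t)) := by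
  have hq1 : 1 < q := hρ.trans hq
  unfold Gr
  rw [evk_smul Θ 0 t, evk_add hρ hq (SS_mu hx) (SS_Nr hq1 hx) 0 ht, evk_mu hρ hq hx ht,
    ev_Nr hρ hq hx ht, hV, hJ]
  ring

theorem SS_Gr (hq : 1 < q) (hx : SS q x) : SS q (Gr Θ x) := by
  unfold Gr
  exact ((SS_mu hx).add (SS_Nr hq hx)).smul Θ

end

/-! ### the solution as a function -/

section
variable {Θ q ρ : ℝ} {a : ℕ → ℝ} {c : ℕ → CI}

/-- coefficients at time `s` -/
def cf (c : ℕ → CI) (s : ℝ) (n : ℕ) : ℝ := ev (c n) s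

/-- the function `V = 1 + w` -/
def Vf (c : ℕ → CI) (s x : ℝ) : ℝ := 1 + evk 0 (cf c s) x

/-- the integral `J` -/
def Jf (c : ℕ → CI) (s x : ℝ) : ℝ := evk 0 (bil ki (cf c s) (cf c s)) x

theorem Vf_dx (hρ : 1 < ρ) (hq : ρ < q) (hc : ∀ s, SS q (cf c s)) (s : ℝ) {x : ℝ} (hx : |x| < bb ρ) :
    HasDerivAt (Vf c s) (evk 1 (cf c s) x) x := by
  unfold Vf
  exact (evk_deriv hρ hq (hc s) 0 hx).const_add 1

theorem Vf_deriv (hρ : 1 < ρ) (hq : ρ < q) (hc : ∀ s, SS q (cf c s)) (s : ℝ) {x : ℝ} (hx : |x| < bb ρ) :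
    deriv (Vf c s) x = evk 1 (cf c s) x := (Vf_dx hρ hq hc s hx).deriv

theorem Vf_deriv2 (hρ : 1 < ρ) (hq : ρ < q) (hc : ∀ s, SS q (cf c s)) (s : ℝ) {x : ℝ} (hx : |x| < bb ρ) :
    HasDerivAt (deriv (Vf c s)) (evk 2 (cf c s) x) x := by
  refine (evk_deriv hρ hq (hc s) 1 hx).congr_of_eventuallyEq ?_
  have : {y : ℝ | |y| < bb ρ} ∈ 𝓝 x := (isOpen_lt continuous_abs continuous_const).mem_nhds hx
  filter_upwards [this] with y hy
  exact Vf_deriv hρ hq hc s hy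

theorem Jf_dx (hρ : 1 < ρ) (hq : ρ < q) (hc : ∀ s, SS q (cf c s)) (s : ℝ) {x : ℝ} (hx : |x| < bb ρ) :
    HasDerivAt (Jf c s) (deriv (Vf c s) x ^ 2) x := by
  unfold Jf
  have h1 := evk_deriv hρ hq ((hc s).bil (hρ.trans hq) PK_ki (hc s)) 0 hx
  rw [Vf_deriv hρ hq hc s hx]
  rw [ev_ii hρ hq (hc s) (hc s) hx.le] at h1
  exact h1.congr_deriv (by ring)

theorem IsSolC.ssc (h : IsSolC Θ q a c) (s : ℝ) : SS q (cf c s) := h.ssx s

theorem Vf_dt (h : IsSolC Θ q a c) (hρ : 1 < ρ) (hq : ρ < q) {s : ℝ} (hs : s ∈ Ioo (0:ℝ) 1) {x : ℝ}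
    (hx : |x| < bb ρ) :
    HasDerivAt (fun s => Vf c s x)
      (Θ * (Vf c s x ^ 2 * ((1 - x ^ 2) * deriv (deriv (Vf c s)) x - 3 * x * deriv (Vf c s) x)
        - Vf c s x * ((1 - x ^ 2) * deriv (Vf c s) x ^ 2)
        + 2 * Vf c s x ^ 3 - 2 * Vf c s x
        - Jf c s x * (x * Vf c s x + (1 - x ^ 2) * deriv (Vf c s) x))) s := by
  have hc := h.ssc
  have hq1 : 1 < q := hρ.trans hq
  rw [(Vf_deriv2 hρ hq hc s hx).deriv, Vf_deriv hρ hq hc s hx]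
  rw [← ev_Gr (Θ := Θ) hρ hq (hc s) hx.le (Vf c s x) (Jf c s x) rfl rfl]
  obtain ⟨r, hr1, hr2⟩ := exists_between hq
  have h1 := h.curve_deriv hq1 (by linarith : 1 ≤ r) hr2 hs
  have h2 := (Ak 0 r x).hasFDerivAt.comp_hasDerivAt s h1
  have e1 : (fun s => Vf c s x) = fun s => 1 + (Ak 0 r x) (toE r (fun n => ev (c n) s)) := by
    funext s'
    exact congrArg (fun z => 1 + z) (Ak_apply hρ hr1 0 hx.le ((hc s') r (by linarith) hr2)).symm
  rw [e1]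
  have e2 : evk 0 (Gr Θ (cf c s)) x = (Ak 0 r x) (toE r (Gr Θ (fun m => ev (c m) s))) := by
    exact (Ak_apply hρ hr1 0 hx.le ((SS_Gr hq1 (hc s)) r (by linarith) hr2)).symm
  rw [e2]
  exact h2.const_add 1

theorem Vf_smooth (h : IsSolC Θ q a c) (hρ : 1 < ρ) (hq : ρ < q) :
    ContDiffOn ℝ ∞ (fun p : ℝ × ℝ => Vf c p.1 p.2) (Ioo 0 1 ×ˢ Ioo (-bb ρ) (bb ρ)) := by
  unfold Vf
  exact contDiffOn_const.add (evk_smooth hρ hq (f := fun n s => ev (c n) s)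
    (fun m => h.smc (hρ.trans hq) m) 0)

theorem Jf_smooth (h : IsSolC Θ q a c) (hρ : 1 < ρ) (hq : ρ < q) :
    ContDiffOn ℝ ∞ (fun p : ℝ × ℝ => Jf c p.1 p.2) (Ioo 0 1 ×ˢ Ioo (-bb ρ) (bb ρ)) := by
  unfold Jf
  exact evk_smooth hρ hq (f := fun n s => bil ki (fun m => ev (c m) s) (fun m => ev (c m) s) n)
    (fun m => (h.smc (hρ.trans hq) m).bil PK_ki (h.smc (hρ.trans hq) m) (hρ.trans hq)) 0

/-! ### bounds -/

theorem sv_le_wb (hρ : 1 ≤ ρ) (hq : ρ ≤ q) {M : ℝ} (hM : 0 ≤ M) {t : ℝ} (ht : |t| ≤ bb ρ) (n : ℕ) :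
    |sv 0 n t| ≤ wb q M n := by
  unfold wb
  have h0 : (0:ℝ) ≤ n := Nat.cast_nonneg n
  calc |sv 0 n t| ≤ n * ρ ^ n := by simpa [sv] using sp_bound hρ ht n
    _ ≤ (n + M) * q ^ n := by gcongr; linarith

theorem nS_le_nX (Θ q M : ℝ) (F : ℕ → CI) : nS (wb q M) F ≤ nX Θ q M F := by
  unfold nX
  exact le_self_add

theorem Vf_bound (hρ : 1 < ρ) (hq : ρ < q) {M : ℝ} (hM : 1 ≤ M) {B : ℝ} (hB : 0 ≤ B)
    (hc : nX Θ q M c ≤ ENNReal.ofReal B) (s : ℝ) {x : ℝ} (hx : |x| ≤ bb ρ) :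
    |Vf c s x - 1| ≤ B := by
  have hss : SS q c := SS_of_nX (hρ.trans hq).le hM (ne_top_of_le_ne_top ENNReal.ofReal_ne_top hc)
  have hs2 : SS q (cf c s) := hss.map (evH s) (norm_evH_le s)
  have h1 : |Vf c s x - 1| = |evk 0 (cf c s) x| := by unfold Vf; congr 1; ring
  rw [h1]
  have hsum := evk_summ hρ hq hs2 0 hx
  have h2 : ‖evk 0 (cf c s) x‖ₑ ≤ ENNReal.ofReal B := by
    unfold evk
    calc ‖∑' n, cf c s n * sv 0 n x‖ₑ ≤ ∑' n, ‖cf c s n * sv 0 n x‖ₑ := enorm_tsum_le_tsum_enorm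
      _ ≤ nm (wb q M) (cf c s) := by
          unfold nm
          refine ENNReal.tsum_le_tsum fun n => ?_
          rw [enorm_mul, mul_comm]
          refine mul_le_mul_left ?_ _
          rw [Real.enorm_eq_ofReal_abs]
          exact ENNReal.ofReal_le_ofReal (sv_le_wb hρ.le hq.le (by linarith) hx n)
      _ ≤ nS (wb q M) c := nm_le_nS _ _ _
      _ ≤ nX Θ q M c := nS_le_nX _ _ _ _
      _ ≤ _ := hc
  rw [Real.enorm_eq_ofReal_abs] at h2
  exact (ENNReal.ofReal_le_ofReal_iff hB).1 h2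

/-- the coefficients are small -/
theorem cf_bound (hq : 1 ≤ q) {M : ℝ} (hM : 0 < M) {B : ℝ} (hB : 0 ≤ B)
    (hc : nX Θ q M c ≤ ENNReal.ofReal B) (s : ℝ) (n : ℕ) : |cf c s n| ≤ B / M := by
  have h1 : ENNReal.ofReal (wb q M n) * ‖c n‖ₑ ≤ ENNReal.ofReal B := by
    refine le_trans ?_ ((nS_le_nX Θ q M c).trans hc)
    unfold nS
    exact ENNReal.le_tsum (f := fun n => ENNReal.ofReal (wb q M n) * ‖c n‖ₑ) n
  have h2 : M ≤ wb q M n := by
    unfold wb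
    have h0 : (0:ℝ) ≤ n := Nat.cast_nonneg n
    have := one_le_pow₀ hq (n := n)
    nlinarith
  rw [← ofReal_norm, ← ENNReal.ofReal_mul (by linarith), ENNReal.ofReal_le_ofReal_iff hB] at h1
  rw [le_div_iff₀ hM]
  have h3 : |cf c s n| ≤ ‖c n‖ := abs_ev_le _ _
  nlinarith [norm_nonneg (c n), abs_nonneg (cf c s n)]

/-- uniform continuity at time `0` -/
theorem evk_cont (hρ : 1 < ρ) (hq : ρ < q) (hss : SS q c) (k : ℕ) {κ : ℝ} (hκ : 0 < κ) :
    ∀ᶠ s in 𝓝[>] (0:ℝ), ∀ x : ℝ, |x| ≤ bb ρ → |evk k (cf c s) x - evk k (cf c 0) x| ≤ κ := by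
  obtain ⟨r, hr1, hr2⟩ := exists_between hq
  obtain ⟨C, hC, hb⟩ := sv_geom hρ.le hr1 k
  have hr : 1 ≤ r := by linarith
  have hlim : Tendsto (fun s => ∑' n, |cf c s n - cf c 0 n| * (C * r ^ n)) (𝓝 (0:ℝ)) (𝓝 0) := by
    have h0 : (∑' n : ℕ, |cf c 0 n - cf c 0 n| * (C * r ^ n)) = 0 := by simp
    have h1 : Continuous fun s => ∑' n, |cf c s n - cf c 0 n| * (C * r ^ n) := by
      refine continuous_tsum (u := fun n => 2 * C * (r ^ n * ‖c n‖)) (fun n => ?_) ?_ (fun n s => ?_)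
      · have : Continuous fun s => cf c s n := continuous_ev (c n)
        exact ((this.sub continuous_const).abs).mul continuous_const
      · exact (hss r hr hr2).mul_left _
      · rw [Real.norm_of_nonneg (by positivity)]
        have h3 : |cf c s n - cf c 0 n| ≤ 2 * ‖c n‖ := by
          refine (abs_sub _ _).trans ?_
          have h4 : |cf c s n| ≤ ‖c n‖ := abs_ev_le _ _
          have h5 : |cf c 0 n| ≤ ‖c n‖ := abs_ev_le _ _
          linarith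
        calc |cf c s n - cf c 0 n| * (C * r ^ n) ≤ 2 * ‖c n‖ * (C * r ^ n) := by gcongr
          _ = _ := by ring
    have h2 := h1.tendsto 0
    rwa [h0] at h2
  have hev : ∀ᶠ s in 𝓝[>] (0:ℝ), (∑' n, |cf c s n - cf c 0 n| * (C * r ^ n)) < κ :=
    (hlim.mono_left nhdsWithin_le_nhds).eventually (gt_mem_nhds hκ)
  filter_upwards [hev] with s hs x hx
  have hs1 : SS q (cf c s) := hss.map (evH s) (norm_evH_le s)
  have hs0 : SS q (cf c 0) := hss.map (evH 0) (norm_evH_le 0)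
  rw [← evk_sub hρ hq hs1 hs0 k hx]
  refine le_trans ?_ hs.le
  have hsum := evk_summ hρ hq (hs1.sub hs0) k hx
  have hsum2 : Summable fun n => |cf c s n - cf c 0 n| * (C * r ^ n) := by
    refine (((hs1.sub hs0) r hr hr2).mul_left C).congr fun n => ?_
    rw [Real.norm_eq_abs]; ring
  unfold evk
  calc |∑' n, (cf c s n - cf c 0 n) * sv k n x| ≤ ∑' n, ‖(cf c s n - cf c 0 n) * sv k n x‖ :=
        norm_tsum_le_tsum_norm hsum
    _ ≤ _ := by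
        refine hsum.tsum_le_tsum (fun n => ?_) hsum2
        rw [norm_mul, Real.norm_eq_abs, Real.norm_eq_abs]
        exact mul_le_mul_of_nonneg_left (hb n x hx) (abs_nonneg _)

theorem IsSolC.init (h : IsSolC Θ q a c) {n : ℕ} (hn : 3 ≤ n) : cf c 0 n = a n := by
  unfold cf
  rw [h.eq n, ev_add, Lin_zero Θ a hn, Dop_zero Θ hn, add_zero]

end

end

end Pool.Agent.N535
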