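import Mathlib
import Pool.Agent.N535.Eva

set_option autoImplicit false
set_option linter.all false
open Set Filter Topology
open scoped ENNReal ContDiff

namespace Pool.Agent.N535

noncomputable section

/-! ### generating functions -/

/-- the denominator -/
def Dn (x ζ : ℝ) : ℝ := 1 - 2 * x * ζ + ζ ^ 2

theorem Dn_pos {x ζ : ℝ} (hx : x ∈ Icc (-1 : ℝ) 1) (hζ : |ζ| < 1) : 0 < Dn x ζ := by
  obtain ⟨h1, h2⟩ := abs_lt.1 hζ
  unfold Dn
  rcases le_total 0 ζ with h | h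
  · have : 0 < (1 - ζ) ^ 2 := pow_pos (by linarith) 2
    nlinarith [mul_nonneg h (sub_nonneg.2 hx.2)]
  · have : 0 < (1 + ζ) ^ 2 := pow_pos (by linarith) 2
    nlinarith [mul_nonneg (neg_nonneg.2 h) (by linarith [hx.1] : (0:ℝ) ≤ 1 + x)]

theorem sv_le {x : ℝ} (hx : x ∈ Icc (-1 : ℝ) 1) (n : ℕ) : |sv 0 n x| ≤ n := by
  have h := sp_bound (ρ := 1) le_rfl (x := x) (by simpa using abs_le.2 hx) n
  simpa [sv] using h

theorem sv_rec (x : ℝ) (n : ℕ) : sv 0 (n + 2) x = 2 * x * sv 0 (n + 1) x - sv 0 n x := by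
  unfold sv
  simp only [Function.iterate_zero, id]
  have h := sp_add_one ((n : ℤ) + 1)
  have e1 : ((n + 2 : ℕ) : ℤ) = (n : ℤ) + 1 + 1 := by push_cast; ring
  have e2 : ((n + 1 : ℕ) : ℤ) = (n : ℤ) + 1 := by push_cast; ring
  rw [e1, e2, h]
  rw [show (n : ℤ) + 1 - 1 = n by ring]
  simp

theorem sv_zero_x (x : ℝ) : sv 0 0 x = 0 := by simp [sv, sp_zero]
theorem sv_one_x (x : ℝ) : sv 0 1 x = 1 := by simp [sv, sp_one]

theorem summ_aux {ζ : ℝ} (hζ : |ζ| < 1) (k : ℕ) : Summable fun n : ℕ => ((n : ℝ) + 1) ^ k * |ζ| ^ n := by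
  obtain ⟨r, h1, h2⟩ := exists_between hζ
  rcases eq_or_lt_of_le (abs_nonneg ζ) with h0 | h0
  · rw [← h0]
    refine summable_of_ne_finset_zero (s := {0}) fun n hn => ?_
    rw [Finset.mem_singleton] at hn
    rw [zero_pow hn, mul_zero]
  · obtain ⟨C, hC, hb⟩ := poly_le_geom k h0 h1
    refine Summable.of_nonneg_of_le (fun n => by positivity) hb ?_
    exact (summable_geometric_of_lt_one (by linarith) h2).mul_left C

theorem gen_summ {x ζ : ℝ} (hx : x ∈ Icc (-1 : ℝ) 1) (hζ : |ζ| < 1) :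
    Summable fun n : ℕ => ζ ^ n * sv 0 (n + 1) x := by
  refine Summable.of_norm_bounded (summ_aux hζ 1) fun n => ?_
  rw [norm_mul, norm_pow, Real.norm_eq_abs, Real.norm_eq_abs, pow_one, mul_comm]
  have := sv_le hx (n + 1)
  push_cast at this
  gcongr

/-- generating function -/
theorem gen_tsum {x ζ : ℝ} (hx : x ∈ Icc (-1 : ℝ) 1) (hζ : |ζ| < 1) :
    ∑' n : ℕ, ζ ^ n * sv 0 (n + 1) x = 1 / Dn x ζ := by
  have hs := gen_summ hx hζ
  have hD := Dn_pos hx hζ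
  set S := ∑' n : ℕ, ζ ^ n * sv 0 (n + 1) x with hS
  have hs0 : Summable fun n : ℕ => ζ ^ n * sv 0 n x := by
    refine Summable.of_norm_bounded (summ_aux hζ 1) fun n => ?_
    rw [norm_mul, norm_pow, Real.norm_eq_abs, Real.norm_eq_abs, pow_one, mul_comm]
    have := sv_le hx n
    gcongr
    linarith
  have e0 : ∑' n : ℕ, ζ ^ n * sv 0 n x = ζ * S := by
    rw [hs0.tsum_eq_zero_add, sv_zero_x, mul_zero, zero_add, hS, ← tsum_mul_left]
    exact tsum_congr fun n => by rw [pow_succ]; ring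
  have e1 : S = 1 + (2 * x * ζ * S - ζ * (ζ * S)) := by
    rw [← e0]
    conv_lhs => rw [hS, hs.tsum_eq_zero_add]
    rw [zero_add, sv_one_x, pow_zero, mul_one]
    congr 1
    rw [hS, ← tsum_mul_left, ← tsum_mul_left, ← (hs.mul_left _).tsum_sub (hs0.mul_left _)]
    refine tsum_congr fun n => ?_
    rw [show n + 1 + 1 = n + 2 by ring, sv_rec, pow_succ]
    ring
  rw [eq_div_iff hD.ne']
  unfold Dn
  linear_combination e1

theorem gen2_summ {x ζ : ℝ} (hx : x ∈ Icc (-1 : ℝ) 1) (hζ : |ζ| < 1) :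
    Summable fun n : ℕ => ((n : ℝ) + 1) * ζ ^ n * sv 0 (n + 1) x := by
  refine Summable.of_norm_bounded (summ_aux hζ 2) fun n => ?_
  rw [norm_mul, norm_mul, norm_pow, Real.norm_eq_abs, Real.norm_eq_abs, Real.norm_eq_abs,
    abs_of_nonneg (by positivity : (0:ℝ) ≤ (n:ℝ) + 1)]
  have := sv_le hx (n + 1)
  push_cast at this
  calc ((n:ℝ) + 1) * |ζ| ^ n * |sv 0 (n + 1) x| ≤ ((n:ℝ) + 1) * |ζ| ^ n * ((n:ℝ) + 1) := by gcongr
    _ = _ := by ring

/-- derivative of a power series with the coefficients `s_{n+1}` -/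
theorem gen_deriv {x ζ : ℝ} (hx : x ∈ Icc (-1 : ℝ) 1) (hζ : |ζ| < 1) (c : ℕ → ℝ)
    (hc : ∀ n, |c n| ≤ 1) :
    HasDerivAt (fun ζ : ℝ => ∑' n : ℕ, c n * ζ ^ (n + 1) * sv 0 (n + 1) x)
      (∑' n : ℕ, c n * (((n : ℝ) + 1) * ζ ^ n) * sv 0 (n + 1) x) ζ := by
  obtain ⟨r, h1, h2⟩ := exists_between hζ
  have hr0 : 0 ≤ r := (abs_nonneg ζ).trans h1.le
  have hr : |r| < 1 := by rwa [abs_of_nonneg hr0]
  have hmem : ζ ∈ Ioo (-r) r := abs_lt.1 h1
  have hu : Summable fun n : ℕ => ((n : ℝ) + 1) ^ 2 * r ^ n := by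
    have := summ_aux hr 2
    rwa [abs_of_nonneg hr0] at this
  refine hasDerivAt_tsum_of_isPreconnected (t := Ioo (-r) r) hu isOpen_Ioo isPreconnected_Ioo
    (g := fun (n : ℕ) (ζ : ℝ) => c n * ζ ^ (n + 1) * sv 0 (n + 1) x)
    (g' := fun (n : ℕ) (ζ : ℝ) => c n * (((n : ℝ) + 1) * ζ ^ n) * sv 0 (n + 1) x)
    (fun n y _ => ?_) (fun n y hy => ?_) hmem ?_ hmem
  · have h := (((hasDerivAt_id y).pow (n + 1)).const_mul (c n)).mul_const (sv 0 (n + 1) x)
    refine (h.congr_of_eventuallyEq (Filter.Eventually.of_forall fun z => rfl)).congr_deriv ?_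
    simp
  · have hy' : |y| ≤ r := (abs_lt.2 hy).le
    rw [norm_mul, norm_mul, norm_mul, norm_pow, Real.norm_eq_abs, Real.norm_eq_abs, Real.norm_eq_abs,
      Real.norm_eq_abs, abs_of_nonneg (by positivity : (0:ℝ) ≤ (n:ℝ) + 1)]
    have h3 := sv_le hx (n + 1)
    push_cast at h3
    calc |c n| * (((n:ℝ) + 1) * |y| ^ n) * |sv 0 (n + 1) x|
        ≤ 1 * (((n:ℝ) + 1) * r ^ n) * ((n:ℝ) + 1) := by
          gcongr
          exact hc n
      _ = _ := by ring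
  · refine Summable.of_norm_bounded (summ_aux hζ 1) fun n => ?_
    rw [norm_mul, norm_mul, norm_pow, Real.norm_eq_abs, Real.norm_eq_abs, Real.norm_eq_abs, pow_one]
    have h3 := sv_le hx (n + 1)
    push_cast at h3
    have hp : |ζ| ^ (n + 1) ≤ |ζ| ^ n := pow_le_pow_of_le_one (abs_nonneg _) hζ.le (by omega)
    calc |c n| * |ζ| ^ (n + 1) * |sv 0 (n + 1) x| ≤ 1 * |ζ| ^ n * ((n:ℝ) + 1) :=
          mul_le_mul (mul_le_mul (hc n) hp (by positivity) zero_le_one) h3 (abs_nonneg _) (by positivity)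
      _ = _ := by ring

/-- second generating function -/
theorem gen2_tsum {x ζ : ℝ} (hx : x ∈ Icc (-1 : ℝ) 1) (hζ : |ζ| < 1) :
    ∑' n : ℕ, ((n : ℝ) + 1) * ζ ^ n * sv 0 (n + 1) x = (1 - ζ ^ 2) / Dn x ζ ^ 2 := by
  have hD := Dn_pos hx hζ
  have h1 := gen_deriv hx hζ (fun _ => 1) (fun _ => by simp)
  have h2 : HasDerivAt (fun ζ : ℝ => ζ / Dn x ζ) ((1 - ζ ^ 2) / Dn x ζ ^ 2) ζ := by
    have hd : HasDerivAt (fun ζ : ℝ => Dn x ζ) (-(2 * x) + 2 * ζ) ζ := by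
      have a1 : HasDerivAt (fun ζ : ℝ => 2 * x * ζ) (2 * x) ζ := by
        simpa using (hasDerivAt_id ζ).const_mul (2 * x)
      have a2 : HasDerivAt (fun ζ : ℝ => ζ ^ 2) (2 * ζ) ζ := by
        simpa using hasDerivAt_pow 2 ζ
      exact (a1.const_sub 1).add a2
    have h := (hasDerivAt_id ζ).div hd hD.ne'
    refine h.congr_deriv ?_
    unfold Dn
    simp only [id]
    congr 1
    ring
  have h3 : (fun ζ : ℝ => ζ / Dn x ζ) =ᶠ[𝓝 ζ]
      fun ζ : ℝ => ∑' n : ℕ, (1 : ℝ) * ζ ^ (n + 1) * sv 0 (n + 1) x := by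
    have : {y : ℝ | |y| < 1} ∈ 𝓝 ζ := (isOpen_lt continuous_abs continuous_const).mem_nhds hζ
    filter_upwards [this] with y hy
    have h4 := gen_tsum hx hy
    calc y / Dn x y = y * (1 / Dn x y) := by ring
      _ = y * ∑' n : ℕ, y ^ n * sv 0 (n + 1) x := by rw [h4]
      _ = _ := by
          rw [← tsum_mul_left]
          exact tsum_congr fun n => by rw [pow_succ]; ring
  have h5 := (h1.congr_of_eventuallyEq h3).unique h2
  rw [← h5]
  exact tsum_congr fun n => by ring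

/-- the logarithmic series -/
def QQ (x ζ : ℝ) : ℝ := ∑' n : ℕ, (1 / ((n : ℝ) + 1)) * ζ ^ (n + 1) * sv 0 (n + 1) x

theorem QQ_deriv {x ζ : ℝ} (hx : x ∈ Icc (-1 : ℝ) 1) (hζ : |ζ| < 1) :
    HasDerivAt (QQ x) (1 / Dn x ζ) ζ := by
  have h1 := gen_deriv hx hζ (fun n => 1 / ((n : ℝ) + 1)) (fun n => by
    rw [abs_of_nonneg (by positivity)]
    rw [div_le_one (by positivity)]
    have : (0:ℝ) ≤ n := Nat.cast_nonneg n
    linarith)
  refine h1.congr_deriv ?_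
  rw [← gen_tsum hx hζ]
  refine tsum_congr fun n => ?_
  have : ((n:ℝ) + 1) ≠ 0 := by positivity
  field_simp

theorem QQ_zero (x : ℝ) : QQ x 0 = 0 := by
  unfold QQ
  simp

/-- comparison function -/
theorem cmp_deriv {d ζ : ℝ} (h : 0 < 1 - ζ + d) :
    HasDerivAt (fun ζ : ℝ => 1 / (1 - ζ + d)) (1 / (1 - ζ + d) ^ 2) ζ := by
  have h1 : HasDerivAt (fun ζ : ℝ => 1 - ζ + d) (-1) ζ := by
    simpa using ((hasDerivAt_id ζ).const_sub 1).add_const d
  have h2 := h1.inv h.ne'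
  refine (h2.congr_of_eventuallyEq (Filter.Eventually.of_forall fun z => ?_)).congr_deriv ?_
  · simp
  · ring

section
variable {x d : ℝ} (hx : x ∈ Icc (-1 : ℝ) 1) (hd0 : 0 ≤ d) (hd : d ^ 2 = 2 - 2 * x)
include hx hd0 hd

theorem Dn_le {ζ : ℝ} (h0 : 0 ≤ ζ) (h1 : ζ < 1) : Dn x ζ ≤ (1 - ζ + d) ^ 2 := by
  unfold Dn
  nlinarith [mul_nonneg hd0 (sub_nonneg.2 h1.le), mul_nonneg (sub_nonneg.2 h1.le) (pow_two_nonneg d)]

theorem le_Dn {ζ : ℝ} (h0 : 0 ≤ ζ) (h1 : ζ < 1) : (1 - ζ + d) ^ 2 ≤ 36 * Dn x ζ := by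
  have e : Dn x ζ = (1 - ζ) ^ 2 + ζ * d ^ 2 := by unfold Dn; rw [hd]; ring
  rw [e]
  have hd2 : d ≤ 2 := by nlinarith [hx.1]
  rcases le_total (1/2) ζ with h | h
  · nlinarith [pow_two_nonneg (1 - ζ - d), pow_two_nonneg d, pow_two_nonneg (1 - ζ),
      mul_nonneg (sub_nonneg.2 h) (pow_two_nonneg d)]
  · have h2 : (1 - ζ + d) ^ 2 ≤ 3 ^ 2 := pow_le_pow_left₀ (by linarith) (by linarith) 2
    have h3 : (1/2 : ℝ) ^ 2 ≤ (1 - ζ) ^ 2 := pow_le_pow_left₀ (by norm_num) (by linarith) 2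
    have h4 : 0 ≤ ζ * d ^ 2 := by positivity
    nlinarith

theorem QQ_lower {z : ℝ} (h0 : 0 ≤ z) (h1 : z < 1) : z / ((1 - z + d) * (1 + d)) ≤ QQ x z := by
  have hmono : MonotoneOn (fun ζ => QQ x ζ - 1 / (1 - ζ + d)) (Icc 0 z) := by
    have hder : ∀ ζ ∈ Icc 0 z, HasDerivAt (fun ζ => QQ x ζ - 1 / (1 - ζ + d))
        (1 / Dn x ζ - 1 / (1 - ζ + d) ^ 2) ζ := by
      intro ζ hζ
      have ha : |ζ| < 1 := by rw [abs_of_nonneg hζ.1]; exact hζ.2.trans_lt h1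
      exact (QQ_deriv hx ha).sub (cmp_deriv (by linarith [hζ.2]))
    refine monotoneOn_of_deriv_nonneg (convex_Icc 0 z) (fun ζ hζ => (hder ζ hζ).continuousAt.continuousWithinAt)
      (fun ζ hζ => ((hder ζ (interior_subset hζ)).differentiableAt.differentiableWithinAt)) ?_
    intro ζ hζ
    have hζ' := interior_subset hζ
    rw [(hder ζ hζ').deriv]
    have ha : |ζ| < 1 := by rw [abs_of_nonneg hζ'.1]; exact hζ'.2.trans_lt h1
    have := one_div_le_one_div_of_le (Dn_pos hx ha) (Dn_le hx hd0 hd hζ'.1 (hζ'.2.trans_lt h1))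
    linarith
  have h2 := hmono (left_mem_Icc.2 h0) (right_mem_Icc.2 h0) h0
  simp only [QQ_zero] at h2
  have e : z / ((1 - z + d) * (1 + d)) = 1 / (1 - z + d) - 1 / (1 - 0 + d) := by
    have t1 : 1 - z + d ≠ 0 := by linarith
    have t2 : 1 + d ≠ 0 := by linarith
    rw [sub_zero]
    field_simp
    ring
  rw [e]
  linarith

theorem QQ_upper {z : ℝ} (h0 : 0 ≤ z) (h1 : z < 1) : QQ x z ≤ 36 * (z / ((1 - z + d) * (1 + d))) := by
  have hmono : MonotoneOn (fun ζ => 36 * (1 / (1 - ζ + d)) - QQ x ζ) (Icc 0 z) := by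
    have hder : ∀ ζ ∈ Icc 0 z, HasDerivAt (fun ζ => 36 * (1 / (1 - ζ + d)) - QQ x ζ)
        (36 * (1 / (1 - ζ + d) ^ 2) - 1 / Dn x ζ) ζ := by
      intro ζ hζ
      have ha : |ζ| < 1 := by rw [abs_of_nonneg hζ.1]; exact hζ.2.trans_lt h1
      exact ((cmp_deriv (by linarith [hζ.2])).const_mul 36).sub (QQ_deriv hx ha)
    refine monotoneOn_of_deriv_nonneg (convex_Icc 0 z) (fun ζ hζ => (hder ζ hζ).continuousAt.continuousWithinAt)
      (fun ζ hζ => ((hder ζ (interior_subset hζ)).differentiableAt.differentiableWithinAt)) ?_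
    intro ζ hζ
    have hζ' := interior_subset hζ
    rw [(hder ζ hζ').deriv]
    have ha : |ζ| < 1 := by rw [abs_of_nonneg hζ'.1]; exact hζ'.2.trans_lt h1
    have hp : 0 < 1 - ζ + d := by linarith [hζ'.2]
    have h3 := one_div_le_one_div_of_le (by positivity : 0 < (1 - ζ + d) ^ 2)
      (le_Dn hx hd0 hd hζ'.1 (hζ'.2.trans_lt h1))
    have h4 : 1 / (36 * Dn x ζ) = 1 / 36 * (1 / Dn x ζ) := by
      have := (Dn_pos hx ha).ne'
      field_simp
    rw [h4] at h3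
    linarith
  have h2 := hmono (left_mem_Icc.2 h0) (right_mem_Icc.2 h0) h0
  simp only [QQ_zero] at h2
  have e : z / ((1 - z + d) * (1 + d)) = 1 / (1 - z + d) - 1 / (1 - 0 + d) := by
    have t1 : 1 - z + d ≠ 0 := by linarith
    have t2 : 1 + d ≠ 0 := by linarith
    rw [sub_zero]
    field_simp
    ring
  rw [e]
  linarith

end

/-! ### the profile -/

/-- coefficients of the profile -/
def pc (r : ℝ) (n : ℕ) : ℝ := r * (1 - r) ^ (n - 1) / n

theorem pc_zero (r : ℝ) : pc r 0 = 0 := by simp [pc]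
theorem pc_succ (r : ℝ) (n : ℕ) : pc r (n + 1) = r * (1 - r) ^ n / ((n : ℝ) + 1) := by
  unfold pc; push_cast; simp

theorem pc_nonneg {r : ℝ} (h0 : 0 ≤ r) (h1 : r ≤ 1) (n : ℕ) : 0 ≤ pc r n := by
  unfold pc
  have : 0 ≤ 1 - r := by linarith
  positivity

theorem SS_pc {r q : ℝ} (h0 : 0 < r) (h1 : r < 1) (hq : q * (1 - r) < 1) : SS q (pc r) := by
  intro t ht1 ht2
  have hz : 0 < 1 - r := by linarith
  have htz : t * (1 - r) < 1 := (mul_lt_mul_of_pos_right ht2 hz).trans hq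
  have h3 : Summable fun n : ℕ => (t * (1 - r)) ^ n :=
    summable_geometric_of_lt_one (by positivity) htz
  refine (summable_nat_add_iff 1).1 (Summable.of_nonneg_of_le (fun n => by positivity) (fun n => ?_)
    (h3.mul_left t))
  rw [pc_succ, Real.norm_of_nonneg (by positivity)]
  have h4 : r * (1 - r) ^ n / ((n:ℝ) + 1) ≤ (1 - r) ^ n := by
    rw [div_le_iff₀ (by positivity)]
    have h5 : (0:ℝ) ≤ n := Nat.cast_nonneg n
    have h6 : 0 ≤ (1 - r) ^ n := by positivity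
    nlinarith
  calc t ^ (n + 1) * (r * (1 - r) ^ n / ((n:ℝ) + 1)) ≤ t ^ (n + 1) * (1 - r) ^ n := by gcongr
    _ = t * (t * (1 - r)) ^ n := by rw [mul_pow, pow_succ]; ring

theorem evk_pc {r x : ℝ} (h0 : 0 < r) (h1 : r < 1) (hx : x ∈ Icc (-1 : ℝ) 1) :
    evk 0 (pc r) x = r / (1 - r) * QQ x (1 - r) := by
  have hz : 0 < 1 - r := by linarith
  have hs : Summable fun n => pc r n * sv 0 n x := by
    refine (summable_nat_add_iff 1).1 ?_
    have ha : |1 - r| < 1 := by rw [abs_of_pos hz]; linarith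
    refine Summable.of_norm_bounded (summ_aux ha 1) fun n => ?_
    rw [pc_succ, norm_mul, Real.norm_of_nonneg (by positivity), Real.norm_eq_abs, abs_of_pos hz, pow_one]
    have h3 := sv_le hx (n + 1)
    push_cast at h3
    have h4 : r * (1 - r) ^ n / ((n:ℝ) + 1) ≤ (1 - r) ^ n := by
      rw [div_le_iff₀ (by positivity)]
      have h5 : (0:ℝ) ≤ n := Nat.cast_nonneg n
      have h6 : 0 ≤ (1 - r) ^ n := by positivity
      nlinarith
    calc r * (1 - r) ^ n / ((n:ℝ) + 1) * |sv 0 (n + 1) x| ≤ (1 - r) ^ n * ((n:ℝ) + 1) := by gcongr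
      _ = _ := by ring
  unfold evk QQ
  rw [hs.tsum_eq_zero_add, pc_zero, zero_mul, zero_add, ← tsum_mul_left]
  refine tsum_congr fun n => ?_
  rw [pc_succ, pow_succ]
  have hn : ((n:ℝ) + 1) ≠ 0 := by positivity
  field_simp

theorem evk_pc_lower {r x d : ℝ} (h0 : 0 < r) (h1 : r < 1) (hx : x ∈ Icc (-1 : ℝ) 1) (hd0 : 0 ≤ d)
    (hd : d ^ 2 = 2 - 2 * x) : 1 / 3 * (r / (r + d)) ≤ evk 0 (pc r) x := by
  have hz : 0 < 1 - r := by linarith
  have h := QQ_lower hx hd0 hd hz.le (by linarith)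
  rw [evk_pc h0 h1 hx]
  have hd2 : d ≤ 2 := by nlinarith [hx.1]
  have e : (1 - r) / ((1 - (1 - r) + d) * (1 + d)) = (1 - r) / ((r + d) * (1 + d)) := by
    congr 2; ring
  rw [e] at h
  calc 1 / 3 * (r / (r + d)) ≤ 1 / (1 + d) * (r / (r + d)) := by
        gcongr
        linarith
    _ = r / (1 - r) * ((1 - r) / ((r + d) * (1 + d))) := by field_simp
    _ ≤ _ := by gcongr

theorem evk_pc_upper {r x d : ℝ} (h0 : 0 < r) (h1 : r < 1) (hx : x ∈ Icc (-1 : ℝ) 1) (hd0 : 0 ≤ d)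
    (hd : d ^ 2 = 2 - 2 * x) : evk 0 (pc r) x ≤ 36 * (r / (r + d)) := by
  have hz : 0 < 1 - r := by linarith
  have h := QQ_upper hx hd0 hd hz.le (by linarith)
  rw [evk_pc h0 h1 hx]
  have e : (1 - r) / ((1 - (1 - r) + d) * (1 + d)) = (1 - r) / ((r + d) * (1 + d)) := by
    congr 2; ring
  rw [e] at h
  calc r / (1 - r) * QQ x (1 - r) ≤ r / (1 - r) * (36 * ((1 - r) / ((r + d) * (1 + d)))) := by gcongr
    _ = 36 * (1 / (1 + d) * (r / (r + d))) := by field_simp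
    _ ≤ 36 * (1 * (r / (r + d))) := by
        gcongr
        rw [div_le_one (by linarith)]; linarith
    _ = _ := by ring

/-- `-Δ P` -/
theorem evk_lmul_pc {r x : ℝ} (h0 : 0 < r) (h1 : r < 1) (hx : x ∈ Icc (-1 : ℝ) 1) :
    evk 0 (lmul (pc r)) x = r * ((1 - (1 - r) ^ 2) / Dn x (1 - r) ^ 2) - evk 0 (pc r) x := by
  have hz : 0 < 1 - r := by linarith
  have ha : |1 - r| < 1 := by rw [abs_of_pos hz]; linarith
  have hs1 : Summable fun n => pc r (n + 1) * sv 0 (n + 1) x := by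
    refine Summable.of_norm_bounded (summ_aux ha 1) fun n => ?_
    rw [pc_succ, norm_mul, Real.norm_of_nonneg (by positivity), Real.norm_eq_abs, abs_of_pos hz, pow_one]
    have h3 := sv_le hx (n + 1)
    push_cast at h3
    have h4 : r * (1 - r) ^ n / ((n:ℝ) + 1) ≤ (1 - r) ^ n := by
      rw [div_le_iff₀ (by positivity)]
      have h5 : (0:ℝ) ≤ n := Nat.cast_nonneg n
      have h6 : 0 ≤ (1 - r) ^ n := by positivity
      nlinarith
    calc r * (1 - r) ^ n / ((n:ℝ) + 1) * |sv 0 (n + 1) x| ≤ (1 - r) ^ n * ((n:ℝ) + 1) := by gcongr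
      _ = _ := by ring
  have hs2 := (gen2_summ hx ha).mul_left r
  have key : ∀ n : ℕ, lmul (pc r) (n + 1) * sv 0 (n + 1) x =
      r * (((n : ℝ) + 1) * (1 - r) ^ n * sv 0 (n + 1) x) - pc r (n + 1) * sv 0 (n + 1) x := by
    intro n
    show lam (n + 1) * pc r (n + 1) * sv 0 (n + 1) x = _
    unfold lam
    rw [if_neg (by omega), pc_succ]
    have hn : ((n:ℝ) + 1) ≠ 0 := by positivity
    push_cast
    field_simp
  have hs3 : Summable fun n => lmul (pc r) (n + 1) * sv 0 (n + 1) x :=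
    (hs2.sub hs1).congr fun n => (key n).symm
  have e1 : evk 0 (lmul (pc r)) x = ∑' n, lmul (pc r) (n + 1) * sv 0 (n + 1) x := by
    have hs4 : Summable fun n => lmul (pc r) n * sv 0 n x :=
      (summable_nat_add_iff (f := fun n => lmul (pc r) n * sv 0 n x) 1).1 hs3
    have h5 := hs4.tsum_eq_zero_add
    rw [sv_zero_x, mul_zero, zero_add] at h5
    exact h5
  have e2 : evk 0 (pc r) x = ∑' n, pc r (n + 1) * sv 0 (n + 1) x := by
    have hs4 : Summable fun n => pc r n * sv 0 n x :=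
      (summable_nat_add_iff (f := fun n => pc r n * sv 0 n x) 1).1 hs1
    have h5 := hs4.tsum_eq_zero_add
    rw [sv_zero_x, mul_zero, zero_add] at h5
    exact h5
  rw [e1, e2, ← gen2_tsum hx ha, ← tsum_mul_left, ← hs2.tsum_sub hs1]
  exact tsum_congr key

end

end Pool.Agent.N535
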