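import Mathlib
import Pool.Agent.N535.Pde
import Pool.Agent.N535.Gen

set_option autoImplicit false
set_option linter.all false
open Set Filter Topology
open scoped ENNReal ContDiff

namespace Pool.Agent.N535

open Pool.Agent.H858R2 (CI ev evH)

noncomputable section

/-- the weight parameter -/
def qr (r : ℝ) : ℝ := (1 - r / 2) / (1 - r)
def Mr (r : ℝ) : ℝ := (Real.sqrt r)⁻¹

section
variable {r : ℝ}

theorem qr_gt (h0 : 0 < r) (h1 : r < 1) : 1 < qr r := by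
  unfold qr
  rw [one_lt_div (by linarith)]; linarith

theorem qr_le (h0 : 0 < r) (h1 : r ≤ 1 / 2) : qr r ≤ 2 := by
  unfold qr
  rw [div_le_iff₀ (by linarith)]; linarith

theorem qr_mul (h1 : r < 1) : qr r * (1 - r) = 1 - r / 2 := by
  unfold qr
  have : 1 - r ≠ 0 := by linarith
  field_simp

theorem Mr_ge (h0 : 0 < r) (h1 : r ≤ 1) : 1 ≤ Mr r := by
  unfold Mr
  have h2 : 0 < Real.sqrt r := Real.sqrt_pos.2 h0
  exact (one_le_inv₀ h2).2 (Real.sqrt_le_one.2 h1)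

/-- termwise bound -/
theorem wb_pc (h0 : 0 < r) (h1 : r ≤ 1 / 2) (n : ℕ) :
    wb (qr r) (Mr r) n * pc r n ≤
      r / (1 - r) * (3 / 2) * (1 - r / 2) ^ n + 1 / (2 * (1 - r)) * (1 / (n:ℝ) ^ 2) := by
  have hz : 0 < 1 - r := by linarith
  rcases n with _ | n
  · rw [pc_zero, mul_zero]
    have : 0 < 1 - r / 2 := by linarith
    positivity
  · set S := Real.sqrt r with hS
    have hS0 : 0 < S := Real.sqrt_pos.2 h0
    have hS2 : S ^ 2 = r := Real.sq_sqrt h0.le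
    set y := 1 - r / 2 with hy
    have hy0 : 0 < y := by rw [hy]; linarith
    have hy1 : y ≤ 1 := by rw [hy]; linarith
    have hq := qr_mul (r := r) (by linarith)
    rw [← hy] at hq
    have hq' : qr r = y / (1 - r) := by rw [← hq]; field_simp
    set m : ℝ := (n:ℝ) + 1 with hm
    have hm0 : 0 < m := by positivity
    have hY : y ^ (n + 1) ≤ 1 := pow_le_one₀ hy0.le hy1
    have hY0 : 0 < y ^ (n + 1) := by positivity
    have e1 : wb (qr r) (Mr r) (n + 1) * pc r (n + 1) =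
        r / (1 - r) * (y ^ (n + 1) + S⁻¹ * (y ^ (n + 1) / m)) := by
      unfold wb Mr
      rw [pc_succ, ← hm, hq', div_pow, pow_succ (1 - r) n, ← hS]
      have e : ((n + 1 : ℕ) : ℝ) = m := by rw [hm]; push_cast; ring
      rw [e]
      field_simp
    have e2 : S⁻¹ * (y ^ (n + 1) / m) ≤ 1 / 2 * y ^ (n + 1) + 1 / 2 * (1 / r * (1 / m ^ 2)) := by
      have h3 : 0 ≤ (y ^ (n + 1) - S⁻¹ / m) ^ 2 := by positivity
      have h4 : (y ^ (n + 1)) ^ 2 ≤ y ^ (n + 1) := by rw [pow_two]; nlinarith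
      have h5 : (S⁻¹ / m) ^ 2 = 1 / r * (1 / m ^ 2) := by
        rw [← hS2]; field_simp
      have h6 : S⁻¹ * (y ^ (n + 1) / m) = y ^ (n + 1) * (S⁻¹ / m) := by field_simp
      rw [h6, ← h5]
      nlinarith
    rw [e1]
    have e : ((n + 1 : ℕ) : ℝ) = m := by rw [hm]; push_cast; ring
    rw [e]
    calc r / (1 - r) * (y ^ (n + 1) + S⁻¹ * (y ^ (n + 1) / m))
        ≤ r / (1 - r) * (y ^ (n + 1) + (1 / 2 * y ^ (n + 1) + 1 / 2 * (1 / r * (1 / m ^ 2)))) := by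
          gcongr
      _ = _ := by field_simp; ring

/-- the norm of the profile -/
theorem nm_pc (h0 : 0 < r) (h1 : r ≤ 1 / 2) : nm (wb (qr r) (Mr r)) (pc r) ≤ 8 := by
  have hz : 0 < 1 - r := by linarith
  have hy0 : 0 < 1 - r / 2 := by linarith
  have hs1 : Summable fun n : ℕ => r / (1 - r) * (3 / 2) * (1 - r / 2) ^ n :=
    (summable_geometric_of_lt_one hy0.le (by linarith)).mul_left _
  have hs2 : Summable fun n : ℕ => 1 / (2 * (1 - r)) * (1 / (n:ℝ) ^ 2) :=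
    hasSum_zeta_two.summable.mul_left _
  have hsum := hs1.add hs2
  have hval : ∑' n : ℕ, (r / (1 - r) * (3 / 2) * (1 - r / 2) ^ n + 1 / (2 * (1 - r)) * (1 / (n:ℝ) ^ 2)) ≤ 8 := by
    rw [hs1.tsum_add hs2, tsum_mul_left, tsum_mul_left, tsum_geometric_of_lt_one hy0.le (by linarith),
      hasSum_zeta_two.tsum_eq]
    have hpi : Real.pi ^ 2 ≤ 12 := by
      have h3 := Real.pi_lt_d2
      have h4 := Real.pi_pos
      nlinarith
    have e1 : r / (1 - r) * (3 / 2) * (1 - (1 - r / 2))⁻¹ = 3 / (1 - r) := by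
      have : 1 - (1 - r / 2) = r / 2 := by ring
      rw [this]; field_simp
    rw [e1]
    have h5 : 1 / (1 - r) ≤ 2 := by rw [div_le_iff₀ hz]; linarith
    have h6 : 3 / (1 - r) = 3 * (1 / (1 - r)) := by ring
    have h7 : 1 / (2 * (1 - r)) = 1 / 2 * (1 / (1 - r)) := by field_simp
    rw [h6, h7]
    have h8 : 0 < 1 / (1 - r) := by positivity
    nlinarith
  unfold nm
  calc ∑' n, ENNReal.ofReal (wb (qr r) (Mr r) n) * ‖pc r n‖ₑ
      ≤ ∑' n : ℕ, ENNReal.ofReal (r / (1 - r) * (3 / 2) * (1 - r / 2) ^ n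
          + 1 / (2 * (1 - r)) * (1 / (n:ℝ) ^ 2)) := by
        refine ENNReal.tsum_le_tsum fun n => ?_
        rw [Real.enorm_eq_ofReal_abs, abs_of_nonneg (pc_nonneg h0.le (by linarith) n),
          ← ENNReal.ofReal_mul (wb_nonneg (qr_gt h0 (by linarith)).le
            (zero_le_one.trans (Mr_ge h0 (by linarith))) n)]
        exact ENNReal.ofReal_le_ofReal (wb_pc h0 h1 n)
    _ = ENNReal.ofReal (∑' n : ℕ, (r / (1 - r) * (3 / 2) * (1 - r / 2) ^ n
          + 1 / (2 * (1 - r)) * (1 / (n:ℝ) ^ 2))) :=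
        (ENNReal.ofReal_tsum_of_nonneg (fun n => by positivity) hsum).symm
    _ ≤ ENNReal.ofReal 8 := ENNReal.ofReal_le_ofReal hval
    _ = 8 := by simp

/-- the initial data -/
def ad (ε r : ℝ) (n : ℕ) : ℝ := (-ε) • pc r n + ε ^ 2 • bil km (pc r) (pc r) n

theorem qr_lt_inv (h0 : 0 < r) (h1 : r < 1) : qr r * (1 - r) < 1 := by
  rw [qr_mul h1]; linarith

theorem SS_pcq (h0 : 0 < r) (h1 : r < 1) : SS (qr r) (pc r) := SS_pc h0 h1 (qr_lt_inv h0 h1)

theorem SS_pp (h0 : 0 < r) (h1 : r < 1) : SS (qr r) (bil km (pc r) (pc r)) :=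
  (SS_pcq h0 h1).bil (qr_gt h0 h1) PK_km (SS_pcq h0 h1)

theorem SS_ad (ε : ℝ) (h0 : 0 < r) (h1 : r < 1) : SS (qr r) (ad ε r) :=
  ((SS_pcq h0 h1).smul _).add ((SS_pp h0 h1).smul _)

theorem nm_ad {ε : ℝ} (hε : 0 ≤ ε) (hε1 : ε ≤ 1 / 64) (h0 : 0 < r) (h1 : r ≤ 1 / 2) :
    nm (wb (qr r) (Mr r)) (ad ε r) ≤ ENNReal.ofReal (9 * ε) := by
  have hq := (qr_gt h0 (by linarith)).le
  have hM : 0 ≤ Mr r := zero_le_one.trans (Mr_ge h0 (by linarith))
  have h2 := nm_pc h0 h1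
  have h3 : nm (wb (qr r) (Mr r)) (bil km (pc r) (pc r)) ≤ 64 := by
    have h4 := nm_bil_prod (wb_nonneg hq hM) (wa_nonneg hq) (fun J K n h => km_supp h.le)
      (kw_km_ab hq hM) (pc r) (pc r)
    refine h4.trans ?_
    calc nm (wa (qr r)) (pc r) * nm (wb (qr r) (Mr r)) (pc r)
        ≤ nm (wb (qr r) (Mr r)) (pc r) * nm (wb (qr r) (Mr r)) (pc r) := by
          gcongr
          exact a_le hq hM _
      _ ≤ 8 * 8 := by gcongr
      _ = 64 := by norm_num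
  have h5 := nm_add (wb (qr r) (Mr r)) (fun n => (-ε) • pc r n)
    (fun n => ε ^ 2 • bil km (pc r) (pc r) n)
  rw [nm_smul, nm_smul] at h5
  have e : nm (wb (qr r) (Mr r)) (ad ε r) = nm (wb (qr r) (Mr r))
      (fun n => (-ε) • pc r n + ε ^ 2 • bil km (pc r) (pc r) n) := rfl
  rw [e]
  refine h5.trans ?_
  have e1 : ‖-ε‖ₑ = ENNReal.ofReal ε := by
    rw [Real.enorm_eq_ofReal_abs, abs_neg, abs_of_nonneg hε]
  have e2 : ‖ε ^ 2‖ₑ = ENNReal.ofReal (ε ^ 2) := by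
    rw [Real.enorm_eq_ofReal_abs, abs_of_nonneg (by positivity)]
  rw [e1, e2]
  calc ENNReal.ofReal ε * nm (wb (qr r) (Mr r)) (pc r) +
        ENNReal.ofReal (ε ^ 2) * nm (wb (qr r) (Mr r)) (bil km (pc r) (pc r))
      ≤ ENNReal.ofReal ε * 8 + ENNReal.ofReal (ε ^ 2) * 64 := by gcongr
    _ = ENNReal.ofReal (ε * 8 + ε ^ 2 * 64) := by
        rw [ENNReal.ofReal_add (by positivity) (by positivity), ENNReal.ofReal_mul hε,
          ENNReal.ofReal_mul (by positivity)]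
        norm_num
    _ ≤ _ := by
        refine ENNReal.ofReal_le_ofReal ?_
        nlinarith

/-- coefficients of the data are small -/
theorem ad_bound {ε : ℝ} (hε : 0 ≤ ε) (hε1 : ε ≤ 1 / 64) (h0 : 0 < r) (h1 : r ≤ 1 / 2) (n : ℕ) :
    |ad ε r n| ≤ 9 * ε * Real.sqrt r := by
  have hq := (qr_gt h0 (by linarith)).le
  have hM1 := Mr_ge h0 (by linarith)
  have hM : 0 < Mr r := by linarith
  have h2 : ENNReal.ofReal (wb (qr r) (Mr r) n) * ‖ad ε r n‖ₑ ≤ ENNReal.ofReal (9 * ε) := by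
    refine le_trans ?_ (nm_ad hε hε1 h0 h1)
    unfold nm
    exact ENNReal.le_tsum (f := fun n => ENNReal.ofReal (wb (qr r) (Mr r) n) * ‖ad ε r n‖ₑ) n
  have h3 : Mr r ≤ wb (qr r) (Mr r) n := by
    unfold wb
    have h0 : (0:ℝ) ≤ n := Nat.cast_nonneg n
    have := one_le_pow₀ hq (n := n)
    nlinarith
  rw [Real.enorm_eq_ofReal_abs, ← ENNReal.ofReal_mul (by linarith),
    ENNReal.ofReal_le_ofReal_iff (by positivity)] at h2
  have hS : 0 < Real.sqrt r := Real.sqrt_pos.2 h0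
  have h4 : Mr r * |ad ε r n| ≤ 9 * ε := (mul_le_mul_of_nonneg_right h3 (abs_nonneg _)).trans h2
  unfold Mr at h4
  rw [inv_mul_le_iff₀ hS] at h4
  linarith

/-! ### values of the data -/

variable {ρ : ℝ}

theorem evk_ad0 (ε : ℝ) (h0 : 0 < r) (h1 : r < 1) (hρ : 1 < ρ) (hq : ρ < qr r) {t : ℝ}
    (ht : |t| ≤ bb ρ) :
    evk 0 (ad ε r) t = -(ε * evk 0 (pc r) t) + (ε * evk 0 (pc r) t) ^ 2 := by
  have e : ad ε r = fun n => (-ε) • pc r n + ε ^ 2 • bil km (pc r) (pc r) n := rfl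
  rw [e, evk_add hρ hq ((SS_pcq h0 h1).smul _) ((SS_pp h0 h1).smul _) 0 ht, evk_smul, evk_smul,
    ev_mul hρ hq (SS_pcq h0 h1) (SS_pcq h0 h1) ht]
  ring

theorem evk_ad1 (ε : ℝ) (h0 : 0 < r) (h1 : r < 1) (hρ : 1 < ρ) (hq : ρ < qr r) {t : ℝ}
    (ht : |t| < bb ρ) :
    evk 1 (ad ε r) t = (-1 + 2 * (ε * evk 0 (pc r) t)) * (ε * evk 1 (pc r) t) := by
  have h2 := evk_deriv hρ hq (SS_ad ε h0 h1) 0 ht
  have h3 := evk_deriv hρ hq (SS_pcq h0 h1) 0 ht
  have h4 := ((h3.const_mul ε).neg).add ((h3.const_mul ε).pow 2)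
  have h5 : evk 0 (ad ε r) =ᶠ[𝓝 t] fun t => -(ε * evk 0 (pc r) t) + (ε * evk 0 (pc r) t) ^ 2 := by
    have : {y : ℝ | |y| < bb ρ} ∈ 𝓝 t := (isOpen_lt continuous_abs continuous_const).mem_nhds ht
    filter_upwards [this] with y hy
    exact evk_ad0 ε h0 h1 hρ hq (le_of_lt hy)
  have h6 : HasDerivAt (evk 0 (ad ε r)) _ t := h4.congr_of_eventuallyEq h5
  rw [h2.unique h6]
  simp only [Nat.reduceSub, pow_one, Nat.cast_ofNat, zero_add]
  ring

theorem evk_ad2 (ε : ℝ) (h0 : 0 < r) (h1 : r < 1) (hρ : 1 < ρ) (hq : ρ < qr r) {t : ℝ}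
    (ht : |t| < bb ρ) :
    evk 2 (ad ε r) t = (-1 + 2 * (ε * evk 0 (pc r) t)) * (ε * evk 2 (pc r) t)
      + 2 * (ε * evk 1 (pc r) t) ^ 2 := by
  have h2 := evk_deriv hρ hq (SS_ad ε h0 h1) 1 ht
  have h3 := evk_deriv hρ hq (SS_pcq h0 h1) 0 ht
  have h3' := evk_deriv hρ hq (SS_pcq h0 h1) 1 ht
  have h4 := (((h3.const_mul ε).const_mul 2).const_add (-1)).mul (h3'.const_mul ε)
  have h5 : evk 1 (ad ε r) =ᶠ[𝓝 t]
      fun t => (-1 + 2 * (ε * evk 0 (pc r) t)) * (ε * evk 1 (pc r) t) := by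
    have : {y : ℝ | |y| < bb ρ} ∈ 𝓝 t := (isOpen_lt continuous_abs continuous_const).mem_nhds ht
    filter_upwards [this] with y hy
    exact evk_ad1 ε h0 h1 hρ hq hy
  have h6 : HasDerivAt (evk 1 (ad ε r)) _ t := h4.congr_of_eventuallyEq h5
  rw [show (2:ℕ) = 1 + 1 by rfl, h2.unique h6]
  simp only [zero_add]
  ring

/-- comparison of the solution at time zero with the data -/
theorem evk_init {Θ ε : ℝ} {c : ℕ → CI} (hε : 0 ≤ ε) (hε1 : ε ≤ 1 / 64) (h0 : 0 < r) (h1 : r ≤ 1 / 2)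
    (h : IsSolC Θ (qr r) (ad ε r) c) (hc : nX Θ (qr r) (Mr r) c ≤ ENNReal.ofReal (72 * ε))
    (hρ : 1 < ρ) (hq : ρ < qr r) {k : ℕ} (hk : k ≤ 2) {t : ℝ} (ht : t ∈ Icc (-1 : ℝ) 1) :
    |evk k (cf c 0) t - evk k (ad ε r) t| ≤ 21000 * ε * Real.sqrt r := by
  have hr1 : r < 1 := by linarith
  have hS : 0 < Real.sqrt r := Real.sqrt_pos.2 h0
  have hb : |t| ≤ bb ρ := (abs_le.2 ht).trans (one_lt_bb hρ).le
  have hM := Mr_ge h0 (by linarith)
  rw [← evk_sub hρ hq (h.ssc 0) (SS_ad ε h0 hr1) k hb]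
  have hd : ∀ n, |cf c 0 n - ad ε r n| ≤ 81 * ε * Real.sqrt r := by
    intro n
    have a1 := cf_bound (qr_gt h0 hr1).le (by linarith) (by positivity : 0 ≤ 72 * ε) hc 0 n
    have a2 := ad_bound hε hε1 h0 h1 n
    have a3 : 72 * ε / Mr r = 72 * ε * Real.sqrt r := by unfold Mr; rw [div_inv_eq_mul]
    rw [a3] at a1
    refine (abs_sub _ _).trans ?_
    linarith
  have hz : ∀ n, n ∉ ({1, 2} : Finset ℕ) → (cf c 0 n - ad ε r n) * sv k n t = 0 := by
    intro n hn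
    rcases Nat.eq_zero_or_pos n with rfl | hn0
    · have : sv k 0 t = 0 := by
        unfold sv
        rw [show ((0:ℕ):ℤ) = 0 by rfl, sp_zero, Polynomial.iterate_derivative_zero, Polynomial.eval_zero]
      rw [this, mul_zero]
    · have : 3 ≤ n := by
        simp only [Finset.mem_insert, Finset.mem_singleton, not_or] at hn
        omega
      rw [h.init this, sub_self, zero_mul]
  unfold evk
  rw [tsum_eq_sum (s := ({1, 2} : Finset ℕ)) hz, Finset.sum_pair (by norm_num)]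
  have hsv : ∀ n : ℕ, n ≤ 2 → |sv k n t| ≤ 128 := by
    intro n hn
    have a1 := sp_deriv_bound (ρ := 1) le_rfl (x := t) (by simpa using abs_le.2 ht) k n
    have a2 : |sv k n t| ≤ 2 ^ k * (n:ℝ) ^ (2 * k + 1) * 1 ^ n := a1
    refine a2.trans ?_
    rw [one_pow, mul_one]
    have b1 : (2:ℝ) ^ k ≤ 2 ^ 2 := pow_le_pow_right₀ (by norm_num) hk
    have b2 : (n:ℝ) ^ (2 * k + 1) ≤ 2 ^ (2 * k + 1) := by
      gcongr
      exact_mod_cast hn
    have b3 : (2:ℝ) ^ (2 * k + 1) ≤ 2 ^ 5 := pow_le_pow_right₀ (by norm_num) (by omega)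
    calc (2:ℝ) ^ k * (n:ℝ) ^ (2 * k + 1) ≤ 2 ^ 2 * 2 ^ 5 :=
          mul_le_mul b1 (b2.trans b3) (by positivity) (by positivity)
      _ = 128 := by norm_num
  refine (abs_add_le _ _).trans ?_
  rw [abs_mul, abs_mul]
  have c1 := mul_le_mul (hd 1) (hsv 1 (by norm_num)) (abs_nonneg _) (by positivity)
  have c2 := mul_le_mul (hd 2) (hsv 2 (by norm_num)) (abs_nonneg _) (by positivity)
  have c3 : 0 ≤ ε * Real.sqrt r := by positivity
  nlinarith

end

end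

end Pool.Agent.N535
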