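import Mathlib
import Pool.Agent.N535.Defs

set_option autoImplicit false
set_option linter.all false
open Set Filter Topology
open scoped ContDiff

namespace Pool.Agent.N535

noncomputable section

/-- scalar curvature of `w⁻² ĝ` -/
theorem scal_conf {w w1 : ℝ → ℝ} {w2 x : ℝ} (hx : x ∈ Ioo (-1 : ℝ) 1)
    (hw : ∀ y ∈ Ioo (-1 : ℝ) 1, HasDerivAt w (w1 y) y) (hw1 : HasDerivAt w1 w2 x)
    (hpos : ∀ y ∈ Ioo (-1 : ℝ) 1, 0 < w y) :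
    4 * Krf (Ef (fun y => (w y)⁻¹ ^ 2) (fun _ => 0)) (Ff (fun y => (w y)⁻¹ ^ 2)) x
      + 2 * Kff (Ef (fun y => (w y)⁻¹ ^ 2) (fun _ => 0)) (Ff (fun y => (w y)⁻¹ ^ 2)) x =
    6 * w x ^ 2 + 4 * w x * ((1 - x ^ 2) * w2 - 3 * x * w1 x) - 6 * ((1 - x ^ 2) * w1 x ^ 2) := by
  have hnb : Ioo (-1 : ℝ) 1 ∈ 𝓝 x := isOpen_Ioo.mem_nhds hx
  have hFd : ∀ y ∈ Ioo (-1 : ℝ) 1, HasDerivAt (Ff (fun y => (w y)⁻¹ ^ 2))
      (-2 * w1 y * (w y)⁻¹ ^ 3 * (1 - y ^ 2) - 2 * y * (w y)⁻¹ ^ 2) y := by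
    intro y hy
    have h0 := (hpos y hy).ne'
    have h1 : HasDerivAt (fun y => (w y)⁻¹) (-w1 y / w y ^ 2) y := (hw y hy).inv h0
    have h2 := (h1.pow 2).mul (((hasDerivAt_id y).pow 2).const_sub 1)
    refine (h2.congr_of_eventuallyEq (Filter.Eventually.of_forall fun z => rfl)).congr_deriv ?_
    simp only [id, Pi.pow_apply, Nat.reduceSub, pow_one, Nat.cast_ofNat]
    field_simp
    ring
  have hF1 : deriv (Ff (fun y => (w y)⁻¹ ^ 2)) =ᶠ[𝓝 x]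
      fun y => -2 * w1 y * (w y)⁻¹ ^ 3 * (1 - y ^ 2) - 2 * y * (w y)⁻¹ ^ 2 := by
    filter_upwards [hnb] with y hy
    exact (hFd y hy).deriv
  have h0 := (hpos x hx).ne'
  have hi : HasDerivAt (fun y => (w y)⁻¹) (-w1 x / w x ^ 2) x := (hw x hx).inv h0
  have hF2 : HasDerivAt (fun y => -2 * w1 y * (w y)⁻¹ ^ 3 * (1 - y ^ 2) - 2 * y * (w y)⁻¹ ^ 2)
      (-2 * w2 * (w x)⁻¹ ^ 3 * (1 - x ^ 2) + 6 * w1 x ^ 2 * (w x)⁻¹ ^ 4 * (1 - x ^ 2)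
        + 8 * x * w1 x * (w x)⁻¹ ^ 3 - 2 * (w x)⁻¹ ^ 2) x := by
    have a1 := (((hw1.const_mul (-2)).mul (hi.pow 3)).mul (((hasDerivAt_id x).pow 2).const_sub 1)).sub
      (((hasDerivAt_id x).const_mul 2).mul (hi.pow 2))
    refine (a1.congr_of_eventuallyEq (Filter.Eventually.of_forall fun z => rfl)).congr_deriv ?_
    simp only [id, Pi.pow_apply, Pi.mul_apply, Nat.reduceSub, pow_one, Nat.cast_ofNat]
    field_simp
    ring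
  have hx2 : 0 < 1 - x ^ 2 := by nlinarith [hx.1, hx.2]
  have hE : HasDerivAt (Ef (fun y => (w y)⁻¹ ^ 2) (fun _ => 0))
      (-2 * w1 x * (w x)⁻¹ ^ 3 / (1 - x ^ 2) + 2 * x * (w x)⁻¹ ^ 2 / (1 - x ^ 2) ^ 2) x := by
    have a1 := ((hi.pow 2).div (((hasDerivAt_id x).pow 2).const_sub 1) hx2.ne').add
      (hasDerivAt_const x (0:ℝ))
    refine (a1.congr_of_eventuallyEq (Filter.Eventually.of_forall fun z => rfl)).congr_deriv ?_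
    simp only [id, Pi.pow_apply, Nat.reduceSub, pow_one, Nat.cast_ofNat]
    field_simp
    ring
  have e1 : deriv (Ff (fun y => (w y)⁻¹ ^ 2)) x =
      -2 * w1 x * (w x)⁻¹ ^ 3 * (1 - x ^ 2) - 2 * x * (w x)⁻¹ ^ 2 := (hFd x hx).deriv
  have e2 := hF1.deriv_eq.trans hF2.deriv
  unfold Krf Kff
  rw [e2, e1, hE.deriv]
  unfold Ff Ef
  simp only
  have h1 := hx2.ne'
  field_simp
  ring

/-- algebra of the lower bound -/
theorem scal_lower {x u u1 u2 e0 e1 e2 κ Y : ℝ} (hx : x ∈ Icc (-1 : ℝ) 1) (hu : 0 ≤ u)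
    (hu2 : u ≤ 1 / 100) (hκ : κ ≤ 1 / 100) (h0 : |e0| ≤ κ) (h1 : |e1| ≤ κ) (h2 : |e2| ≤ κ)
    (hY : -((1 - x ^ 2) * u2 - 3 * x * u1) = Y - u) (hY0 : 0 ≤ Y) :
    6 - 17 * u + 2 * Y - 40 * κ ≤
      6 * (1 - u + u ^ 2 + e0) ^ 2 + 4 * (1 - u + u ^ 2 + e0) *
        ((1 - x ^ 2) * ((-1 + 2 * u) * u2 + 2 * u1 ^ 2 + e2) - 3 * x * ((-1 + 2 * u) * u1 + e1))
      - 6 * ((1 - x ^ 2) * ((-1 + 2 * u) * u1 + e1) ^ 2) := by
  have hκ0 : 0 ≤ κ := (abs_nonneg _).trans h0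
  obtain ⟨a1, a2⟩ := abs_le.1 h0
  obtain ⟨b1, b2⟩ := abs_le.1 h1
  obtain ⟨c1, c2⟩ := abs_le.1 h2
  have hx0 : 0 ≤ 1 - x ^ 2 := by nlinarith [hx.1, hx.2]
  have hx1 : 1 - x ^ 2 ≤ 1 := by nlinarith
  set W := 1 - u + u ^ 2 + e0 with hW
  set m := 1 - x ^ 2 with hm
  have hW1 : 1 - u - κ ≤ W := by rw [hW]; nlinarith [sq_nonneg u]
  have hW2 : W ≤ 1 + κ := by rw [hW]; nlinarith
  have hWlo : 98 / 100 ≤ W := by linarith
  have hWhi : W ≤ 101 / 100 := by linarith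
  set g := m * u1 ^ 2 with hg
  have hg0 : 0 ≤ g := by positivity
  set e' := m * e2 - 3 * x * e1 with he'
  have he1 : -(4 * κ) ≤ e' := by
    have t1 : -κ ≤ m * e2 := by nlinarith
    have t2 : 3 * x * e1 ≤ 3 * κ := by
      have : x * e1 ≤ |x * e1| := le_abs_self _
      rw [abs_mul] at this
      have hxa : |x| ≤ 1 := abs_le.2 hx
      have : |x| * |e1| ≤ 1 * κ := mul_le_mul hxa h1 (abs_nonneg _) zero_le_one
      linarith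
    rw [he']; linarith
  have key : 6 * W ^ 2 + 4 * W * (m * ((-1 + 2 * u) * u2 + 2 * u1 ^ 2 + e2)
        - 3 * x * ((-1 + 2 * u) * u1 + e1)) - 6 * (m * ((-1 + 2 * u) * u1 + e1) ^ 2) =
      6 * W ^ 2 + 4 * W * (1 - 2 * u) * (Y - u) + (8 * W - 6 * (1 - 2 * u) ^ 2) * g + 4 * W * e'
        + 12 * (1 - 2 * u) * (m * (u1 * e1)) - 6 * (m * e1 ^ 2) := by
    rw [← hY, hg, he']; ring
  rw [key]
  clear_value W g e' m
  have k1 : 6 - 12 * u - 12 * κ ≤ 6 * W ^ 2 := by nlinarith [sq_nonneg (W - 1)]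
  have hv1 : 98 / 100 ≤ 1 - 2 * u := by linarith
  have hv2 : 1 - 2 * u ≤ 1 := by linarith
  have hv3 : (1 - 2 * u) ^ 2 ≤ 1 := pow_le_one₀ (by linarith) hv2
  have hp1 : 98 / 100 * (98 / 100) ≤ W * (1 - 2 * u) := mul_le_mul hWlo hv1 (by norm_num) (by linarith)
  have hp2 : W * (1 - 2 * u) ≤ 101 / 100 * 1 := mul_le_mul hWhi hv2 (by linarith) (by norm_num)
  have k2 : 2 * Y ≤ 4 * W * (1 - 2 * u) * Y := by
    have t : 2 ≤ 4 * W * (1 - 2 * u) := by linarith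
    exact mul_le_mul_of_nonneg_right t hY0
  have k3 : 4 * W * (1 - 2 * u) * u ≤ 5 * u := by
    have t : 4 * W * (1 - 2 * u) ≤ 5 := by linarith
    exact mul_le_mul_of_nonneg_right t hu
  have k4 : g ≤ (8 * W - 6 * (1 - 2 * u) ^ 2) * g := by
    have t : 1 ≤ 8 * W - 6 * (1 - 2 * u) ^ 2 := by linarith
    have := mul_le_mul_of_nonneg_right t hg0
    linarith
  have k5 : -(17 * κ) ≤ 4 * W * e' := by
    have t1 : 4 * W * (-(4 * κ)) ≤ 4 * W * e' := mul_le_mul_of_nonneg_left he1 (by linarith)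
    have t2 : W * κ ≤ 101 / 100 * κ := mul_le_mul_of_nonneg_right hWhi hκ0
    linarith
  have k6 : -(m * u1 ^ 2 + 36 * (m * e1 ^ 2)) ≤ 12 * (1 - 2 * u) * (m * (u1 * e1)) := by
    have t1 : 0 ≤ m * (u1 + 6 * (1 - 2 * u) * e1) ^ 2 := by positivity
    have t3 : m * (36 * (1 - 2 * u) ^ 2 * e1 ^ 2) ≤ m * (36 * 1 * e1 ^ 2) := by gcongr
    have t4 : m * (u1 + 6 * (1 - 2 * u) * e1) ^ 2 = m * u1 ^ 2 + 12 * (1 - 2 * u) * (m * (u1 * e1))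
      + m * (36 * (1 - 2 * u) ^ 2 * e1 ^ 2) := by ring
    linarith
  rw [← hg] at k6
  have k7 : m * e1 ^ 2 ≤ κ / 100 := by
    have t1 : e1 ^ 2 ≤ κ ^ 2 := sq_le_sq' b1 b2
    have t2 : κ ^ 2 ≤ κ * (1 / 100) := by rw [pow_two]; exact mul_le_mul_of_nonneg_left hκ hκ0
    have t3 : m * e1 ^ 2 ≤ 1 * e1 ^ 2 := mul_le_mul_of_nonneg_right hx1 (sq_nonneg _)
    linarith
  have e : 4 * W * (1 - 2 * u) * (Y - u) = 4 * W * (1 - 2 * u) * Y - 4 * W * (1 - 2 * u) * u := by ring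
  rw [e]
  linarith

end

end Pool.Agent.N535
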