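import Mathlib
import Pool.Agent.N535.Ini
import Pool.Agent.N535.Sca
import Pool.Agent.N535.Flow

set_option autoImplicit false
set_option linter.all false
open Set Filter Topology
open scoped ENNReal ContDiff Manifold

namespace Pool.Agent.N535

open Pool.Agent.QTot
open Pool.Agent.H858R2 (CI ev evH En ctarget ctrn IsRicciFlow MaximalRicciFlow exists_maximal)

noncomputable section

theorem bump_small {κ : ℝ} (hκ : 0 < κ) : ∃ r₁ : ℝ, 0 < r₁ ∧ r₁ ≤ 1 / 2 ∧ ∀ r ∈ Ioo 0 r₁, ∀ D s : ℝ,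
    r ≤ s → 0 < D → D ≤ s ^ 2 →
    17 * (36 * (r / s)) ≤ 2 * (r * ((1 - (1 - r) ^ 2) / D ^ 2)) + κ := by
  refine ⟨min (1 / 2) ((κ / 612) ^ 3 / 306), by positivity, min_le_left _ _, ?_⟩
  intro r hr D s hrs hD hDs
  have hr0 := hr.1
  have hr1 : r < 1 / 2 := hr.2.trans_le (min_le_left _ _)
  have hr2 : r < (κ / 612) ^ 3 / 306 := hr.2.trans_le (min_le_right _ _)
  have hs : 0 < s := hr0.trans_le hrs
  have h1 : r ^ 2 / s ^ 4 ≤ r * ((1 - (1 - r) ^ 2) / D ^ 2) := by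
    have h2 : r ≤ 1 - (1 - r) ^ 2 := by nlinarith
    have h3 : D ^ 2 ≤ s ^ 4 := by
      calc D ^ 2 ≤ (s ^ 2) ^ 2 := pow_le_pow_left₀ hD.le hDs 2
        _ = s ^ 4 := by ring
    calc r ^ 2 / s ^ 4 = r * (r / s ^ 4) := by ring
      _ ≤ r * ((1 - (1 - r) ^ 2) / D ^ 2) := by
          have h5 : 0 ≤ 1 - (1 - r) ^ 2 := by linarith
          gcongr
  by_cases h : 306 * s ^ 3 ≤ r
  · have h2 : 17 * (36 * (r / s)) ≤ 2 * (r ^ 2 / s ^ 4) := by
      have e1 : 17 * (36 * (r / s)) = 2 * (r * (306 * s ^ 3)) / s ^ 4 := by field_simp; ring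
      have e2 : 2 * (r ^ 2 / s ^ 4) = 2 * (r * r) / s ^ 4 := by ring
      rw [e1, e2]
      gcongr
    linarith
  · push Not at h
    have h2 : r / s ≤ κ / 612 := by
      by_contra hc
      push Not at hc
      have h3 : (κ / 612) ^ 3 ≤ (r / s) ^ 3 := pow_le_pow_left₀ (by positivity) hc.le 3
      have h4 : (r / s) ^ 3 ≤ 306 * r ^ 2 := by
        rw [div_pow, div_le_iff₀ (by positivity)]
        nlinarith [pow_pos hr0 2]
      have h5 : 306 * r < (κ / 612) ^ 3 := by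
        rw [lt_div_iff₀ (by norm_num)] at hr2; linarith
      nlinarith
    have h3 : 0 ≤ r ^ 2 / s ^ 4 := by positivity
    linarith

/-- bounds for the inverse -/
theorem inv_bounds {u e κ φ E W : ℝ} (hE : 0 ≤ E) (hE1 : E ≤ 1 / 72000) (hφ0 : 0 ≤ φ) (hφ1 : φ ≤ 1)
    (hu1 : E * (1 / 3 * φ) ≤ u) (hu2 : u ≤ E * (36 * φ)) (hκ1 : κ ≤ 1 / 100) (he : |e| ≤ κ)
    (hW : W = 1 - u + u ^ 2 + e) :
    (1 - 2 * κ) * (1 + E / 6 * φ) ≤ W⁻¹ ∧ W⁻¹ ≤ (1 + 2 * κ) * (1 + 72 * E * φ) ∧ 98 / 100 ≤ W := by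
  have hκ0 : 0 ≤ κ := (abs_nonneg _).trans he
  obtain ⟨a1, a2⟩ := abs_le.1 he
  have hEφ0 : 0 ≤ E * φ := mul_nonneg hE hφ0
  have hEφ : E * φ ≤ 1 / 72000 := (mul_le_mul hE1 hφ1 hφ0 (by norm_num)).trans (by norm_num)
  have hu0 : 0 ≤ u := le_trans (by linarith) hu1
  have hu3 : u ≤ 1 / 2000 := hu2.trans (by linarith)
  set y := E * φ with hy
  have hu4 : u ≤ 36 * y := by linarith
  have hu5 : y / 3 ≤ u := by linarith
  have hWlo : 1 - 36 * y - κ ≤ W := by rw [hW]; nlinarith [sq_nonneg u]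
  have hWhi : W ≤ 1 - y / 6 + κ := by
    rw [hW]
    have : u ^ 2 ≤ u / 2 := by rw [pow_two]; nlinarith
    linarith
  have hW0 : 98 / 100 ≤ W := by linarith
  have hWp : 0 < W := by linarith
  refine ⟨?_, ?_, hW0⟩
  · rw [le_inv_comm₀ (by
      have : 0 < 1 - 2 * κ := by linarith
      have : 0 < 1 + E / 6 * φ := by
        have : 0 ≤ E / 6 * φ := by positivity
        linarith
      positivity) hWp]
    have hp : 0 < (1 - 2 * κ) * (1 + E / 6 * φ) := by
      have : 0 < 1 - 2 * κ := by linarith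
      have : 0 < 1 + E / 6 * φ := by
        have : 0 ≤ E / 6 * φ := by positivity
        linarith
      positivity
    rw [le_inv_comm₀ hWp hp]
    rw [le_inv_comm₀ hp hWp]
    rw [← one_div, le_div_iff₀ hp]
    have e1 : E / 6 * φ = y / 6 := by rw [hy]; ring
    rw [e1]
    have h0 : 0 ≤ 1 - 2 * κ := by linarith
    calc W * ((1 - 2 * κ) * (1 + y / 6)) ≤ (1 - y / 6 + κ) * ((1 - 2 * κ) * (1 + y / 6)) := by
          gcongr
      _ = (1 - 2 * κ) * ((1 - (y / 6) ^ 2) + κ * (1 + y / 6)) := by ring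
      _ ≤ (1 - 2 * κ) * (1 + 2 * κ) := by
          refine mul_le_mul_of_nonneg_left ?_ h0
          nlinarith [sq_nonneg (y / 6)]
      _ ≤ 1 := by nlinarith
  · rw [inv_le_iff_one_le_mul₀ hWp]
    have e1 : 72 * E * φ = 72 * y := by rw [hy]; ring
    rw [e1]
    calc (1:ℝ) ≤ (1 - (36 * y + κ)) * (1 + 2 * (36 * y + κ)) := by nlinarith
      _ ≤ (1 - (36 * y + κ)) * ((1 + 2 * κ) * (1 + 72 * y)) := by
          have h1 : 0 ≤ 1 - (36 * y + κ) := by linarith
          have h2 : 0 ≤ κ * y := by positivity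
          gcongr
          nlinarith
      _ ≤ W * ((1 + 2 * κ) * (1 + 72 * y)) := by
          gcongr
          linarith
      _ = _ := by ring

theorem ctarget_univ3 (e : OpenPartialHomeomorph S3 (En 3)) (he : e ∈ atlas (En 3) S3) (y : Eu 3) :
    y ∈ ctarget e := by
  obtain ⟨v, rfl⟩ : ∃ v : S3, e = stereographic' 3 v := he
  have htar : (stereographic' 3 v).target = univ := stereographic'_target v
  show WithLp.toLp 2 y ∈ (stereographic' 3 v).target
  rw [htar]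
  exact mem_univ _

end

end Pool.Agent.N535
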