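import Mathlib
import Pool.Agent.N535.Defs

set_option autoImplicit false
open scoped ContDiff Manifold Matrix
open Set

namespace Pool.Agent.N535

open Pool.Agent.QTot
open Pool.Agent.H858R2 (En ctarget ctrn)

/-- `g t`, `0 ≤ t < T`, is a Ricci flow on `S³` on its maximal interval of existence `[0, T)` -/
def MaximalFlow (T : EReal) (g : ℝ → Met) : Prop := Pool.Agent.H858R2.MaximalRicciFlow T g

/-- the smooth diffeomorphisms of `S³` -/
abbrev Diffeo : Type := S3 ≃ₘ^∞⟮𝓡 3, 𝓡 3⟯ S3

/-- the underlying map of a diffeomorphism -/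
noncomputable def act (φ : Diffeo) : S3 → S3 := φ

/-- local charts of `S³` with values in `ℝ³` -/
abbrev Chart : Type := OpenPartialHomeomorph S3 (En 3)

/-- the chart `e` belongs to the (smooth) atlas of `S³` -/
def InAtlas (e : Chart) : Prop := e ∈ atlas (En 3) S3

/-- `y` is the coordinate vector, in the chart `e`, of a point of the domain of `e` -/
def InTarget (e : Chart) (y : Eu 3) : Prop := y ∈ ctarget e

/-- `p` is in the domain of the chart `e` -/
def InSource (e : Chart) (p : S3) : Prop := p ∈ e.source

/-- the point of coordinates `y` in the chart `e` -/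
noncomputable def pt (e : Chart) (y : Eu 3) : S3 := e.symm (WithLp.toLp 2 y)

/-- the coordinates of `p` in the chart `e` -/
noncomputable def coord (e : Chart) (p : S3) : Eu 3 := WithLp.ofLp (e p)

/-- the matrix of the metric `g` in the chart `e` at the point of coordinates `y` -/
noncomputable def mat (g : Met) (e : Chart) (y : Eu 3) : Mt 3 := g.G e y

/-- the scalar curvature of `g` is at least `6` everywhere (in all charts) -/
def ScalAtLeastSix (g : Met) : Prop :=
  ∀ (e : Chart) (y : Eu 3), InAtlas e → InTarget e y → 6 ≤ Scal (mat g e) y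

/-- the matrix of the partial derivatives of a map `ℝ³ → ℝ⁴` -/
noncomputable def jac4 (P : Eu 3 → E4) (y : Eu 3) : Matrix (Fin 4) (Fin 3) ℝ :=
  Matrix.of fun a i => pd i (fun z => P z a) y

/-- the matrix, in the chart `e` of `S³`, of the round metric of curvature `1`: the first fundamental
form `(⟨∂_i P, ∂_j P⟩)` of the parametrization `P = e⁻¹` of the unit sphere of `ℝ⁴` -/
noncomputable def roundG (e : Chart) (y : Eu 3) : Mt 3 :=
  (jac4 (fun z => (pt e z : E4)) y)ᵀ * jac4 (fun z => (pt e z : E4)) y

/-- the map `φ` of `S³` in the charts `e` (of the source) and `e'` (of the target) -/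
noncomputable def loc (φ : S3 → S3) (e e' : Chart) (y : Eu 3) : Eu 3 := coord e' (φ (pt e y))

/-- the matrix, in the chart `e`, of the pull-back `φ^* g`; the metric `g` is evaluated in the chart
`e'` -/
noncomputable def pullG (φ : S3 → S3) (g : Met) (e e' : Chart) (y : Eu 3) : Mt 3 :=
  (Jac (loc φ e e') y)ᵀ * mat g e' (loc φ e e' y) * Jac (loc φ e e') y

/-- the value `A(v, v)` of the quadratic form of matrix `A` -/
noncomputable def qf (A : Mt 3) (v : Eu 3) : ℝ := ∑ i, ∑ j, A i j * v i * v j

/-- For every diffeomorphism `φ` of `S³` there are a point (of coordinates `y` in the chart `e`), a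
chart `e'` at its image, and a tangent vector at this point (of components `v ≠ 0` in the chart `e`)
with `|(φ^* g)(v, v) - ĝ(v, v)| ≥ ε ĝ(v, v)`, where `ĝ` is the round metric of curvature `1`. -/
def FarFromRound (ε : ℝ) (g : Met) : Prop :=
  ∀ φ : Diffeo, ∃ (e e' : Chart) (y v : Eu 3), InAtlas e ∧ InAtlas e' ∧ InTarget e y ∧
    InSource e' (act φ (pt e y)) ∧ v ≠ 0 ∧
    ε * qf (roundG e y) v ≤ |qf (pullG (act φ) g e e' y) v - qf (roundG e y) v|

end Pool.Agent.N535
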