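import Mathlib
import Pool.Agent.N535.FarDefs
import Pool.Agent.N564.RF3.Chart
import Pool.Agent.N564.RF3.Val

set_option autoImplicit false
set_option linter.all false
open scoped ContDiff Manifold Matrix Topology
open Set

namespace Pool.Agent.N535

open Pool.Agent.QTot
open Pool.Agent.H858R2 (En ctarget ctrn)
open Pool.Agent.N564.RF3 (chart_pkg JP_mulVec pullA_quad quad_expand stVal stMetric)

theorem Jac_mulVec {F : Eu 3 → Eu 3} {y : Eu 3} (hF : DifferentiableAt ℝ F y) (ξ : Eu 3) :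
    (Jac F y).mulVec ξ = fderiv ℝ F y ξ := by
  ext a
  have h2 : ∀ i, Jac F y a i = (fderiv ℝ F y (Pi.single i 1)) a := by
    intro i
    have := (hasFDerivAt_pi'.1 hF.hasFDerivAt a).fderiv
    simp only [Jac, Matrix.of_apply, pd]
    rw [this]
    rfl
  have h3 : ξ = ∑ d, ξ d • (Pi.single d 1 : Eu 3) := by
    ext e
    simp [Finset.sum_apply, Pi.single_apply]
  conv_rhs => rw [h3]
  rw [map_sum, Finset.sum_apply]
  simp only [Matrix.mulVec, dotProduct]
  refine Finset.sum_congr rfl fun d _ => ?_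
  rw [map_smul, Pi.smul_apply, smul_eq_mul, h2 d, mul_comm]

theorem qf_eq (A : Mt 3) (v : Eu 3) : qf A v = v ⬝ᵥ A.mulVec v := quad_expand A v

theorem roundG_eq (e : OpenPartialHomeomorph S3 (En 3)) (y : Eu 3) :
    roundG e y = pullA (Pinv e) (fun _ => 1) (fun _ => 0) y := by
  have h : ambG (fun _ => 1) (fun _ => 0) (Pinv e y) = 1 := by
    ext a b
    simp [ambG, Matrix.one_apply]
  rw [pullA, h, Matrix.mul_one]
  rfl

/-- the round metric in the preferred chart -/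
theorem qf_round (p : S3) (u : TangentSpace (𝓡 3) p) :
    qf (roundG (chartAt (En 3) p) (WithLp.ofLp (chartAt (En 3) p p))) (WithLp.ofLp (u : En 3))
      = rsq p u := by
  obtain ⟨g, hg⟩ := stMetric (fun _ => 1) (fun _ => 0) univ isOpen_univ (subset_univ _)
    contDiffOn_const contDiffOn_const (by intro x hx; simp)
  have h1 := stVal (fun _ => 1) g (fun e he => by rw [hg e]; simp) p u
  rw [one_pow, one_mul] at h1
  rw [← h1, roundG_eq, ← hg]
  rfl

theorem mfderiv_coord (φ : Diffeo) (p : S3) (u : TangentSpace (𝓡 3) p) :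
    (mfderiv (𝓡 3) (𝓡 3) φ p u : En 3) =
      fderiv ℝ (fun z : En 3 => chartAt (En 3) (φ p) (φ ((chartAt (En 3) p).symm z)))
        (chartAt (En 3) p p) (u : En 3) ∧
    DifferentiableAt ℝ (fun z : En 3 => chartAt (En 3) (φ p) (φ ((chartAt (En 3) p).symm z)))
      (chartAt (En 3) p p) := by
  have hm : MDifferentiableAt (𝓡 3) (𝓡 3) φ p := φ.mdifferentiable (by simp) p
  have h1 := hm.mfderiv
  have e1 : range (𝓡 3) = univ := ModelWithCorners.range_eq_univ _
  have h2 : fderivWithin ℝ (writtenInExtChartAt (𝓡 3) (𝓡 3) p φ)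
      (range (𝓡 3)) (extChartAt (𝓡 3) p p) =
      fderiv ℝ (fun z : En 3 => chartAt (En 3) (φ p) (φ ((chartAt (En 3) p).symm z)))
        (chartAt (En 3) p p) := by
    rw [e1, fderivWithin_univ]
    rfl
  constructor
  · rw [h1]
    exact congrArg (fun L : En 3 →L[ℝ] En 3 => L u) h2
  · have h3 := hm.2
    rw [DifferentiableWithinAtProp] at h3
    rw [e1, preimage_univ, preimage_univ, inter_univ] at h3
    exact differentiableWithinAt_univ.1 h3

theorem loc_jac (φ : Diffeo) (p : S3) (u : TangentSpace (𝓡 3) p) :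
    WithLp.ofLp (mfderiv (𝓡 3) (𝓡 3) φ p u : En 3) =
      (Jac (loc (act φ) (chartAt (En 3) p) (chartAt (En 3) (φ p)))
        (WithLp.ofLp (chartAt (En 3) p p))).mulVec (WithLp.ofLp (u : En 3)) := by
  obtain ⟨h1, h2⟩ := mfderiv_coord φ p u
  have hd : HasFDerivAt (loc (act φ) (chartAt (En 3) p) (chartAt (En 3) (φ p)))
      (((PiLp.continuousLinearEquiv 2 ℝ (fun _ : Fin 3 => ℝ)) :
          PiLp 2 (fun _ : Fin 3 => ℝ) →L[ℝ] (Fin 3 → ℝ)).comp
        ((fderiv ℝ (fun z : En 3 => chartAt (En 3) (φ p) (φ ((chartAt (En 3) p).symm z)))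
          (chartAt (En 3) p p)).comp
          ((PiLp.continuousLinearEquiv 2 ℝ (fun _ : Fin 3 => ℝ)).symm :
            (Fin 3 → ℝ) →L[ℝ] PiLp 2 (fun _ : Fin 3 => ℝ))))
      (WithLp.ofLp (chartAt (En 3) p p)) := by
    refine HasFDerivAt.comp (g := (PiLp.continuousLinearEquiv 2 ℝ (fun _ : Fin 3 => ℝ)))
      (f := fun y : Eu 3 => chartAt (En 3) (φ p) (φ ((chartAt (En 3) p).symm (WithLp.toLp 2 y))))
      (WithLp.ofLp (chartAt (En 3) p p))
      (PiLp.continuousLinearEquiv 2 ℝ (fun _ : Fin 3 => ℝ)).hasFDerivAt ?_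
    refine HasFDerivAt.comp
      (g := fun z : En 3 => chartAt (En 3) (φ p) (φ ((chartAt (En 3) p).symm z)))
      (f := (PiLp.continuousLinearEquiv 2 ℝ (fun _ : Fin 3 => ℝ)).symm)
      (WithLp.ofLp (chartAt (En 3) p p)) ?_
      (PiLp.continuousLinearEquiv 2 ℝ (fun _ : Fin 3 => ℝ)).symm.hasFDerivAt
    exact h2.hasFDerivAt
  rw [Jac_mulVec hd.differentiableAt, hd.fderiv, h1]
  rfl

theorem far_of (ε : ℝ) (g : Met)
    (h : ∀ φ : S3 ≃ₘ^∞⟮𝓡 3, 𝓡 3⟯ S3, ∃ (p : S3) (u : TangentSpace (𝓡 3) p), u ≠ 0 ∧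
        ε * rsq p u ≤ |sq g (φ p) (mfderiv (𝓡 3) (𝓡 3) φ p u) - rsq p u|) :
    FarFromRound ε g := by
  intro φ
  obtain ⟨p, u, hu, hle⟩ := h φ
  have hl : (chartAt (En 3) p).symm (WithLp.toLp 2 (WithLp.ofLp (chartAt (En 3) p p))) = p := by
    show (chartAt (En 3) p).symm (chartAt (En 3) p p) = p
    exact (chartAt (En 3) p).left_inv (mem_chart_source _ p)
  refine ⟨chartAt (En 3) p, chartAt (En 3) (φ p), WithLp.ofLp (chartAt (En 3) p p),
    WithLp.ofLp (u : En 3), chart_mem_atlas _ p, chart_mem_atlas _ (φ p), ?_, ?_, ?_, ?_⟩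
  · show (chartAt (En 3) p p) ∈ (chartAt (En 3) p).target
    exact mem_chart_target _ p
  · show φ ((chartAt (En 3) p).symm (WithLp.toLp 2 (WithLp.ofLp (chartAt (En 3) p p)))) ∈
      (chartAt (En 3) (φ p)).source
    rw [hl]
    exact mem_chart_source _ (φ p)
  · intro h0
    apply hu
    exact PiLp.ext (fun i => congrFun h0 i)
  · rw [qf_round]
    have h1 : qf (pullG (act φ) g (chartAt (En 3) p) (chartAt (En 3) (φ p))
        (WithLp.ofLp (chartAt (En 3) p p))) (WithLp.ofLp (u : En 3)) =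
        sq g (φ p) (mfderiv (𝓡 3) (𝓡 3) φ p u) := by
      have h2 : loc (act φ) (chartAt (En 3) p) (chartAt (En 3) (φ p)) (WithLp.ofLp (chartAt (En 3) p p))
          = WithLp.ofLp (chartAt (En 3) (φ p) (φ p)) := by
        show WithLp.ofLp (chartAt (En 3) (φ p) (φ ((chartAt (En 3) p).symm
          (WithLp.toLp 2 (WithLp.ofLp (chartAt (En 3) p p)))))) = _
        rw [hl]
      have h3 : sq g (φ p) (mfderiv (𝓡 3) (𝓡 3) φ p u) =
          qf (g.G (chartAt (En 3) (φ p)) (WithLp.ofLp (chartAt (En 3) (φ p) (φ p))))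
            (WithLp.ofLp (mfderiv (𝓡 3) (𝓡 3) φ p u : En 3)) := rfl
      rw [h3, loc_jac, qf_eq, qf_eq, pullG, h2, mat]
      rw [← Matrix.mulVec_mulVec, ← Matrix.mulVec_mulVec, Matrix.dotProduct_mulVec,
        Matrix.vecMul_transpose]
    rw [h1]
    exact hle

end Pool.Agent.N535
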