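import Mathlib
import Pool.Agent.N535.Asm

set_option autoImplicit false
set_option linter.all false
open Set Filter Topology
open scoped ENNReal ContDiff Manifold

namespace Pool.Agent.N535

open Pool.Agent.QTot
open Pool.Agent.H858R2 (CI ev evH En ctarget ctrn IsRicciFlow MaximalRicciFlow exists_maximal)

noncomputable section

/-- the scalar curvature of the initial metric -/
theorem scal_init {E κ r S W W1 W2 x P P1 P2 e0 e1 e2 D s : ℝ} (hE : 0 ≤ E) (hE1 : E ≤ 1 / 72000)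
    (hκ : 0 < κ) (hκ1 : κ ≤ 1 / 100) (hx : x ∈ Icc (-1 : ℝ) 1) (hr : 0 < r) (hr1 : r < 1) (hs : r ≤ s)
    (hP0 : 1 / 3 * (r / s) ≤ P) (hP1 : P ≤ 36 * (r / s)) (hD : 0 < D)
    (hlap : -((1 - x ^ 2) * P2 - 3 * x * P1) = r * ((1 - (1 - r) ^ 2) / D ^ 2) - P)
    (hbump : 17 * (36 * (r / s)) ≤ 2 * (r * ((1 - (1 - r) ^ 2) / D ^ 2)) + κ)
    (h0 : |e0| ≤ κ) (h1 : |e1| ≤ κ) (h2 : |e2| ≤ κ)
    (hW : W = 1 - E * P + (E * P) ^ 2 + e0)
    (hW1 : W1 = (-1 + 2 * (E * P)) * (E * P1) + e1)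
    (hW2 : W2 = (-1 + 2 * (E * P)) * (E * P2) + 2 * (E * P1) ^ 2 + e2)
    (hS : 0 < S) (hS2 : S ^ 2 ≤ 1 - 7 * κ) :
    6 ≤ 6 * (S⁻¹ * W) ^ 2 + 4 * (S⁻¹ * W) * ((1 - x ^ 2) * (S⁻¹ * W2) - 3 * x * (S⁻¹ * W1))
      - 6 * ((1 - x ^ 2) * (S⁻¹ * W1) ^ 2) := by
  have hs0 : 0 < s := hr.trans_le hs
  have hφ0 : 0 ≤ r / s := by positivity
  have hφ1 : r / s ≤ 1 := (div_le_one hs0).2 hs
  have hP : 0 ≤ P := le_trans (by positivity) hP0
  have hu : 0 ≤ E * P := mul_nonneg hE hP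
  have hu2 : E * P ≤ 1 / 100 := by
    have : E * P ≤ 1 / 72000 * 36 := mul_le_mul hE1 (hP1.trans (by linarith)) hP (by norm_num)
    linarith
  set Y := E * (r * ((1 - (1 - r) ^ 2) / D ^ 2)) with hY
  have hY0 : 0 ≤ Y := by
    have : 0 ≤ 1 - (1 - r) ^ 2 := by nlinarith
    rw [hY]; positivity
  have key := scal_lower (x := x) (u := E * P) (u1 := E * P1) (u2 := E * P2) (Y := Y) hx hu hu2 hκ1 h0 h1 h2
    (by rw [hY]; linear_combination E * hlap) hY0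
  have e : 6 * (S⁻¹ * W) ^ 2 + 4 * (S⁻¹ * W) * ((1 - x ^ 2) * (S⁻¹ * W2) - 3 * x * (S⁻¹ * W1))
      - 6 * ((1 - x ^ 2) * (S⁻¹ * W1) ^ 2) = (S ^ 2)⁻¹ * (6 * W ^ 2 + 4 * W *
        ((1 - x ^ 2) * W2 - 3 * x * W1) - 6 * ((1 - x ^ 2) * W1 ^ 2)) := by
    field_simp
  rw [e, hW, hW1, hW2, ← div_eq_inv_mul, le_div_iff₀ (by positivity)]
  refine le_trans ?_ key
  have h3 : 17 * (E * P) ≤ 2 * Y + κ := by
    have a1 : 17 * (E * P) ≤ E * (17 * (36 * (r / s))) := by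
      have := mul_le_mul_of_nonneg_left hP1 hE
      linarith
    have a2 : E * (17 * (36 * (r / s))) ≤ E * (2 * (r * ((1 - (1 - r) ^ 2) / D ^ 2)) + κ) :=
      mul_le_mul_of_nonneg_left hbump hE
    have a3 : E * κ ≤ 1 * κ := mul_le_mul_of_nonneg_right (by linarith) hκ.le
    rw [hY]; linarith
  linarith

theorem main_cond (HM : StMetric) (HS : StScal) (HR : StRicci) (HV : StVal) (HE : StGauge)
    (HF : StFar) :
    ∃ ε : ℝ, 0 < ε ∧ ∀ δ : ℝ, 0 < δ → ∃ (T : EReal) (g : ℝ → Met), MaximalRicciFlow T g ∧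
      ((1 / 4 - δ : ℝ) : EReal) < T ∧
      (∀ e ∈ atlas (En 3) S3, ∀ y ∈ ctarget e, 6 ≤ Scal ((g 0).G e) y) ∧
      ∀ φ : S3 ≃ₘ^∞⟮𝓡 3, 𝓡 3⟯ S3, ∃ (p : S3) (u : TangentSpace (𝓡 3) p), u ≠ 0 ∧
        ε * rsq p u ≤ |sq (g 0) (φ p) (mfderiv (𝓡 3) (𝓡 3) φ p u) - rsq p u| := by
  obtain ⟨E, hE⟩ : ∃ E : ℝ, E = 1 / 72000 := ⟨_, rfl⟩
  have hE0 : 0 < E := by rw [hE]; norm_num
  obtain ⟨ε, hε, η, hη, r₀, hr₀, hfar⟩ := HF (E / 6) (72 * E) (by positivity) (by linarith)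
    (by rw [hE]; norm_num)
  refine ⟨ε, hε, fun δ hδ => ?_⟩
  obtain ⟨κ, hκ0, hκ1, hκδ, hκη⟩ : ∃ κ : ℝ, 0 < κ ∧ κ ≤ 1 / 1000 ∧ 8 * κ ≤ δ ∧ 16 * κ ≤ η := by
    refine ⟨min (1 / 1000) (min (δ / 8) (η / 16)), by positivity, min_le_left _ _, ?_, ?_⟩
    · have : min (1 / 1000) (min (δ / 8) (η / 16)) ≤ δ / 8 := (min_le_right _ _).trans (min_le_left _ _)
      linarith
    · have : min (1 / 1000) (min (δ / 8) (η / 16)) ≤ η / 16 := (min_le_right _ _).trans (min_le_right _ _)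
      linarith
  obtain ⟨r₁, hr₁, hr₁2, hbump⟩ := bump_small hκ0
  obtain ⟨r, hr0, hrr0, hrr1, hrκ⟩ : ∃ r : ℝ, 0 < r ∧ r < r₀ ∧ r < r₁ ∧ Real.sqrt r ≤ κ := by
    refine ⟨min (r₀ / 2) (min (r₁ / 2) (κ ^ 2)), by positivity, ?_, ?_, ?_⟩
    · have : min (r₀ / 2) (min (r₁ / 2) (κ ^ 2)) ≤ r₀ / 2 := min_le_left _ _
      linarith
    · have : min (r₀ / 2) (min (r₁ / 2) (κ ^ 2)) ≤ r₁ / 2 := (min_le_right _ _).trans (min_le_left _ _)
      linarith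
    · have h1 : min (r₀ / 2) (min (r₁ / 2) (κ ^ 2)) ≤ κ ^ 2 := (min_le_right _ _).trans (min_le_right _ _)
      calc Real.sqrt (min (r₀ / 2) (min (r₁ / 2) (κ ^ 2))) ≤ Real.sqrt (κ ^ 2) := Real.sqrt_le_sqrt h1
        _ = κ := Real.sqrt_sq hκ0.le
  have hr12 : r ≤ 1 / 2 := by linarith
  have hr1 : r < 1 := by linarith
  obtain ⟨Θ, hΘ, hΘe⟩ : ∃ Θ : ℝ, 0 < Θ ∧ Real.exp (-(4 * Θ)) ≤ κ := by
    refine ⟨κ⁻¹, by positivity, ?_⟩
    rw [Real.exp_neg, inv_le_comm₀ (Real.exp_pos _) hκ0]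
    have h1 := Real.add_one_le_exp (4 * κ⁻¹)
    have h2 : 0 < κ⁻¹ := by positivity
    linarith
  have hq1 := qr_gt hr0 hr1
  have hM1 := Mr_ge hr0 hr1.le
  obtain ⟨c, hc, heq⟩ := sol_exists hΘ hq1 (qr_le hr0 hr12) hM1 (by positivity : 0 ≤ 9 * E)
    (by rw [hE]; norm_num) (ad E r) (nm_ad hE0.le (by rw [hE]; norm_num) hr0 hr12)
  have hc' : nX Θ (qr r) (Mr r) c ≤ ENNReal.ofReal (72 * E) := by
    refine hc.trans (ENNReal.ofReal_le_ofReal ?_); linarith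
  have hsol : IsSolC Θ (qr r) (ad E r) c :=
    ⟨SS_of_nX hq1.le hM1 (ne_top_of_le_ne_top ENNReal.ofReal_ne_top hc), heq⟩
  obtain ⟨ρ, hρ, hρq⟩ := exists_between hq1
  have hpos : ∀ s x : ℝ, |x| ≤ bb ρ → 0 < Vf c s x := by
    intro s x hx
    have h1 := abs_le.1 (Vf_bound hρ hρq hM1 (by positivity) hc' s hx)
    have h2 : 72 * E ≤ 1 / 2 := by rw [hE]; norm_num
    linarith [h1.1]
  obtain ⟨A, hA⟩ : ∃ A : ℝ, A = 1 - 7 * κ := ⟨_, rfl⟩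
  have hA0 : 0 < A := by rw [hA]; linarith
  have ev0 := evk_cont hρ hρq hsol.ss 0 (half_pos hκ0)
  have ev1 := evk_cont hρ hρq hsol.ss 1 (half_pos hκ0)
  have ev2 := evk_cont hρ hρq hsol.ss 2 (half_pos hκ0)
  have evt : ∀ᶠ s in 𝓝[>] (0:ℝ), tf A Θ s < κ := by
    have h1 : Continuous (tf A Θ) := by unfold tf; fun_prop
    have h2 : tf A Θ 0 < κ := by unfold tf; simpa using hκ0
    exact nhdsWithin_le_nhds (h1.continuousAt.eventually_lt continuousAt_const h2)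
  obtain ⟨s₀, hv0, hv1, hv2, hts, hs₀⟩ :=
    (ev0.and (ev1.and (ev2.and (evt.and (Ioo_mem_nhdsGT (zero_lt_one : (0:ℝ) < 1)))))).exists
  have hs₀' : 0 < s₀ := hs₀.1
  have ht0 := tf_pos hA0 hΘ hs₀'
  have hT : tf A Θ s₀ + (1 / 4 - 4 * κ) < Tf A Θ := by
    have h1 : 1 / 4 - 2 * κ ≤ Tf A Θ := by
      unfold Tf
      have h2 : A * (1 - κ) ≤ A * (1 - Real.exp (-(4 * Θ))) :=
        mul_le_mul_of_nonneg_left (by linarith) hA0.le
      have h3 : 1 - 8 * κ ≤ A * (1 - κ) := by rw [hA]; nlinarith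
      linarith
    linarith
  obtain ⟨g, hg, hg0⟩ := main_flow HM HR HE hsol hA0 hΘ hρ hρq hpos hs₀' (by linarith) hT
  obtain ⟨T, g', hmax, hle, heq'⟩ := exists_maximal (1 / 4 - 4 * κ) g (by linarith) hg
  -- the initial metric
  obtain ⟨S, hS⟩ : ∃ S : ℝ, S = Real.sqrt (A * Real.exp (-(4 * Θ * s₀))) := ⟨_, rfl⟩
  have hSpos : 0 < S := by rw [hS]; positivity
  have hSsq : S ^ 2 = A - 4 * tf A Θ s₀ := by
    rw [hS, Real.sq_sqrt (by positivity), sub_tf]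
  have hSle : S ^ 2 ≤ 1 - 7 * κ := by rw [hSsq, ← hA]; linarith
  have hSle1 : S ≤ 1 := by nlinarith
  have hSge : 1 - 11 * κ ≤ S := by
    have h1 : 1 - 11 * κ ≤ S ^ 2 := by rw [hSsq]; linarith
    nlinarith
  have hG : ∀ e ∈ atlas (En 3) S3, (g' 0).G e =
      pullA (Pinv e) (fun x => (S / Vf c s₀ x) ^ 2) (fun _ => 0) := by
    intro e he
    funext y
    rw [heq' 0 ⟨le_rfl, by linarith⟩ e he y (ctarget_univ3 e he y), hg0 e, hS]
  -- values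
  have hb1 : ∀ x ∈ Icc (-1 : ℝ) 1, |x| < bb ρ := fun x hx => (abs_le.2 hx).trans_lt (one_lt_bb hρ)
  have hval : ∀ k ≤ 2, ∀ x ∈ Icc (-1 : ℝ) 1, |evk k (cf c s₀) x - evk k (cf c 0) x| ≤ κ / 2 →
      |evk k (cf c s₀) x - evk k (ad E r) x| ≤ κ := by
    intro k hk x hx h1
    have h2 := evk_init hE0.le (by rw [hE]; norm_num) hr0 hr12 hsol hc' hρ hρq hk hx
    have h3 : 21000 * E * Real.sqrt r ≤ κ / 2 := by
      rw [hE]
      linarith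
    have h4 := abs_add_le (evk k (cf c s₀) x - evk k (cf c 0) x) (evk k (cf c 0) x - evk k (ad E r) x)
    rw [sub_add_sub_cancel] at h4
    linarith
  have hw0 : ∀ x ∈ Icc (-1 : ℝ) 1, |evk 0 (cf c s₀) x - evk 0 (ad E r) x| ≤ κ := fun x hx =>
    hval 0 (by norm_num) x hx (hv0 x (hb1 x hx).le)
  have hw1 : ∀ x ∈ Icc (-1 : ℝ) 1, |evk 1 (cf c s₀) x - evk 1 (ad E r) x| ≤ κ := fun x hx =>
    hval 1 (by norm_num) x hx (hv1 x (hb1 x hx).le)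
  have hw2 : ∀ x ∈ Icc (-1 : ℝ) 1, |evk 2 (cf c s₀) x - evk 2 (ad E r) x| ≤ κ := fun x hx =>
    hval 2 (by norm_num) x hx (hv2 x (hb1 x hx).le)
  have hWform : ∀ x ∈ Icc (-1 : ℝ) 1, Vf c s₀ x = 1 - E * evk 0 (pc r) x + (E * evk 0 (pc r) x) ^ 2
      + (evk 0 (cf c s₀) x - evk 0 (ad E r) x) := by
    intro x hx
    rw [evk_ad0 E hr0 hr1 hρ hρq (hb1 x hx).le]
    unfold Vf
    ring
  have hd : ∀ x ∈ Icc (-1 : ℝ) 1, Real.sqrt (2 - 2 * x) ^ 2 = 2 - 2 * x := fun x hx =>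
    Real.sq_sqrt (by linarith [hx.2])
  refine ⟨T, g', hmax, ?_, ?_, ?_⟩
  · refine lt_of_lt_of_le ?_ hle
    rw [EReal.coe_lt_coe_iff]
    linarith
  · intro e he y hy
    rw [hG e he]
    have hVsm : ContDiffOn ℝ ∞ (Vf c s₀) (Ioo (-bb ρ) (bb ρ)) :=
      (Vf_smooth hsol hρ hρq).comp (contDiff_prodMk_right s₀).contDiffOn fun x hx => ⟨hs₀, hx⟩
    refine HS (fun x => (S / Vf c s₀ x) ^ 2) (fun _ => 0) (Ioo (-bb ρ) (bb ρ)) 6 isOpen_Ioo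
      (fun x hx => abs_lt.1 (hb1 x hx)) ?_ contDiffOn_const ?_ ?_ e he y
    · exact (contDiffOn_const.div hVsm fun x hx => (hpos s₀ x (abs_lt.2 hx).le).ne').pow 2
    · intro x hx
      have h1 : 0 < S / Vf c s₀ x := div_pos hSpos (hpos s₀ x (hb1 x hx).le)
      have h2 : 0 < (S / Vf c s₀ x) ^ 2 := by positivity
      exact ⟨h2, by simpa using h2⟩
    · intro x hx
      have hx' : x ∈ Icc (-1 : ℝ) 1 := ⟨hx.1.le, hx.2.le⟩
      have hbx := hb1 x hx'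
      have eα : (fun x => (S / Vf c s₀ x) ^ 2) = fun x => (S⁻¹ * Vf c s₀ x)⁻¹ ^ 2 := by
        funext y
        rw [mul_inv, inv_inv]
        rfl
      rw [eα]
      rw [scal_conf (w := fun y => S⁻¹ * Vf c s₀ y) (w1 := fun y => S⁻¹ * evk 1 (cf c s₀) y)
        (w2 := S⁻¹ * evk 2 (cf c s₀) x) hx
        (fun y hy => (Vf_dx hρ hρq hsol.ssc s₀ (hb1 y ⟨hy.1.le, hy.2.le⟩)).const_mul _)
        ((evk_deriv hρ hρq (hsol.ssc s₀) 1 hbx).const_mul _)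
        (fun y hy => mul_pos (inv_pos.2 hSpos) (hpos s₀ y (hb1 y ⟨hy.1.le, hy.2.le⟩).le))]
      have hrs : r ≤ r + Real.sqrt (2 - 2 * x) := by linarith [Real.sqrt_nonneg (2 - 2 * x)]
      have hz : |1 - r| < 1 := by rw [abs_of_pos (by linarith)]; linarith
      have hDp := Dn_pos hx' hz
      have hDle : Dn x (1 - r) ≤ (r + Real.sqrt (2 - 2 * x)) ^ 2 := by
        have := Dn_le hx' (Real.sqrt_nonneg (2 - 2 * x)) (hd x hx') (by linarith : 0 ≤ 1 - r) (by linarith)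
        have e : 1 - (1 - r) = r := by ring
        rwa [e] at this
      refine scal_init (E := E) (κ := κ) (r := r) (P := evk 0 (pc r) x) (P1 := evk 1 (pc r) x)
        (P2 := evk 2 (pc r) x) (D := Dn x (1 - r)) (s := r + Real.sqrt (2 - 2 * x))
        hE0.le hE.le hκ0 (by linarith) hx' hr0 hr1 hrs
        (evk_pc_lower hr0 hr1 hx' (Real.sqrt_nonneg _) (hd x hx'))
        (evk_pc_upper hr0 hr1 hx' (Real.sqrt_nonneg _) (hd x hx')) hDp ?_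
        (hbump r ⟨hr0, hrr1⟩ _ _ hrs hDp hDle)
        (hw0 x hx') (hw1 x hx') (hw2 x hx') (hWform x hx') ?_ ?_ hSpos hSle
      · rw [← ev_lmul hρ hρq (SS_pcq hr0 hr1) hbx.le, evk_lmul_pc hr0 hr1 hx']
      · rw [← evk_ad1 E hr0 hr1 hρ hρq hbx]; ring
      · rw [← evk_ad2 E hr0 hr1 hρ hρq hbx]; ring
  · have hcont : ContinuousOn (fun x => S / Vf c s₀ x) (Icc (-1 : ℝ) 1) := by
      refine continuousOn_const.div (fun x hx => ?_) (fun x hx => (hpos s₀ x (hb1 x hx).le).ne')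
      exact (Vf_dx hρ hρq hsol.ssc s₀ (hb1 x hx)).continuousAt.continuousWithinAt
    intro φ
    obtain ⟨p, u, hu, hpu⟩ := hfar r ⟨hr0, hrr0⟩ (fun x => S / Vf c s₀ x) hcont (by
      intro x hx
      have hs0 : 0 < r + Real.sqrt (2 - 2 * x) := by linarith [Real.sqrt_nonneg (2 - 2 * x)]
      have hφ0 : 0 ≤ r / (r + Real.sqrt (2 - 2 * x)) := by positivity
      have hφ1 : r / (r + Real.sqrt (2 - 2 * x)) ≤ 1 :=
        (div_le_one hs0).2 (by linarith [Real.sqrt_nonneg (2 - 2 * x)])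
      have hl := evk_pc_lower hr0 hr1 hx (Real.sqrt_nonneg _) (hd x hx)
      have hup := evk_pc_upper hr0 hr1 hx (Real.sqrt_nonneg _) (hd x hx)
      obtain ⟨b1, b2, b3⟩ := inv_bounds (E := E) (φ := r / (r + Real.sqrt (2 - 2 * x)))
        (u := E * evk 0 (pc r) x) (W := Vf c s₀ x) hE0.le hE.le hφ0 hφ1
        (mul_le_mul_of_nonneg_left hl hE0.le) (mul_le_mul_of_nonneg_left hup hE0.le)
        (by linarith : κ ≤ 1 / 100) (hw0 x hx) (hWform x hx)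
      generalize r / (r + Real.sqrt (2 - 2 * x)) = ψ at *
      rw [div_eq_mul_inv]
      have hy1 : 0 < 1 + E / 6 * ψ := by positivity
      have hy2 : 0 < 1 + 72 * E * ψ := by positivity
      constructor
      · calc (1 - η) * (1 + E / 6 * ψ) ≤ ((1 - 11 * κ) * (1 - 2 * κ)) * (1 + E / 6 * ψ) := by
              refine mul_le_mul_of_nonneg_right ?_ hy1.le
              nlinarith
          _ = (1 - 11 * κ) * ((1 - 2 * κ) * (1 + E / 6 * ψ)) := by ring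
          _ ≤ S * ((1 - 2 * κ) * (1 + E / 6 * ψ)) := by
              refine mul_le_mul_of_nonneg_right hSge (mul_nonneg (by linarith) hy1.le)
          _ ≤ S * (Vf c s₀ x)⁻¹ := mul_le_mul_of_nonneg_left b1 hSpos.le
      · calc S * (Vf c s₀ x)⁻¹ ≤ 1 * (Vf c s₀ x)⁻¹ :=
              mul_le_mul_of_nonneg_right hSle1 (inv_nonneg.2 (by linarith))
          _ = (Vf c s₀ x)⁻¹ := one_mul _
          _ ≤ (1 + 2 * κ) * (1 + 72 * E * ψ) := b2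
          _ ≤ (1 + η) * (1 + 72 * E * ψ) := by
              refine mul_le_mul_of_nonneg_right ?_ hy2.le
              linarith) φ
    refine ⟨p, u, hu, ?_⟩
    rw [HV (fun x => S / Vf c s₀ x) (g' 0) hG]
    exact hpu

end

end Pool.Agent.N535
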